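import Pool.Agent.W87.HyperRamsey

/-!
Pseudorandom colourings of `r`-uniform hypergraphs: random colourings.
-/

open Finset Function

namespace Pool.Agent.W87.HR

/-- counting form of the product formula -/
lemma sum_prod_bool {ι : Type} [Fintype ι] [DecidableEq ι] (f : ι → Bool → ℝ) :
    ∑ c : ι → Bool, ∏ i, f i (c i) = ∏ i, (f i true + f i false) := by
  have h := Finset.prod_univ_sum (fun _ : ι => (Finset.univ : Finset Bool)) f
  rw [Fintype.piFinset_univ] at h
  rw [← h]
  simp

/-- exponential tail bound -/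
lemma tail {ι : Type} [Fintype ι] [DecidableEq ι] (w : ι → ℝ) (W t l : ℝ) (hl : 0 ≤ l)
    (hW : ∑ i, (w i) ^ 2 ≤ W) :
    (((Finset.univ : Finset (ι → Bool)).filter (fun c => t < ∑ i, (if c i = true then -(w i) / 2 else w i / 2))).card : ℝ)
      ≤ 2 ^ (Fintype.card ι) * Real.exp (l ^ 2 * W / 8 - l * t) := by
  classical
  set A := (Finset.univ : Finset (ι → Bool)).filter
    (fun c => t < ∑ i, (if c i = true then -(w i) / 2 else w i / 2)) with hA
  have h1 : (A.card : ℝ) * Real.exp (l * t) ≤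
      ∑ c : ι → Bool, Real.exp (l * ∑ i, (if c i = true then -(w i) / 2 else w i / 2)) := by
    calc (A.card : ℝ) * Real.exp (l * t) = ∑ c ∈ A, Real.exp (l * t) := by
          rw [Finset.sum_const, nsmul_eq_mul]
      _ ≤ ∑ c ∈ A, Real.exp (l * ∑ i, (if c i = true then -(w i) / 2 else w i / 2)) := by
          apply Finset.sum_le_sum
          intro c hc
          rw [hA, Finset.mem_filter] at hc
          exact Real.exp_le_exp.mpr (mul_le_mul_of_nonneg_left hc.2.le hl)
      _ ≤ _ := Finset.sum_le_sum_of_subset_of_nonneg (Finset.subset_univ _)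
          (fun _ _ _ => (Real.exp_pos _).le)
  have h2 : ∑ c : ι → Bool, Real.exp (l * ∑ i, (if c i = true then -(w i) / 2 else w i / 2))
      = ∏ i, (2 * Real.cosh (l * w i / 2)) := by
    have h3 : ∀ c : ι → Bool, Real.exp (l * ∑ i, (if c i = true then -(w i) / 2 else w i / 2))
        = ∏ i, (if c i = true then Real.exp (-(l * w i / 2)) else Real.exp (l * w i / 2)) := by
      intro c
      rw [Finset.mul_sum, Real.exp_sum]
      apply Finset.prod_congr rfl
      intro i _
      split_ifs
      · congr 1; ring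
      · congr 1; ring
    rw [Finset.sum_congr rfl (fun c _ => h3 c)]
    rw [sum_prod_bool (fun i b => if b = true then Real.exp (-(l * w i / 2)) else Real.exp (l * w i / 2))]
    apply Finset.prod_congr rfl
    intro i _
    rw [Real.cosh_eq]
    simp
    ring
  have h3 : ∏ i, (2 * Real.cosh (l * w i / 2)) ≤ 2 ^ (Fintype.card ι) * Real.exp (l ^ 2 * W / 8) := by
    calc ∏ i, (2 * Real.cosh (l * w i / 2))
        ≤ ∏ i, (2 * Real.exp ((l * w i / 2) ^ 2 / 2)) := by
          apply Finset.prod_le_prod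
          · intro i _
            have := Real.cosh_pos (l * w i / 2)
            positivity
          · intro i _
            exact mul_le_mul_of_nonneg_left (Real.cosh_le_exp_half_sq _) (by norm_num)
      _ = 2 ^ (Fintype.card ι) * Real.exp (∑ i, (l * w i / 2) ^ 2 / 2) := by
          rw [Finset.prod_mul_distrib, Finset.prod_const, Finset.card_univ, Real.exp_sum]
      _ ≤ _ := by
          apply mul_le_mul_of_nonneg_left _ (by positivity)
          apply Real.exp_le_exp.mpr
          have : ∑ i, (l * w i / 2) ^ 2 / 2 = l ^ 2 * (∑ i, (w i) ^ 2) / 8 := by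
            rw [Finset.mul_sum, Finset.sum_div]
            apply Finset.sum_congr rfl
            intro i _
            ring
          rw [this]
          have h4 : l ^ 2 * (∑ i, (w i) ^ 2) ≤ l ^ 2 * W :=
            mul_le_mul_of_nonneg_left hW (sq_nonneg l)
          linarith
  rw [Real.exp_sub, ← mul_div_assoc, le_div_iff₀ (Real.exp_pos _)]
  linarith

/-- the number of colourings which are constant on a set of coordinates -/
lemma count_const {ι : Type} [Fintype ι] [DecidableEq ι] (F : Finset ι) (b : Bool) :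
    (((Finset.univ : Finset (ι → Bool)).filter (fun c => ∀ i ∈ F, c i = b)).card : ℝ)
      = 2 ^ (Fintype.card ι) / 2 ^ F.card := by
  classical
  have h1 : (((Finset.univ : Finset (ι → Bool)).filter (fun c => ∀ i ∈ F, c i = b)).card : ℝ)
      = ∑ c : ι → Bool, ∏ i, (if i ∈ F then (if c i = b then (1:ℝ) else 0) else 1) := by
    rw [Finset.card_filter, Nat.cast_sum]
    apply Finset.sum_congr rfl
    intro c _
    by_cases hc : ∀ i ∈ F, c i = b
    · rw [if_pos hc, Nat.cast_one]
      symm
      apply Finset.prod_eq_one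
      intro i _
      split_ifs with h1 h2
      · rfl
      · exact absurd (hc i h1) h2
      · rfl
    · rw [if_neg hc, Nat.cast_zero]
      push Not at hc
      obtain ⟨i, hi, hci⟩ := hc
      symm
      apply Finset.prod_eq_zero (Finset.mem_univ i)
      rw [if_pos hi, if_neg hci]
  rw [h1, sum_prod_bool (fun i x => if i ∈ F then (if x = b then (1:ℝ) else 0) else 1)]
  have h2 : ∀ i : ι, ((if i ∈ F then (if true = b then (1:ℝ) else 0) else 1)
      + (if i ∈ F then (if false = b then (1:ℝ) else 0) else 1)) = if i ∈ F then 1 else 2 := by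
    intro i
    by_cases hi : i ∈ F
    · cases b <;> simp [hi]
    · simp only [if_neg hi]; norm_num
  rw [Finset.prod_congr rfl (fun i _ => h2 i), Finset.prod_ite]
  rw [Finset.prod_const_one, one_mul, Finset.prod_const]
  rw [eq_div_iff (by positivity), ← pow_add]
  congr 1
  have h3 := Finset.card_filter_add_card_filter_not (s := (Finset.univ : Finset ι)) (fun i => i ∈ F)
  rw [Finset.card_univ] at h3
  have h4 : (Finset.univ.filter (fun i => i ∈ F)).card = F.card := by
    congr 1
    ext i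
    simp
  omega

section

variable {V : Type} [Fintype V] [DecidableEq V]

open Classical in
/-- the number of injective tuples in `cliques G` with underlying set `e` -/
noncomputable def wt {R : ℕ} (G : Fin (R + 1) → Set (Fin R → V)) (e : Finset V) : ℝ :=
  ∑ y : Fin (R + 1) → V, (if (Injective y ∧ y ∈ cliques G) ∧ Finset.univ.image y = e then (1:ℝ) else 0)

open Classical in
lemma sum_wt {R : ℕ} (G : Fin (R + 1) → Set (Fin R → V)) (f : Finset V → ℝ) :
    ∑ e : Finset V, f e * wt G e
      = ∑ y : Fin (R + 1) → V, (if Injective y ∧ y ∈ cliques G then f (Finset.univ.image y) else 0) := by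
  unfold wt
  simp_rw [Finset.mul_sum]
  rw [Finset.sum_comm]
  apply Finset.sum_congr rfl
  intro y _
  by_cases h : Injective y ∧ y ∈ cliques G
  · simp only [h, true_and, if_true, and_self]
    rw [Finset.sum_eq_single (Finset.univ.image y)]
    · simp
    · intro e _ he
      rw [if_neg (fun h' => he h'.symm), mul_zero]
    · intro h'
      exact absurd (Finset.mem_univ _) h'
  · simp only [h, false_and, if_false, mul_zero, Finset.sum_const_zero]

lemma wt_nonneg {R : ℕ} (G : Fin (R + 1) → Set (Fin R → V)) (e : Finset V) : 0 ≤ wt G e := by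
  classical
  unfold wt
  apply Finset.sum_nonneg
  intro y _
  split_ifs <;> norm_num

lemma wt_le {R : ℕ} (G : Fin (R + 1) → Set (Fin R → V)) (e : Finset V) :
    wt G e ≤ ((R : ℝ) + 1) ^ (R + 1) := by
  classical
  unfold wt
  rw [Finset.sum_ite, Finset.sum_const_zero, add_zero, Finset.sum_const, nsmul_eq_mul, mul_one]
  by_cases h : ∃ y : Fin (R + 1) → V, (Injective y ∧ y ∈ cliques G) ∧ Finset.univ.image y = e
  · obtain ⟨y0, ⟨hy0, -⟩, hy1⟩ := h
    have hcard : e.card = R + 1 := by
      rw [← hy1, Finset.card_image_of_injective _ hy0, Finset.card_univ, Fintype.card_fin]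
    have hsub : (Finset.univ.filter (fun y : Fin (R + 1) → V =>
        (Injective y ∧ y ∈ cliques G) ∧ Finset.univ.image y = e))
        ⊆ Fintype.piFinset (fun _ : Fin (R + 1) => e) := by
      intro y hy
      rw [Finset.mem_filter] at hy
      rw [Fintype.mem_piFinset]
      intro i
      rw [← hy.2.2]
      exact Finset.mem_image_of_mem _ (Finset.mem_univ i)
    have h1 := Finset.card_le_card hsub
    rw [Fintype.card_piFinset_const, hcard] at h1
    calc ((Finset.univ.filter (fun y : Fin (R + 1) → V =>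
        (Injective y ∧ y ∈ cliques G) ∧ Finset.univ.image y = e)).card : ℝ)
        ≤ (((R + 1) ^ (R + 1) : ℕ) : ℝ) := by exact_mod_cast h1
      _ = _ := by push_cast; ring
  · push Not at h
    rw [Finset.filter_false_of_mem (fun y _ hy => h y hy.1 hy.2)]
    simp
    positivity

lemma sum_wt_le {R : ℕ} (G : Fin (R + 1) → Set (Fin R → V)) :
    ∑ e : Finset V, wt G e ≤ (Fintype.card V : ℝ) ^ (R + 1) := by
  classical
  have h := sum_wt G (fun _ => 1)
  simp only [one_mul] at h
  rw [h]
  calc ∑ y : Fin (R + 1) → V, (if Injective y ∧ y ∈ cliques G then (1:ℝ) else 0)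
      ≤ ∑ _y : Fin (R + 1) → V, (1:ℝ) := by
        apply Finset.sum_le_sum
        intro y _
        split_ifs <;> norm_num
    _ = _ := by simp

lemma sum_wt_sq_le {R : ℕ} (G : Fin (R + 1) → Set (Fin R → V)) :
    ∑ e : Finset V, (wt G e) ^ 2 ≤ ((R : ℝ) + 1) ^ (R + 1) * (Fintype.card V : ℝ) ^ (R + 1) := by
  calc ∑ e : Finset V, (wt G e) ^ 2 ≤ ∑ e : Finset V, ((R : ℝ) + 1) ^ (R + 1) * wt G e := by
        apply Finset.sum_le_sum
        intro e _
        rw [sq]
        exact mul_le_mul_of_nonneg_right (wt_le G e) (wt_nonneg G e)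
    _ = ((R : ℝ) + 1) ^ (R + 1) * ∑ e : Finset V, wt G e := by rw [Finset.mul_sum]
    _ ≤ _ := mul_le_mul_of_nonneg_left (sum_wt_le G) (by positivity)

/-- the number of tuples with a repetition -/
lemma card_noninj (R : ℕ) :
    ((Finset.univ.filter (fun y : Fin (R + 1) → V => ¬ Injective y)).card : ℝ)
      ≤ ((R : ℝ) + 1) ^ 2 * (Fintype.card V : ℝ) ^ R := by
  classical
  have hsub : (Finset.univ.filter (fun y : Fin (R + 1) → V => ¬ Injective y))
      ⊆ (Finset.univ : Finset (Fin (R + 1) × Fin (R + 1))).biUnion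
        (fun p => Finset.univ.filter (fun y : Fin (R + 1) → V => p.1 ≠ p.2 ∧ y p.1 = y p.2)) := by
    intro y hy
    rw [Finset.mem_filter] at hy
    unfold Injective at hy
    push Not at hy
    obtain ⟨-, a, b, hab, hne⟩ := hy
    rw [Finset.mem_biUnion]
    exact ⟨(a, b), Finset.mem_univ _, by simp [hab, hne]⟩
  have h1 := (Finset.card_le_card hsub).trans Finset.card_biUnion_le
  have h2 : ∀ p ∈ (Finset.univ : Finset (Fin (R + 1) × Fin (R + 1))),
      (Finset.univ.filter (fun y : Fin (R + 1) → V => p.1 ≠ p.2 ∧ y p.1 = y p.2)).card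
        ≤ Fintype.card V ^ R := by
    intro p _
    have h3 : (Finset.univ.filter (fun y : Fin (R + 1) → V => p.1 ≠ p.2 ∧ y p.1 = y p.2)).card
        ≤ (Finset.univ : Finset (Fin R → V)).card := by
      apply Finset.card_le_card_of_injOn (fun y => fun l => y (p.2.succAbove l))
      · intro y _
        exact Finset.mem_coe.mpr (Finset.mem_univ _)
      · intro y hy y' hy' hyy
        rw [Finset.mem_coe, Finset.mem_filter] at hy hy'
        funext i
        by_cases hi : i = p.2
        · rw [hi, ← hy.2.2, ← hy'.2.2]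
          obtain ⟨l, hl⟩ := Fin.exists_succAbove_eq hy.2.1
          rw [← hl]
          exact congrFun hyy l
        · obtain ⟨l, hl⟩ := Fin.exists_succAbove_eq hi
          rw [← hl]
          exact congrFun hyy l
    refine h3.trans ?_
    rw [Finset.card_univ, Fintype.card_fun, Fintype.card_fin]
  have h3 := h1.trans (Finset.sum_le_card_nsmul _ _ _ h2)
  rw [Finset.card_univ, Fintype.card_prod, Fintype.card_fin, smul_eq_mul] at h3
  calc ((Finset.univ.filter (fun y : Fin (R + 1) → V => ¬ Injective y)).card : ℝ)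
      ≤ (((R + 1) * (R + 1) * Fintype.card V ^ R : ℕ) : ℝ) := by exact_mod_cast h3
    _ = _ := by push_cast; ring

/-- from the tail event to density -/
lemma dense_of_tail {R : ℕ} {c : Finset V → Bool} {t β : ℝ}
    (h : ∀ G : Fin (R + 1) → Set (Fin R → V),
      ∑ e : Finset V, (if c e = true then -(wt G e) / 2 else wt G e / 2) ≤ t)
    (hβ : t + ((R : ℝ) + 1) ^ 2 * (Fintype.card V : ℝ) ^ R / 2
      ≤ β * (Fintype.card V : ℝ) ^ (R + 1)) :
    Dense (Red c R) (1 / 2) β := by
  classical
  intro G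
  have h1 := h G
  have h2 : ∑ e : Finset V, (if c e = true then -(wt G e) / 2 else wt G e / 2)
      = ∑ e : Finset V, (if c e = true then (-1/2 : ℝ) else 1 / 2) * wt G e := by
    apply Finset.sum_congr rfl
    intro e _
    split_ifs <;> ring
  rw [h2, sum_wt] at h1
  have h3 : 1 / 2 * cnt (cliques G) - cnt (Red c R ∩ cliques G) ≤
      ∑ y : Fin (R + 1) → V, (if Injective y ∧ y ∈ cliques G then
        (if c (Finset.univ.image y) = true then (-1/2 : ℝ) else 1 / 2) else 0)
      + ((Finset.univ.filter (fun y : Fin (R + 1) → V => ¬ Injective y)).card : ℝ) / 2 := by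
    have h4 : ((Finset.univ.filter (fun y : Fin (R + 1) → V => ¬ Injective y)).card : ℝ) / 2
        = ∑ y : Fin (R + 1) → V, (if ¬ Injective y then (1/2 : ℝ) else 0) := by
      rw [Finset.sum_ite, Finset.sum_const_zero, add_zero, Finset.sum_const, nsmul_eq_mul]
      ring
    rw [h4, cnt_eq_sum, cnt_eq_sum, Finset.mul_sum, ← Finset.sum_sub_distrib,
      ← Finset.sum_add_distrib]
    apply Finset.sum_le_sum
    intro y _
    by_cases hi : Injective y
    · by_cases hc : y ∈ cliques G
      · by_cases hr : c (Finset.univ.image y) = true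
        · have : y ∈ Red c R := ⟨hi, hr⟩
          simp [hi, hc, hr, this]
          norm_num
        · have : y ∉ Red c R := fun h => hr h.2
          simp [hi, hc, hr, this]
      · simp [hi, hc]
    · by_cases hc : y ∈ cliques G
      · have : y ∉ Red c R := fun h => hi h.1
        simp [hi, hc, this]
      · simp [hi, hc]
  have h5 := card_noninj (V := V) R
  linarith

open Classical in
/-- existence of a pseudorandom colouring without large monochromatic sets -/
theorem exists_colouring (R k : ℕ) {t l β : ℝ} (hl : 0 ≤ l)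
    (hmono : 2 * (Fintype.card V : ℝ) ^ k / 2 ^ (k.choose (R + 1)) ≤ 1 / 4)
    (htail : 2 * ((2:ℝ) ^ (Fintype.card V ^ R)) ^ (R + 1) *
      Real.exp (l ^ 2 * (((R : ℝ) + 1) ^ (R + 1) * (Fintype.card V : ℝ) ^ (R + 1)) / 8 - l * t) ≤ 1 / 4)
    (hβ : t + ((R : ℝ) + 1) ^ 2 * (Fintype.card V : ℝ) ^ R / 2
      ≤ β * (Fintype.card V : ℝ) ^ (R + 1)) :
    ∃ c : Finset V → Bool, Dense (Red c R) (1 / 2) β ∧ Dense (Red (fun e => !(c e)) R) (1 / 2) β ∧
      ∀ S : Finset V, S.card = k → ∀ b : Bool, ∃ T ⊆ S, T.card = R + 1 ∧ c T ≠ b := by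
  set w : (Fin (R + 1) → Set (Fin R → V)) → Finset V → ℝ := fun G e => wt G e with hw
  set W : ℝ := ((R : ℝ) + 1) ^ (R + 1) * (Fintype.card V : ℝ) ^ (R + 1) with hWdef
  set B1 : Finset (Finset V → Bool) :=
    ((Finset.univ.powersetCard k : Finset (Finset V)) ×ˢ (Finset.univ : Finset Bool)).biUnion
      (fun p => Finset.univ.filter (fun c : Finset V → Bool =>
        ∀ e ∈ p.1.powersetCard (R + 1), c e = p.2)) with hB1
  set B2 : Finset (Finset V → Bool) :=
    (Finset.univ : Finset (Fin (R + 1) → Set (Fin R → V))).biUnion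
      (fun G => Finset.univ.filter (fun c : Finset V → Bool =>
        t < ∑ e, (if c e = true then -(w G e) / 2 else w G e / 2))) with hB2
  set B3 : Finset (Finset V → Bool) :=
    (Finset.univ : Finset (Fin (R + 1) → Set (Fin R → V))).biUnion
      (fun G => Finset.univ.filter (fun c : Finset V → Bool =>
        t < ∑ e, (if c e = true then -(-(w G e)) / 2 else -(w G e) / 2))) with hB3
  have hT : (0:ℝ) < 2 ^ (Fintype.card (Finset V)) := by positivity
  have h1 : (B1.card : ℝ) ≤ 2 ^ (Fintype.card (Finset V)) * (1 / 4) := by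
    have h2 : (B1.card : ℝ) ≤ ∑ p ∈ (Finset.univ.powersetCard k : Finset (Finset V)) ×ˢ
        (Finset.univ : Finset Bool), ((Finset.univ.filter (fun c : Finset V → Bool =>
        ∀ e ∈ p.1.powersetCard (R + 1), c e = p.2)).card : ℝ) := by
      exact_mod_cast Finset.card_biUnion_le
    refine h2.trans ?_
    have h3 : ∀ p ∈ (Finset.univ.powersetCard k : Finset (Finset V)) ×ˢ (Finset.univ : Finset Bool),
        ((Finset.univ.filter (fun c : Finset V → Bool =>
        ∀ e ∈ p.1.powersetCard (R + 1), c e = p.2)).card : ℝ)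
          = 2 ^ (Fintype.card (Finset V)) / 2 ^ (k.choose (R + 1)) := by
      intro p hp
      rw [Finset.mem_product, Finset.mem_powersetCard] at hp
      rw [count_const, Finset.card_powersetCard, hp.1.2]
    rw [Finset.sum_congr rfl h3, Finset.sum_const, nsmul_eq_mul, Finset.card_product,
      Finset.card_powersetCard, Finset.card_univ, Finset.card_univ, Fintype.card_bool]
    have h4 : (((Fintype.card V).choose k * 2 : ℕ) : ℝ) ≤ 2 * (Fintype.card V : ℝ) ^ k := by
      have h5 : ((Fintype.card V).choose k : ℝ) ≤ (Fintype.card V : ℝ) ^ k := by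
        exact_mod_cast Nat.choose_le_pow (Fintype.card V) k
      push_cast
      linarith
    calc (((Fintype.card V).choose k * 2 : ℕ) : ℝ)
          * (2 ^ (Fintype.card (Finset V)) / 2 ^ (k.choose (R + 1)))
        ≤ 2 * (Fintype.card V : ℝ) ^ k
          * (2 ^ (Fintype.card (Finset V)) / 2 ^ (k.choose (R + 1))) :=
          mul_le_mul_of_nonneg_right h4 (by positivity)
      _ = 2 ^ (Fintype.card (Finset V)) *
          (2 * (Fintype.card V : ℝ) ^ k / 2 ^ (k.choose (R + 1))) := by ring
      _ ≤ _ := mul_le_mul_of_nonneg_left hmono hT.le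
  have hcardG : (Fintype.card (Fin (R + 1) → Set (Fin R → V)) : ℝ)
      = ((2:ℝ) ^ (Fintype.card V ^ R)) ^ (R + 1) := by
    rw [Fintype.card_fun, Fintype.card_set, Fintype.card_fun, Fintype.card_fin, Fintype.card_fin]
    push_cast
    rfl
  have h2 : (B2.card : ℝ) ≤ 2 ^ (Fintype.card (Finset V)) * (1 / 8) := by
    have h3 : (B2.card : ℝ) ≤ ∑ G : (Fin (R + 1) → Set (Fin R → V)),
        ((Finset.univ.filter (fun c : Finset V → Bool =>
        t < ∑ e, (if c e = true then -(w G e) / 2 else w G e / 2))).card : ℝ) := by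
      exact_mod_cast Finset.card_biUnion_le
    refine h3.trans ?_
    have h4 : ∀ G : (Fin (R + 1) → Set (Fin R → V)), ((Finset.univ.filter (fun c : Finset V → Bool =>
        t < ∑ e, (if c e = true then -(w G e) / 2 else w G e / 2))).card : ℝ)
          ≤ 2 ^ (Fintype.card (Finset V)) * Real.exp (l ^ 2 * W / 8 - l * t) :=
      fun G => tail (w G) W t l hl (sum_wt_sq_le G)
    refine (Finset.sum_le_sum (fun G _ => h4 G)).trans ?_
    rw [Finset.sum_const, nsmul_eq_mul, Finset.card_univ, hcardG]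
    have h5 : ((2:ℝ) ^ (Fintype.card V ^ R)) ^ (R + 1) * Real.exp (l ^ 2 * W / 8 - l * t) ≤ 1 / 8 := by
      linarith
    calc ((2:ℝ) ^ (Fintype.card V ^ R)) ^ (R + 1)
          * (2 ^ (Fintype.card (Finset V)) * Real.exp (l ^ 2 * W / 8 - l * t))
        = 2 ^ (Fintype.card (Finset V)) * (((2:ℝ) ^ (Fintype.card V ^ R)) ^ (R + 1)
          * Real.exp (l ^ 2 * W / 8 - l * t)) := by ring
      _ ≤ _ := mul_le_mul_of_nonneg_left h5 hT.le
  have h3 : (B3.card : ℝ) ≤ 2 ^ (Fintype.card (Finset V)) * (1 / 8) := by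
    have h3 : (B3.card : ℝ) ≤ ∑ G : (Fin (R + 1) → Set (Fin R → V)),
        ((Finset.univ.filter (fun c : Finset V → Bool =>
        t < ∑ e, (if c e = true then -(-(w G e)) / 2 else -(w G e) / 2))).card : ℝ) := by
      exact_mod_cast Finset.card_biUnion_le
    refine h3.trans ?_
    have h4 : ∀ G : (Fin (R + 1) → Set (Fin R → V)), ((Finset.univ.filter (fun c : Finset V → Bool =>
        t < ∑ e, (if c e = true then -(-(w G e)) / 2 else -(w G e) / 2))).card : ℝ)
          ≤ 2 ^ (Fintype.card (Finset V)) * Real.exp (l ^ 2 * W / 8 - l * t) :=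
      fun G => tail (fun e => -(w G e)) W t l hl (by
        simp only [neg_sq]
        exact sum_wt_sq_le G)
    refine (Finset.sum_le_sum (fun G _ => h4 G)).trans ?_
    rw [Finset.sum_const, nsmul_eq_mul, Finset.card_univ, hcardG]
    have h5 : ((2:ℝ) ^ (Fintype.card V ^ R)) ^ (R + 1) * Real.exp (l ^ 2 * W / 8 - l * t) ≤ 1 / 8 := by
      linarith
    calc ((2:ℝ) ^ (Fintype.card V ^ R)) ^ (R + 1)
          * (2 ^ (Fintype.card (Finset V)) * Real.exp (l ^ 2 * W / 8 - l * t))
        = 2 ^ (Fintype.card (Finset V)) * (((2:ℝ) ^ (Fintype.card V ^ R)) ^ (R + 1)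
          * Real.exp (l ^ 2 * W / 8 - l * t)) := by ring
      _ ≤ _ := mul_le_mul_of_nonneg_left h5 hT.le
  have h4 : ∃ c : Finset V → Bool, c ∉ B1 ∪ (B2 ∪ B3) := by
    by_contra hcon
    push Not at hcon
    have h5 : (Finset.univ : Finset (Finset V → Bool)) ⊆ B1 ∪ (B2 ∪ B3) := fun c _ => hcon c
    have h6 := Finset.card_le_card h5
    have h7 : (B1 ∪ (B2 ∪ B3)).card ≤ B1.card + (B2.card + B3.card) :=
      (Finset.card_union_le _ _).trans (Nat.add_le_add_left (Finset.card_union_le _ _) _)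
    rw [Finset.card_univ, Fintype.card_fun, Fintype.card_bool] at h6
    have h8 : ((2 ^ Fintype.card (Finset V) : ℕ) : ℝ) ≤ (B1.card : ℝ) + (B2.card + B3.card) := by
      exact_mod_cast h6.trans h7
    push_cast at h8
    linarith
  obtain ⟨c, hc⟩ := h4
  rw [Finset.mem_union, Finset.mem_union] at hc
  push Not at hc
  obtain ⟨hc1, hc2, hc3⟩ := hc
  refine ⟨c, ?_, ?_, ?_⟩
  · apply dense_of_tail (t := t) _ hβ
    intro G
    by_contra hcon
    push Not at hcon
    apply hc2
    rw [hB2, Finset.mem_biUnion]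
    exact ⟨G, Finset.mem_univ _, by rw [Finset.mem_filter]; exact ⟨Finset.mem_univ _, hcon⟩⟩
  · apply dense_of_tail (t := t) _ hβ
    intro G
    by_contra hcon
    push Not at hcon
    apply hc3
    rw [hB3, Finset.mem_biUnion]
    refine ⟨G, Finset.mem_univ _, ?_⟩
    rw [Finset.mem_filter]
    refine ⟨Finset.mem_univ _, lt_of_lt_of_le hcon (le_of_eq ?_)⟩
    apply Finset.sum_congr rfl
    intro e _
    cases hce : c e <;> simp [hw]
  · intro S hS b
    by_contra hcon
    push Not at hcon
    apply hc1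
    rw [hB1, Finset.mem_biUnion]
    refine ⟨(S, b), ?_, ?_⟩
    · rw [Finset.mem_product, Finset.mem_powersetCard]
      exact ⟨⟨Finset.subset_univ _, hS⟩, Finset.mem_univ _⟩
    · rw [Finset.mem_filter]
      refine ⟨Finset.mem_univ _, fun e he => ?_⟩
      rw [Finset.mem_powersetCard] at he
      exact hcon e he.1 he.2

end

lemma choose_lower (R k : ℕ) (hk : 2 * R ≤ k) :
    k ^ (R + 1) ≤ 2 ^ (R + 1) * (R + 1).factorial * k.choose (R + 1) := by
  have h1 := Nat.pow_le_choose (α := ℚ) (R + 1) k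
  have h2 : (((k + 1 - (R + 1)) ^ (R + 1) : ℕ) : ℚ) / ((R + 1).factorial : ℚ) ≤ k.choose (R + 1) := by
    exact_mod_cast h1
  rw [div_le_iff₀ (by positivity)] at h2
  have h3 : (k + 1 - (R + 1)) ^ (R + 1) ≤ k.choose (R + 1) * (R + 1).factorial := by
    exact_mod_cast h2
  have h4 : k ^ (R + 1) ≤ (2 * (k + 1 - (R + 1))) ^ (R + 1) := Nat.pow_le_pow_left (by omega) _
  rw [mul_pow] at h4
  calc k ^ (R + 1) ≤ 2 ^ (R + 1) * (k + 1 - (R + 1)) ^ (R + 1) := h4
    _ ≤ 2 ^ (R + 1) * (k.choose (R + 1) * (R + 1).factorial) := Nat.mul_le_mul_left _ h3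
    _ = _ := by ring

/-- the asymptotic lower bound -/
theorem lower_asymp (R : ℕ) (hR : 1 ≤ R) {δ : ℝ} (hδ0 : 0 < δ) (hδ : δ < 1 / 2) :
    ∃ a : ℝ, 0 < a ∧ ∃ K : ℕ, ∀ k : ℕ, K ≤ k → ∃ N : ℕ, (2:ℝ) ^ (a * (k:ℝ) ^ R) ≤ (N : ℝ) ∧
      ∃ c : Finset (Fin N) → Bool, Dense (Red c R) (1 / 2) ((N : ℝ) ^ (-δ)) ∧
        Dense (Red (fun e => !(c e)) R) (1 / 2) ((N : ℝ) ^ (-δ)) ∧
        ∀ S : Finset (Fin N), S.card = k → ∀ b : Bool, ∃ T ⊆ S, T.card = R + 1 ∧ c T ≠ b := by
  set D : ℕ := 4 * (2 ^ (R + 1) * (R + 1).factorial) with hD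
  have hDpos : 0 < D := by positivity
  set A : ℝ := ((R : ℝ) + 1) ^ (R + 1) with hA
  have hApos : 0 < A := by positivity
  set a : ℝ := 1 / (2 * D) with ha
  have hDR : (0:ℝ) < D := by exact_mod_cast hDpos
  have hapos : 0 < a := by positivity
  -- eventual inequalities
  have ev1 : ∀ᶠ x : ℝ in Filter.atTop, 2 * A * (R + 4) ≤ x ^ (1 - 2 * δ) :=
    (tendsto_rpow_atTop (by linarith : (0:ℝ) < 1 - 2 * δ)).eventually_ge_atTop _
  have ev2 : ∀ᶠ x : ℝ in Filter.atTop, ((R : ℝ) + 1) ^ 2 ≤ x ^ (1 - δ) :=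
    (tendsto_rpow_atTop (by linarith : (0:ℝ) < 1 - δ)).eventually_ge_atTop _
  obtain ⟨X0, hX0⟩ := Filter.eventually_atTop.mp (ev1.and ev2)
  have htend : Filter.Tendsto (fun k : ℕ => (2:ℝ) ^ (a * (k:ℝ) ^ R)) Filter.atTop Filter.atTop := by
    have h1 : Filter.Tendsto (fun k : ℕ => (a * (k:ℝ) ^ R)) Filter.atTop Filter.atTop := by
      apply Filter.Tendsto.const_mul_atTop hapos
      exact (Filter.tendsto_pow_atTop (by omega)).comp tendsto_natCast_atTop_atTop
    exact (tendsto_rpow_atTop_of_base_gt_one (2:ℝ) (by norm_num)).comp h1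
  obtain ⟨K1, hK1⟩ := Filter.eventually_atTop.mp (htend.eventually_ge_atTop X0)
  refine ⟨a, hapos, max K1 (max (2 * D) (2 * R + 1)), fun k hk => ?_⟩
  have hkK1 : K1 ≤ k := (le_max_left _ _).trans hk
  have hkD : 2 * D ≤ k := ((le_max_left _ _).trans (le_max_right _ _)).trans hk
  have hkR : 2 * R + 1 ≤ k := ((le_max_right _ _).trans (le_max_right _ _)).trans hk
  set m : ℕ := k ^ R / D with hm
  have hmD : D * m ≤ k ^ R := Nat.mul_div_le _ _
  have hkpow : k ≤ k ^ R := Nat.le_self_pow (by omega) k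
  have hmlow : a * (k:ℝ) ^ R ≤ m := by
    have h1 : k ^ R < D * (m + 1) := by
      rw [hm]
      exact Nat.lt_mul_div_succ _ hDpos
    have h2 : (k:ℝ) ^ R < D * (m + 1) := by exact_mod_cast h1
    have h3 : (2:ℝ) * D ≤ (k:ℝ) ^ R := by exact_mod_cast hkD.trans hkpow
    rw [ha, div_mul_eq_mul_div, one_mul, div_le_iff₀ (by positivity)]
    nlinarith
  have hNlow : (2:ℝ) ^ (a * (k:ℝ) ^ R) ≤ ((2 ^ m : ℕ) : ℝ) := by
    push_cast
    have h1 : (2:ℝ) ^ m = (2:ℝ) ^ (m : ℝ) := (Real.rpow_natCast 2 m).symm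
    rw [h1]
    exact Real.rpow_le_rpow_of_exponent_le (by norm_num) hmlow
  refine ⟨2 ^ m, hNlow, ?_⟩
  set N : ℝ := ((2 ^ m : ℕ) : ℝ) with hN
  have hNpos : 0 < N := by rw [hN]; positivity
  have hN1 : 1 ≤ N := by
    rw [hN]
    exact_mod_cast Nat.one_le_two_pow
  obtain ⟨hx1, hx2⟩ := hX0 N ((hK1 k hkK1).trans hNlow)
  have hNR : (1:ℝ) ≤ N ^ R := one_le_pow₀ hN1
  set t : ℝ := N ^ ((R : ℝ) + 1 - δ) / 2 with ht
  set W : ℝ := A * N ^ (R + 1) with hW
  have hWpos : 0 < W := by positivity
  have htpos : 0 < t := by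
    rw [ht]
    have := Real.rpow_pos_of_pos hNpos ((R : ℝ) + 1 - δ)
    positivity
  have e1 : N ^ ((R : ℝ) + 1 - δ) = N ^ (-δ) * N ^ (R + 1) := by
    rw [← Real.rpow_natCast, ← Real.rpow_add hNpos]
    congr 1
    push_cast
    ring
  have e2 : N ^ ((R : ℝ) + 1 - δ) = N ^ (1 - δ) * N ^ R := by
    rw [← Real.rpow_natCast, ← Real.rpow_add hNpos]
    congr 1
    ring
  have e3 : t ^ 2 * 4 = N ^ (1 - 2 * δ) * N ^ R * N ^ (R + 1) := by
    rw [ht, div_pow, ← Real.rpow_natCast N R, ← Real.rpow_natCast N (R + 1), ← Real.rpow_add hNpos,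
      ← Real.rpow_add hNpos, ← Real.rpow_natCast (N ^ ((R : ℝ) + 1 - δ)) 2, ← Real.rpow_mul hNpos.le]
    push_cast
    have : ((R : ℝ) + 1 - δ) * 2 = 1 - 2 * δ + R + (R + 1) := by ring
    rw [this]
    ring
  have hcard : (Fintype.card (Fin (2 ^ m)) : ℝ) = N := by rw [Fintype.card_fin]
  have hcardN : Fintype.card (Fin (2 ^ m)) = 2 ^ m := Fintype.card_fin _
  have hex := exists_colouring (V := Fin (2 ^ m)) R k (t := t) (l := 4 * t / W) (β := N ^ (-δ))
    (by positivity) (by
      rw [hcard, hN]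
      have h1 : m * k + 3 ≤ k.choose (R + 1) := by
        have h2 := choose_lower R k (by omega)
        have h3 : D * (m * k) ≤ k ^ (R + 1) := by
          calc D * (m * k) = (D * m) * k := by ring
            _ ≤ k ^ R * k := Nat.mul_le_mul_right _ hmD
            _ = k ^ (R + 1) := by ring
        have h4 : D ≤ k ^ (R + 1) := by
          calc D ≤ k := by omega
            _ ≤ k ^ (R + 1) := Nat.le_self_pow (by omega) k
        have h5 : D * (m * k + 3) ≤ D * k.choose (R + 1) := by
          calc D * (m * k + 3) = D * (m * k) + 3 * D := by ring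
            _ ≤ 4 * k ^ (R + 1) := by omega
            _ ≤ 4 * (2 ^ (R + 1) * (R + 1).factorial * k.choose (R + 1)) := Nat.mul_le_mul_left _ h2
            _ = D * k.choose (R + 1) := by rw [hD]; ring
        exact Nat.le_of_mul_le_mul_left h5 hDpos
      have h6 : (2:ℝ) ^ (m * k + 3) ≤ 2 ^ (k.choose (R + 1)) := pow_le_pow_right₀ (by norm_num) h1
      rw [div_le_iff₀ (by positivity)]
      push_cast
      rw [← pow_mul]
      rw [pow_add] at h6
      have h7 : (0:ℝ) < 2 ^ (m * k) := by positivity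
      linarith) (by
      rw [hcard]
      have h1 : (4 * t / W) ^ 2 * (((R : ℝ) + 1) ^ (R + 1) * N ^ (R + 1)) / 8 - 4 * t / W * t
          = - (N ^ (1 - 2 * δ) * N ^ R / (2 * A)) := by
        have h2 : (((R : ℝ) + 1) ^ (R + 1) * N ^ (R + 1)) = W := by rw [hW, hA]
        rw [h2]
        have h3 : (4 * t / W) ^ 2 * W / 8 - 4 * t / W * t = - (t ^ 2 * 4 / (2 * W)) := by
          field_simp
          ring
        rw [h3, e3, hW]
        field_simp
      rw [h1]
      have h2 : ((R:ℝ) + 4) * N ^ R ≤ N ^ (1 - 2 * δ) * N ^ R / (2 * A) := by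
        rw [le_div_iff₀ (by positivity)]
        nlinarith [mul_le_mul_of_nonneg_right hx1 (by positivity : (0:ℝ) ≤ N ^ R)]
      have h3 : ((2:ℝ) ^ (Fintype.card (Fin (2 ^ m)) ^ R)) ^ (R + 1)
          ≤ Real.exp (((R:ℝ) + 1) * N ^ R) := by
        rw [← pow_mul, hcardN]
        have h4 : (2:ℝ) ≤ Real.exp 1 := by
          have := Real.add_one_le_exp (1:ℝ)
          linarith
        calc (2:ℝ) ^ ((2 ^ m) ^ R * (R + 1)) ≤ (Real.exp 1) ^ ((2 ^ m) ^ R * (R + 1)) :=
              pow_le_pow_left₀ (by norm_num) h4 _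
          _ = Real.exp (((R:ℝ) + 1) * N ^ R) := by
              rw [← Real.exp_nat_mul]
              congr 1
              rw [hN]
              push_cast
              ring
      have h5 : (8:ℝ) ≤ Real.exp 3 := by
        have h6 : (2:ℝ) ≤ Real.exp 1 := by
          have := Real.add_one_le_exp (1:ℝ)
          linarith
        have h7 : Real.exp 3 = (Real.exp 1) ^ 3 := by
          rw [← Real.exp_nat_mul]
          norm_num
        rw [h7]
        calc (8:ℝ) = 2 ^ 3 := by norm_num
          _ ≤ _ := pow_le_pow_left₀ (by norm_num) h6 3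
      calc 2 * ((2:ℝ) ^ (Fintype.card (Fin (2 ^ m)) ^ R)) ^ (R + 1)
            * Real.exp (-(N ^ (1 - 2 * δ) * N ^ R / (2 * A)))
          ≤ 2 * Real.exp (((R:ℝ) + 1) * N ^ R) * Real.exp (-(((R:ℝ) + 4) * N ^ R)) := by
            apply mul_le_mul _ _ (Real.exp_pos _).le (by positivity)
            · linarith
            · apply Real.exp_le_exp.mpr
              linarith
        _ = 2 * Real.exp (-(3 * N ^ R)) := by
            rw [mul_assoc, ← Real.exp_add]
            congr 2
            ring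
        _ ≤ 2 * Real.exp (-3) := by
            apply mul_le_mul_of_nonneg_left _ (by norm_num)
            apply Real.exp_le_exp.mpr
            linarith
        _ ≤ 1 / 4 := by
            rw [Real.exp_neg]
            have : (Real.exp 3)⁻¹ ≤ (8:ℝ)⁻¹ := inv_anti₀ (by norm_num) h5
            linarith) (by
      rw [hcard, ht]
      have h1 : ((R : ℝ) + 1) ^ 2 * N ^ R ≤ N ^ ((R : ℝ) + 1 - δ) := by
        rw [e2]
        exact mul_le_mul_of_nonneg_right hx2 (by positivity)
      rw [← e1]
      linarith)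
  exact hex

end Pool.Agent.W87.HR
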