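import Mathlib

/-!
# A `5`-graph on `180` vertices with codegree `≥ 180/5` and no vertex-spanning tight component

The vertex set `Fin 180` is split into nine parts of size `20` (residues mod `9`).  The `4`-subsets
of the vertex set are coloured by nine colours (the names of the parts), the colour of a `4`-set
depending only on the multiset of the parts of its elements (its type) and never being one of these
parts.  The table of colours was found by computer search.  The edges are the `5`-sets all of
whose `4`-subsets have the same colour `a`, where `a` is not the part of an element of the set.
Two edges sharing four vertices have the same colour, so a tight component of colour `a` misses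
the whole part `a`.  The table is such that for every type there are two parts all of whose
(other) vertices extend a `4`-set of this type to an edge, so that all codegrees are at least
`2 * 20 - 4 = 36 = 180 / 5`.
-/

set_option autoImplicit false

namespace Pool.Agent.W87.Tight

open Finset

/-- The weight of a part; all sums of four weights are distinct up to order. -/
def w : ℕ → ℕ
  | 0 => 0
  | 1 => 1
  | 2 => 5
  | 3 => 21
  | 4 => 55
  | 5 => 153
  | 6 => 368
  | 7 => 856
  | _ => 1424

/-- The table of colours: the colour of the type with sum of weights `c` is the `c`-th hexadecimal
digit. -/
def table : ℕ :=
  0x70000000000000000000000000000000000000000000000000000000000000000000000000000000000000000000000000000000000000000000000000000000000000000000000000000000000000000000000000000000000000000000000000000000000000000000000000000000000000000000000000000000000000000000000000000000000000000000000000000000000000000000000000000000000000000000000000000000000000000000000000000000000000000000000000000000000000000000000000000000000000000000000000000000000000000000000000000000000000000000000000000000000000000000000000000000000000000000000000000000000000000000000000000000000000003000000000000000000000000000000000000000000000000000000000000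000000000000000000000000000000000000000000000000000000000000000000000000000000000000000000000000000000000000000000000000000000000000000000000000000000000000000000000000000000000000000000000000000000000000000000000000000000000000000000000000000000000000000000000000000000000000000000000000000000000000000000000000000000000000000000000000000000000000000000000000000000000000000000000000000000000000000000000000000000000000000000030000000000000000000000000000000000000000000000000000000000000000000000000000000000000000000000000000000000000000000000000000000000000000000000000000000000000000000000000000000000000000000000000000000000000000000000700000000000000000000000000000000000000000000000000000000000000000000000000000000000000000000000007000000000000000000000000000000000700000000000000070007300000000000000000000000000000000000000000000000000000000000000000000000000000000000000000000000000000000000000000000000000000000000000000000000000000000000000000000000000000000000000000000000000000003000000000000000000000000000000000000000000000000000000000000000000000000000000000000000000000000000000000000000000000000000000000000000000000000000000000000000000000000000000000000000000000000000000000000000000000020000000000000000000000000000000000000000000000000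000000000000000000000000000000000000000000000000200000000000000000000000000000000000000000000000000000030000000000000000000000000000000000000000000000000000000000000000000000000000000000000000000000000000000000000000000000030000000000000000000000000000000000000000000000000000000000000000000000000000000300000000000000000000000000000000000000000000000000000000000000000000000000000003000000000000000000000000000000000000000000000000000000700000000000000000000000000000000000000000000000000000000000000000000000000000003000000000000000007000000000000000000000000000000000700000000000000030007700000000000000000000000030000000000000000000000000000000000002000000000000300003000000000000000000000000000000000000000000000000000000000000000000000000000000020000000000000000000000000000000007000003000000000700077000000000000000000000000000000000000000000200000000000000000000000000000000070000000000000007000770000000000000000000000000000000007000000000030000700773000000000000000000000000000000000000000000000030000000000000000000000000000000000000000000000000000000000000000000000000000000800000000000000000300000000000000000000000000000000040000000000000003000440000000000000000000000008000000000000000000000000000000000000200000000000000000300000000000000000000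000000000000000000070000000000000000000000000000000000000002000000000000000000000000000000000200000300000000030002200000000000000000000000000000000000000000020000000000000000000000000000000002000000000000000300022000000000000400000000700000000000400000000003000030044300000000000000000000000000000000000000000000003000000000000000007000000000000000000000000000000000700000000000000030007700000000000000000000000030000000000000000000000000000000000003000000000000300003000000000000000000000000000000000000000000000000000000000000080000000000000000030000000000000000000000000000000007000000000000000300077000000000000000000000000800000000000000000300000000000000080020000000000003070880000000000003000770000000000004000000000008000400044000000000030004400447000800300000000000030008800000000000080020000020000000003080220000000000003008830000000000000000000000002000000000000000000000000000000000200000200000000030002200000000000000000000000000000000070000030030000007007770000000000000000000002000000000000000300022000200000000000000000000000000000700000000000000070077700000004000040000000000000004004470000030000302447074730000000000000000000000000200000000000000030002200000000000000000000000000000000000000000020000000000000000008000000000000002000000000000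0003000220000000000004000000007000000000004000000000030000300443000000800000000000000000000000000000000020000000000000008000220070000000000000000000000000000000000000008000000000700077000000000000000000200000000000000080002200000000000080000000020000008000880000000080800088008820000000000000000000002000000000000000800022000000000000800000000200000080008800000000008080880088270000008000840007000770000008008880000000000300888084830000000002000000000000000000200000000000000700000000000000070007700000000000000000000000000000000070000000000300007007730000003000000000000000000000000000000000200000000000000030002200000000000000000000000000000000000000000020000000000000000008000000000000002000000000000000300022000000000000000000000000000000000700000000300000070077700000080000000000000020000000000000003002220000000000000800022000000000000007000000000000000700777000000840000400000000000000040044700000380003004470747303000880000000000008000000000000000800088000000008080008800882000000000000000000000200000000000000080002200000000000080000000000000008000880000000020800088008820000000800008000000008000000800887000300082080088707772800000000000000080008800000000008000880088200000008000080000000000008008008870000080800888887077720080008400888000000000880088808488800003008880848887788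

/-- The colour of a type, given by its sum of weights. -/
def col (c : ℕ) : ℕ := (table >>> (4 * c)) % 16

/-- The part of a vertex. -/
def part (v : Fin 180) : ℕ := v.val % 9

/-- The code of a set of vertices: the sum of the weights of the parts of its elements. -/
def code (S : Finset (Fin 180)) : ℕ := ∑ v ∈ S, w (part v)

/-- The type `p, q, r, s, P` is monochromatic, its colour not being one of its parts. -/
def mono (p q r s P : ℕ) : Bool :=
  decide (col (w P + w q + w r + w s) = col (w p + w q + w r + w s)) &&
  (decide (col (w P + w p + w r + w s) = col (w p + w q + w r + w s)) &&
  (decide (col (w P + w p + w q + w s) = col (w p + w q + w r + w s)) &&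
  (decide (col (w P + w p + w q + w r) = col (w p + w q + w r + w s)) &&
  (decide (p ≠ col (w p + w q + w r + w s)) &&
  (decide (q ≠ col (w p + w q + w r + w s)) &&
  (decide (r ≠ col (w p + w q + w r + w s)) &&
  (decide (s ≠ col (w p + w q + w r + w s)) &&
  (decide (P ≠ col (w p + w q + w r + w s)) &&
  decide (col (w p + w q + w r + w s) < 9)))))))))

/-- Two different parts extend the type `p, q, r, s` to a monochromatic type. -/
def good4 (p q r s : ℕ) : Bool :=
  (List.range 9).any fun P => mono p q r s P && (List.range P).any fun Q => mono p q r s Q

set_option maxRecDepth 100000 in
theorem check : ((List.range 9).all fun p => (List.range 9).all fun q =>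
    (List.range 9).all fun r => (List.range 9).all fun s => good4 p q r s) = true := by
  decide +kernel

theorem part_lt (v : Fin 180) : part v < 9 := Nat.mod_lt _ (by norm_num)

theorem mono_spec {p q r s P : ℕ} (h : mono p q r s P = true) :
    (col (w P + w q + w r + w s) = col (w p + w q + w r + w s) ∧
      col (w P + w p + w r + w s) = col (w p + w q + w r + w s) ∧
      col (w P + w p + w q + w s) = col (w p + w q + w r + w s) ∧
      col (w P + w p + w q + w r) = col (w p + w q + w r + w s)) ∧
      p ≠ col (w p + w q + w r + w s) ∧ q ≠ col (w p + w q + w r + w s) ∧
      r ≠ col (w p + w q + w r + w s) ∧ s ≠ col (w p + w q + w r + w s) ∧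
      P ≠ col (w p + w q + w r + w s) ∧ col (w p + w q + w r + w s) < 9 := by
  simp only [mono, Bool.and_eq_true, decide_eq_true_eq] at h
  tauto

theorem good4_spec {p q r s : ℕ} (hp : p < 9) (hq : q < 9) (hr : r < 9) (hs : s < 9) :
    ∃ P < 9, ∃ Q < P, mono p q r s P = true ∧ mono p q r s Q = true := by
  have h := check
  rw [List.all_eq_true] at h
  have h1 := h p (List.mem_range.2 hp)
  rw [List.all_eq_true] at h1
  have h2 := h1 q (List.mem_range.2 hq)
  rw [List.all_eq_true] at h2
  have h3 := h2 r (List.mem_range.2 hr)
  rw [List.all_eq_true] at h3
  have h4 := h3 s (List.mem_range.2 hs)
  rw [good4, List.any_eq_true] at h4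
  obtain ⟨P, hP, h5⟩ := h4
  rw [Bool.and_eq_true, List.any_eq_true] at h5
  obtain ⟨h5, Q, hQ, h6⟩ := h5
  exact ⟨P, List.mem_range.1 hP, Q, List.mem_range.1 hQ, h5, h6⟩

/-- The set of edges of the counterexample. -/
noncomputable def H : Finset (Finset (Fin 180)) := by
  classical
  exact (univ.powersetCard 5).filter fun e =>
    ∃ a : ℕ, a < 9 ∧ ∀ v ∈ e, col (code (e.erase v)) = a ∧ part v ≠ a

theorem mem_H {e : Finset (Fin 180)} :
    e ∈ H ↔ e.card = 5 ∧ ∃ a : ℕ, a < 9 ∧ ∀ v ∈ e, col (code (e.erase v)) = a ∧ part v ≠ a := by
  classical
  simp [H, mem_powersetCard]

/-- Adding a vertex of a good part to a four-set gives an edge. -/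
theorem insert_mem {x y z t u : Fin 180} (hxy : x ≠ y) (hxz : x ≠ z) (hxt : x ≠ t) (hyz : y ≠ z)
    (hyt : y ≠ t) (hzt : z ≠ t) (hu : u ∉ ({x, y, z, t} : Finset (Fin 180)))
    (h : mono (part x) (part y) (part z) (part t) (part u) = true) :
    insert u {x, y, z, t} ∈ H := by
  classical
  simp only [mem_insert, mem_singleton, not_or] at hu
  obtain ⟨hux, huy, huz, hut⟩ := hu
  obtain ⟨⟨h1, h2, h3, h4⟩, h5, h6, h7, h8, h9, h10⟩ := mono_spec h
  rw [mem_H]
  refine ⟨?_, col (w (part x) + w (part y) + w (part z) + w (part t)), h10, ?_⟩
  · rw [card_insert_of_notMem (by simp [hux, huy, huz, hut]),
      card_insert_of_notMem (by simp [hxy, hxz, hxt]),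
      card_insert_of_notMem (by simp [hyz, hyt]),
      card_insert_of_notMem (by simp [hzt]), card_singleton]
  · intro v hv
    simp only [mem_insert, mem_singleton] at hv
    rcases hv with rfl | rfl | rfl | rfl | rfl
    · refine ⟨?_, h9⟩
      rw [erase_insert (by simp [hux, huy, huz, hut])]
      rw [code, sum_insert (by simp [hxy, hxz, hxt]), sum_insert (by simp [hyz, hyt]),
        sum_insert (by simp [hzt]), sum_singleton]
      congr 1; ring
    · refine ⟨?_, h5⟩
      have : (insert u ({v, y, z, t} : Finset (Fin 180))).erase v = {u, y, z, t} := by
        ext a; simp only [mem_erase, mem_insert, mem_singleton]
        constructor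
        · rintro ⟨h, h' | h' | h' | h' | h'⟩ <;> simp_all
        · rintro (h' | h' | h' | h') <;> subst h' <;> simp_all <;> tauto
      rw [this, code, sum_insert (by simp [huy, huz, hut]), sum_insert (by simp [hyz, hyt]),
        sum_insert (by simp [hzt]), sum_singleton, ← h1]
      congr 1; ring
    · refine ⟨?_, h6⟩
      have : (insert u ({x, v, z, t} : Finset (Fin 180))).erase v = {u, x, z, t} := by
        ext a; simp only [mem_erase, mem_insert, mem_singleton]
        constructor
        · rintro ⟨h, h' | h' | h' | h' | h'⟩ <;> simp_all
        · rintro (h' | h' | h' | h') <;> subst h' <;> simp_all <;> tauto
      rw [this, code, sum_insert (by simp [hux, huz, hut]), sum_insert (by simp [hxz, hxt]),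
        sum_insert (by simp [hzt]), sum_singleton, ← h2]
      congr 1; ring
    · refine ⟨?_, h7⟩
      have : (insert u ({x, y, v, t} : Finset (Fin 180))).erase v = {u, x, y, t} := by
        ext a; simp only [mem_erase, mem_insert, mem_singleton]
        constructor
        · rintro ⟨h, h' | h' | h' | h' | h'⟩ <;> simp_all
        · rintro (h' | h' | h' | h') <;> subst h' <;> simp_all <;> tauto
      rw [this, code, sum_insert (by simp [hux, huy, hut]), sum_insert (by simp [hxy, hxt]),
        sum_insert (by simp [hyt]), sum_singleton, ← h3]
      congr 1; ring
    · refine ⟨?_, h8⟩
      have : (insert u ({x, y, z, v} : Finset (Fin 180))).erase v = {u, x, y, z} := by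
        ext a; simp only [mem_erase, mem_insert, mem_singleton]
        constructor
        · rintro ⟨h, h' | h' | h' | h' | h'⟩ <;> simp_all
        · rintro (h' | h' | h' | h') <;> subst h' <;> simp_all <;> tauto
      rw [this, code, sum_insert (by simp [hux, huy, huz]), sum_insert (by simp [hxy, hxz]),
        sum_insert (by simp [hyz]), sum_singleton, ← h4]
      congr 1; ring

set_option maxRecDepth 100000 in
theorem card_parts : ∀ P < 9, ∀ Q < P,
    (univ.filter fun u : Fin 180 => part u = P ∨ part u = Q).card = 40 := by
  decide +kernel

/-- All codegrees are at least `36`. -/
theorem codeg (S : Finset (Fin 180)) (hS : S.card = 4) :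
    36 ≤ (H.filter fun e => S ⊆ e).card := by
  classical
  obtain ⟨x, y, z, t, hxy, hxz, hxt, hyz, hyt, hzt, rfl⟩ := card_eq_four.1 hS
  obtain ⟨P, hP, Q, hQ, h1, h2⟩ := good4_spec (part_lt x) (part_lt y) (part_lt z) (part_lt t)
  have hcard := card_parts P hP Q hQ
  set U := univ.filter fun u : Fin 180 => part u = P ∨ part u = Q with hU
  have h3 : 36 ≤ (U \ {x, y, z, t}).card := by
    have := le_card_sdiff ({x, y, z, t} : Finset (Fin 180)) U
    omega
  refine h3.trans ?_
  refine card_le_card_of_injOn (fun u => insert u {x, y, z, t}) ?_ ?_
  · intro u hu
    rw [mem_coe, mem_sdiff, hU, mem_filter] at hu
    obtain ⟨⟨_, hu1⟩, hu2⟩ := hu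
    rw [mem_coe, mem_filter]
    refine ⟨?_, subset_insert _ _⟩
    apply insert_mem hxy hxz hxt hyz hyt hzt hu2
    rcases hu1 with hu1 | hu1 <;> rw [hu1] <;> assumption
  · intro u hu v hv huv
    rw [mem_coe, mem_sdiff] at hu hv
    have : u ∈ insert v ({x, y, z, t} : Finset (Fin 180)) := by
      have h := mem_insert_self u ({x, y, z, t} : Finset (Fin 180))
      rw [show insert u ({x, y, z, t} : Finset (Fin 180)) = insert v {x, y, z, t} from huv] at h
      exact h
    rcases mem_insert.1 this with h | h
    · exact h
    · exact absurd h hu.2

/-- Two edges with four common vertices have the same colour. -/
theorem color_eq {e f : Finset (Fin 180)} (he : e ∈ H) (hf : f ∈ H) (h : 4 ≤ (e ∩ f).card)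
    {a : ℕ} (ha : ∀ v ∈ e, col (code (e.erase v)) = a ∧ part v ≠ a) :
    ∀ v ∈ f, col (code (f.erase v)) = a ∧ part v ≠ a := by
  classical
  by_cases hef : e = f
  · subst hef; exact ha
  obtain ⟨he5, -⟩ := mem_H.1 he
  obtain ⟨hf5, b, hb9, hb⟩ := mem_H.1 hf
  have h1 : (e ∩ f).card ≠ 5 := by
    intro h5
    have h6 : e ∩ f = e := eq_of_subset_of_card_le inter_subset_left (by omega)
    have h7 : e ∩ f = f := eq_of_subset_of_card_le inter_subset_right (by omega)
    exact hef (h6.symm.trans h7)
  have h2 : (e ∩ f).card = 4 := by
    have := card_le_card (inter_subset_left : e ∩ f ⊆ e)
    omega
  have h3 : (e \ f).card = 1 := by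
    have := card_sdiff_add_card_inter e f
    omega
  have h4 : (f \ e).card = 1 := by
    have := card_sdiff_add_card_inter f e
    rw [inter_comm] at this
    omega
  obtain ⟨x, hx⟩ := card_eq_one.1 h3
  obtain ⟨y, hy⟩ := card_eq_one.1 h4
  have hxe : x ∈ e := by
    have : x ∈ e \ f := by rw [hx]; exact mem_singleton_self x
    exact (mem_sdiff.1 this).1
  have hyf : y ∈ f := by
    have : y ∈ f \ e := by rw [hy]; exact mem_singleton_self y
    exact (mem_sdiff.1 this).1
  have h5 : e.erase x = e ∩ f := by
    rw [← sdiff_singleton_eq_erase, ← hx, sdiff_sdiff_right_self, inf_eq_inter]
  have h6 : f.erase y = e ∩ f := by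
    rw [← sdiff_singleton_eq_erase, ← hy, sdiff_sdiff_right_self, inf_eq_inter, inter_comm]
  have h7 : a = b := by
    rw [← (ha x hxe).1, ← (hb y hyf).1, h5, h6]
  subst h7
  exact hb

/-- `H` has no vertex-spanning tight component. -/
theorem not_spanning :
    ¬ ∃ e ∈ H, ∀ v : Fin 180, ∃ f ∈ H,
      Relation.ReflTransGen
        (fun a b : Finset (Fin 180) => a ∈ H ∧ b ∈ H ∧ 5 - 1 ≤ (a ∩ b).card) e f ∧ v ∈ f := by
  rintro ⟨e, he, h⟩
  obtain ⟨_, a, ha9, ha⟩ := mem_H.1 he
  obtain ⟨f, hf, hef, hv⟩ := h ⟨a, by omega⟩
  have key : ∀ v ∈ f, col (code (f.erase v)) = a ∧ part v ≠ a := by
    clear hv hf
    induction hef with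
    | refl => exact ha
    | tail _ hbc ih => exact color_eq hbc.1 hbc.2.1 hbc.2.2 ih
  exact (key _ hv).2 (Nat.mod_eq_of_lt ha9)

end Pool.Agent.W87.Tight
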