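import Pool.Agent.H111R2.Cert

/-!
Ramsey-type bound for colourings in which one colour is locally dense (in particular for
pseudorandom colourings).
-/

open Finset Filter

namespace Pool.Agent.W87.Restr

open Pool.Agent.H111R2

/-- `∑_{v ∈ W} |N(v) ∩ W|`: twice the number of edges of `G` inside `W`. -/
noncomputable def degSum {V : Type} (G : SimpleGraph V) (W : Finset V) : ℝ := by
  classical exact ∑ v ∈ W, ((W.filter (fun u => G.Adj v u)).card : ℝ)

/-- Every set `W` of at least `m` vertices spans at least `d |W|² / 2` edges of `G`. -/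
def DenseAbove {V : Type} (G : SimpleGraph V) (d m : ℝ) : Prop :=
  ∀ W : Finset V, m ≤ (W.card : ℝ) → d * (W.card : ℝ) ^ 2 ≤ degSum G W

/-- The number of pairs `(x, y) ∈ X × Y` with `x y` an edge. -/
noncomputable def edgePairs {V : Type} (G : SimpleGraph V) (X Y : Finset V) : ℝ := by
  classical exact ∑ x ∈ X, ((Y.filter (fun y => G.Adj x y)).card : ℝ)

/-- `(p, β)`-bijumbled graphs. -/
def Bijumbled {V : Type} (G : SimpleGraph V) (p β : ℝ) : Prop :=
  ∀ X Y : Finset V, |edgePairs G X Y - p * (X.card : ℝ) * (Y.card : ℝ)| ≤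
    β * Real.sqrt ((X.card : ℝ) * (Y.card : ℝ))

lemma Bijumbled.denseAbove {V : Type} {G : SimpleGraph V} {p β ε : ℝ} (hε : 0 < ε)
    (h : Bijumbled G p β) : DenseAbove G (p - ε) (β / ε) := by
  intro W hW
  have h1 := h W W
  have h2 : Real.sqrt ((W.card : ℝ) * (W.card : ℝ)) = W.card := by
    rw [← sq]
    exact Real.sqrt_sq (by positivity)
  rw [h2] at h1
  have h3 := (abs_le.mp h1).1
  have h4 : β ≤ ε * W.card := by
    rw [div_le_iff₀ hε] at hW
    linarith
  have h5 : edgePairs G W W = degSum G W := rfl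
  rw [h5] at h3
  have h6 : β * (W.card : ℝ) ≤ ε * W.card * W.card :=
    mul_le_mul_of_nonneg_right h4 (by positivity)
  nlinarith

/-- one greedy step -/
lemma exists_large_nb {V : Type} [DecidableEq V] {G : SimpleGraph V} {d m : ℝ} (h : DenseAbove G d m)
    {W : Finset V} (hW : m ≤ (W.card : ℝ)) (hne : W.Nonempty) :
    ∃ v ∈ W, d * (W.card : ℝ) ≤ ((nb G v W).card : ℝ) := by
  classical
  by_contra hcon
  push Not at hcon
  have h1 := h W hW
  have h2 : degSum G W = ∑ v ∈ W, ((nb G v W).card : ℝ) := by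
    unfold degSum nb
    apply Finset.sum_congr rfl
    intro v _
    congr!
  rw [h2] at h1
  have h3 : ∑ v ∈ W, ((nb G v W).card : ℝ) < ∑ v ∈ W, d * (W.card : ℝ) :=
    Finset.sum_lt_sum_of_nonempty hne hcon
  rw [Finset.sum_const, nsmul_eq_mul] at h3
  nlinarith

/-- the greedy phase -/
lemma greedy {V : Type} [DecidableEq V] {G : SimpleGraph V} {d m : ℝ} (hd : 0 < d) (hm : 0 < m)
    (h : DenseAbove G d m) {S : Finset V} {k l : ℕ} (hk : KFree G S k) (hl : KFree Gᶜ S l) :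
    ∀ t : ℕ, (∀ i < t, m ≤ d ^ i * (S.card : ℝ)) →
      ∃ W ⊆ S, t ≤ k ∧ d ^ t * (S.card : ℝ) ≤ (W.card : ℝ) ∧ KFree G W (k - t) ∧ KFree Gᶜ W l := by
  intro t
  induction t with
  | zero =>
    intro _
    exact ⟨S, Finset.Subset.refl _, Nat.zero_le _, by simp, by simpa using hk, hl⟩
  | succ t ih =>
    intro hsize
    obtain ⟨W, hWS, htk, hcard, hWk, hWl⟩ := ih (fun i hi => hsize i (Nat.lt_succ_of_lt hi))
    have h1 : m ≤ (W.card : ℝ) := (hsize t (Nat.lt_succ_self t)).trans hcard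
    have hne : W.Nonempty := by
      rw [← Finset.card_pos]
      have : (0:ℝ) < W.card := hm.trans_le h1
      exact_mod_cast this
    obtain ⟨v, hv, hdeg⟩ := exists_large_nb h h1 hne
    have hkt : k - t ≠ 0 := by
      intro h0
      rw [h0] at hWk
      exact hWk.zero
    obtain ⟨j, hj⟩ : ∃ j, k - t = j + 1 := ⟨k - t - 1, by omega⟩
    refine ⟨nb G v W, (nb_subset G v W).trans hWS, by omega, ?_, ?_, hWl.mono (nb_subset G v W)⟩
    · calc d ^ (t + 1) * (S.card : ℝ) = d * (d ^ t * S.card) := by ring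
        _ ≤ d * (W.card : ℝ) := mul_le_mul_of_nonneg_left hcard hd.le
        _ ≤ _ := hdeg
    · have h2 : k - (t + 1) = j := by omega
      rw [h2]
      rw [hj] at hWk
      exact hWk.step hv (nb_subset G v W) (fun y hy => (mem_nb.mp hy).2)

/-- the exponent of the bound for colourings which are `d`-dense above the scale `n ^ θ`, obtained
from the off-diagonal bound `R(l, k) ≤ C exp (X k + Y l)` -/
noncomputable def rate (X Y θ d : ℝ) : ℝ :=
  (X + Y) / (θ + (1 - θ) * (Y / Real.log (1 / d)))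

lemma rate_den_pos {Y θ d : ℝ} (hY : 0 < Y) (hθ0 : 0 ≤ θ) (hθ1 : θ ≤ 1) (hd0 : 0 < d)
    (hd1 : d < 1) : 0 < θ + (1 - θ) * (Y / Real.log (1 / d)) := by
  have hL : 0 < Real.log (1 / d) := Real.log_pos (by rw [lt_div_iff₀ hd0]; linarith)
  have h1 : 0 < Y / Real.log (1 / d) := div_pos hY hL
  rcases hθ0.eq_or_lt with h | h
  · rw [← h]
    simpa using h1
  · have : 0 ≤ (1 - θ) * (Y / Real.log (1 / d)) := mul_nonneg (by linarith) h1.le
    linarith

/-- the main inequality -/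
lemma key {f : ℕ × ℕ} {C : ℝ} (hC : 0 < C) {cl : List (ℕ × ℕ)} (hf : f ∈ cl)
    (hcl : ∀ k l : ℕ, Claims cl C k l)
    {θ d : ℝ} (hθ0 : 0 ≤ θ) (hθ1 : θ ≤ 1) (hd0 : 0 < d) (hd1 : d < 1)
    {V : Type} [DecidableEq V] {G : SimpleGraph V} {S : Finset V} (hS : 1 ≤ S.card)
    (h : DenseAbove G d ((S.card : ℝ) ^ θ)) {k : ℕ} (hk : KFree G S k) (hl : KFree Gᶜ S k) :
    Real.log S.card * (θ + (1 - θ) * (((f.2 : ℝ) / D) / Real.log (1 / d))) ≤
      Real.log C + |(f.2 : ℝ) / D - Real.log (1 / d)| + ((f.1 : ℝ) / D + (f.2 : ℝ) / D) * k := by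
  have hL : 0 < Real.log (1 / d) := Real.log_pos (by rw [lt_div_iff₀ hd0]; linarith)
  have hLd : Real.log (1 / d) = - Real.log d := by rw [one_div, Real.log_inv]
  set L := Real.log (1 / d) with hLdef
  have hSpos : (0:ℝ) < S.card := by exact_mod_cast hS
  have hS1 : (1:ℝ) ≤ S.card := by exact_mod_cast hS
  set N := Real.log (S.card : ℝ) with hN
  have hN0 : 0 ≤ N := Real.log_nonneg hS1
  set u : ℝ := (1 - θ) * N / L with hu
  have hu0 : 0 ≤ u := div_nonneg (mul_nonneg (by linarith) hN0) hL.le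
  set t := ⌊u⌋₊ with ht
  have htu : (t : ℝ) ≤ u := Nat.floor_le hu0
  have hut : u < t + 1 := Nat.lt_floor_add_one u
  have hsize : ∀ i < t, (S.card : ℝ) ^ θ ≤ d ^ i * (S.card : ℝ) := by
    intro i hi
    have h1 : (i : ℝ) ≤ u := le_trans (by exact_mod_cast hi.le) htu
    have h2 : (i : ℝ) * L ≤ (1 - θ) * N := by
      rw [hu, le_div_iff₀ hL] at h1
      exact h1
    have h3 : (S.card : ℝ) ^ θ = Real.exp (θ * N) := by
      rw [Real.rpow_def_of_pos hSpos, mul_comm]
    have h4 : d ^ i * (S.card : ℝ) = Real.exp (N - i * L) := by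
      rw [Real.exp_sub, hN, Real.exp_log hSpos, Real.exp_nat_mul]
      rw [hLdef, Real.exp_log (by positivity)]
      rw [one_div, inv_pow]
      field_simp
    rw [h3, h4]
    apply Real.exp_le_exp.mpr
    linarith
  obtain ⟨W, hWS, htk, hcard, hWk, hWl⟩ := greedy hd0 (Real.rpow_pos_of_pos hSpos θ) h hk hl t hsize
  have h5 := (hcl (k - t) k G W hWk hWl f hf).2
  unfold Bd at h5
  simp only at h5
  have h6 : d ^ t * (S.card : ℝ) = Real.exp (N - t * L) := by
    rw [Real.exp_sub, hN, Real.exp_log hSpos, Real.exp_nat_mul]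
    rw [hLdef, Real.exp_log (by positivity)]
    rw [one_div, inv_pow]
    field_simp
  have h7 : Real.exp (N - t * L) ≤ Real.exp (Real.log C +
      ((f.2 : ℝ) / D * ((k - t : ℕ) : ℝ) + (f.1 : ℝ) / D * k)) := by
    rw [Real.exp_add (Real.log C), Real.exp_log hC, ← h6]
    linarith
  have h8 := Real.exp_le_exp.mp h7
  rw [Nat.cast_sub htk] at h8
  set Y := (f.2 : ℝ) / D with hY
  set X := (f.1 : ℝ) / D with hX
  have h9 : N + t * (Y - L) ≤ Real.log C + (X + Y) * k := by nlinarith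
  have h10 : N * (θ + (1 - θ) * (Y / L)) = N + u * (Y - L) := by
    rw [hu]
    field_simp
    ring
  rw [h10]
  have h11 : u * (Y - L) ≤ t * (Y - L) + |Y - L| := by
    rcases le_total 0 (Y - L) with h | h
    · rw [abs_of_nonneg h]
      nlinarith
    · have : 0 ≤ |Y - L| := abs_nonneg _
      nlinarith
  linarith

/-- the asymptotic form -/
theorem main {f : ℕ × ℕ} {C : ℝ} (hC : 0 < C) {cl : List (ℕ × ℕ)} (hf : f ∈ cl)
    (hcl : ∀ k l : ℕ, Claims cl C k l) (hf2 : 0 < f.2)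
    {θ d c : ℝ} (hθ0 : 0 ≤ θ) (hθ1 : θ ≤ 1) (hd0 : 0 < d) (hd1 : d < 1) (hc0 : 0 < c)
    (hc : rate ((f.1 : ℝ) / D) ((f.2 : ℝ) / D) θ d < Real.log c) :
    ∃ K : ℕ, ∀ k : ℕ, K ≤ k → ∀ {V : Type} [Fintype V] (G : SimpleGraph V),
      c ^ k ≤ (Fintype.card V : ℝ) → DenseAbove G d ((Fintype.card V : ℝ) ^ θ) →
      (∃ s : Finset V, G.IsNClique k s) ∨ (∃ s : Finset V, Gᶜ.IsNClique k s) := by
  have hYpos : 0 < (f.2 : ℝ) / D := by
    have : (0:ℝ) < f.2 := by exact_mod_cast hf2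
    have hD : ((D:ℕ):ℝ) = 1000000000 := by norm_num
    rw [hD]
    positivity
  have hXnn : 0 ≤ (f.1 : ℝ) / D := by positivity
  have hden := rate_den_pos hYpos hθ0 hθ1 hd0 hd1
  set Y := (f.2 : ℝ) / D with hY
  set X := (f.1 : ℝ) / D with hX
  set A := θ + (1 - θ) * (Y / Real.log (1 / d)) with hA
  have hgap : 0 < Real.log c * A - (X + Y) := by
    unfold rate at hc
    rw [div_lt_iff₀ hden] at hc
    linarith
  have hlogc : 0 < Real.log c := by
    by_contra hcon
    push Not at hcon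
    have : Real.log c * A ≤ 0 := mul_nonpos_of_nonpos_of_nonneg hcon hden.le
    linarith
  have hc1 : 1 < c := by
    by_contra hcon
    push Not at hcon
    exact absurd (Real.log_nonpos hc0.le hcon) (not_le.mpr hlogc)
  set M := Real.log C + |Y - Real.log (1 / d)| with hM
  obtain ⟨K, hK⟩ := exists_nat_gt (M / (Real.log c * A - (X + Y)))
  refine ⟨K, fun k hk V _ G hn hdense => ?_⟩
  classical
  by_contra hcon
  push Not at hcon
  obtain ⟨h1, h2⟩ := hcon
  have hkK : (K:ℝ) ≤ k := by exact_mod_cast hk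
  have hone : (1:ℝ) ≤ c ^ k := one_le_pow₀ hc1.le
  have hcard : (1:ℝ) ≤ (Fintype.card V : ℝ) := hone.trans hn
  have hcardN : 1 ≤ (Finset.univ : Finset V).card := by
    rw [Finset.card_univ]
    exact_mod_cast hcard
  have h3 := key hC hf hcl hθ0 hθ1 hd0 hd1 (G := G) (S := Finset.univ) hcardN
    (by rw [Finset.card_univ]; exact hdense) (k := k) (fun t _ => h1 t) (fun t _ => h2 t)
  rw [Finset.card_univ] at h3
  have h4 : (k:ℝ) * Real.log c ≤ Real.log (Fintype.card V : ℝ) := by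
    rw [← Real.log_pow]
    exact Real.log_le_log (by positivity) hn
  have h5 : (k:ℝ) * Real.log c * A ≤ M + (X + Y) * k :=
    (mul_le_mul_of_nonneg_right h4 hden.le).trans h3
  have h6 : (k:ℝ) * (Real.log c * A - (X + Y)) ≤ M := by nlinarith
  have h7 : M < (Real.log c * A - (X + Y)) * K := by
    rw [div_lt_iff₀ hgap] at hK
    linarith
  nlinarith [mul_le_mul_of_nonneg_left hkK hgap.le]

/-- the form for bijumbled graphs -/
theorem mainBij {f : ℕ × ℕ} {C : ℝ} (hC : 0 < C) {cl : List (ℕ × ℕ)} (hf : f ∈ cl)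
    (hcl : ∀ k l : ℕ, Claims cl C k l) (hf2 : 0 < f.2)
    {θ θ' p d c : ℝ} (hθ0 : 0 ≤ θ) (hθ1 : θ ≤ 1) (hd0 : 0 < d) (hd1 : d < 1) (hc0 : 1 < c)
    (hdp : d < p) (hθ' : θ' < θ)
    (hc : rate ((f.1 : ℝ) / D) ((f.2 : ℝ) / D) θ d < Real.log c) (B : ℝ) :
    ∃ K : ℕ, ∀ k : ℕ, K ≤ k → ∀ {V : Type} [Fintype V] (G : SimpleGraph V),
      c ^ k ≤ (Fintype.card V : ℝ) → Bijumbled G p (B * (Fintype.card V : ℝ) ^ θ') →
      (∃ s : Finset V, G.IsNClique k s) ∨ (∃ s : Finset V, Gᶜ.IsNClique k s) := by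
  obtain ⟨K, hK⟩ := main hC hf hcl hf2 hθ0 hθ1 hd0 hd1 (by linarith) hc
  -- for large `n`, `B n^θ' / (p - d) ≤ n ^ θ`
  have hev : ∀ᶠ x : ℝ in atTop, B / (p - d) ≤ x ^ (θ - θ') :=
    (tendsto_rpow_atTop (by linarith : (0:ℝ) < θ - θ')).eventually_ge_atTop _
  have hpow : Tendsto (fun k : ℕ => c ^ k) atTop atTop := tendsto_pow_atTop_atTop_of_one_lt hc0
  obtain ⟨x0, hx0⟩ := eventually_atTop.mp hev
  obtain ⟨K1, hK1⟩ := eventually_atTop.mp (hpow.eventually_ge_atTop x0)
  refine ⟨max K K1, fun k hk V _ G hn hb => ?_⟩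
  refine hK k (le_trans (le_max_left _ _) hk) G hn ?_
  have hpos : (0:ℝ) < (Fintype.card V : ℝ) := lt_of_lt_of_le (by positivity) hn
  have h1 := hx0 _ ((hK1 k (le_trans (le_max_right _ _) hk)).trans hn)
  have h2 := hb.denseAbove (ε := p - d) (by linarith)
  intro W hW
  have h3 := h2 W ?_
  · have : p - (p - d) = d := by ring
    rwa [this] at h3
  · refine le_trans ?_ hW
    have h4 : (Fintype.card V : ℝ) ^ θ = (Fintype.card V : ℝ) ^ (θ - θ') * (Fintype.card V : ℝ) ^ θ' := by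
      rw [← Real.rpow_add hpos]
      congr 1
      ring
    rw [h4, mul_div_right_comm]
    exact mul_le_mul_of_nonneg_right h1 (by positivity)

end Pool.Agent.W87.Restr
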