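import Pool.Agent.W87.UniTheta
import Pool.Agent.W668.Uni.Stmts2

set_option autoImplicit false

open Set
open scoped ContDiff Topology

namespace Pool.Agent.W87.UniTheta

open Pool.Agent.W668.Uni

noncomputable section

namespace Osc

variable {A B I : ℝ → ℝ} {L ρ φ : ℝ} (h : Osc A B I L ρ φ)

include h

lemma windowZ (θ : ℝ) : ∃ n : ℤ, |θ + n * L - φ| ≤ L / 2 ∧ A (θ + n * L) = A θ ∧
    B (θ + n * L) = B θ := by
  obtain ⟨n, hn, -⟩ := existsUnique_add_zsmul_mem_Ico h.L_pos θ (φ - L / 2)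
  have hA : Function.Periodic A L := h.per
  have hB : Function.Periodic B L := h.perB
  simp only [zsmul_eq_mul] at hn
  refine ⟨n, ?_, ?_, ?_⟩
  · rw [abs_le]
    constructor <;> linarith [hn.1, hn.2]
  · exact hA.int_mul n θ
  · exact hB.int_mul n θ

lemma crit_unique {θ θ' : ℝ} (h1 : B θ = 0) (h2 : 0 < A θ) (h3 : B θ' = 0) (h4 : 0 < A θ') :
    ∃ n : ℤ, θ' = θ + n * L := by
  obtain ⟨n, a1, a2, a3⟩ := h.windowZ θ
  obtain ⟨m, b1, b2, b3⟩ := h.windowZ θ'
  have c1 := h.crit a1 (a3.trans h1) (by rw [a2]; exact h2)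
  have c2 := h.crit b1 (b3.trans h3) (by rw [b2]; exact h4)
  have c3 := h.uniq c1 c2 (a3.trans h1) (b3.trans h3)
  refine ⟨n - m, ?_⟩
  push_cast
  linarith

end Osc

theorem theta2 : P_theta2 := by
  intro f Φ L U S T h
  refine ⟨theta f Φ L U S T h, ?_⟩
  intro x hx θ θ' y h1 h2 h3 h4
  have hy : y ≠ 0 := by
    rintro rfl
    have : dx S x θ 0 = 0 := by
      unfold dx
      exact map_zero _
    rw [this] at h2
    exact lt_irrefl _ h2
  obtain ⟨ρ, φ, ho⟩ := exists_osc h hx hy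
  exact ho.crit_unique h1 h2 h3 h4

end

end Pool.Agent.W87.UniTheta
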