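import Mathlib

/-!
# Graphs with uniformly dense halves contain large cliques
-/

open Finset Classical

namespace Pool.Agent.W87.Half

variable {V : Type*} [Fintype V] (G : SimpleGraph V)

/-- adjacency -/
noncomputable def a (u v : V) : ℝ := if G.Adj u v then 1 else 0

/-- number of ordered adjacent pairs -/
noncomputable def E (A B : Finset V) : ℝ := ∑ v ∈ B, ∑ u ∈ A, a G u v

/-- number of neighbours in `A` -/
noncomputable def d (A : Finset V) (v : V) : ℝ := ∑ u ∈ A, a G u v

omit [Fintype V] in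
theorem a_symm (u v : V) : a G u v = a G v u := by
  unfold a
  simp only [G.adj_comm]

omit [Fintype V] in
theorem a_self (v : V) : a G v v = 0 := by
  unfold a
  simp

omit [Fintype V] in
theorem a_nonneg (u v : V) : 0 ≤ a G u v := by
  unfold a
  split_ifs <;> norm_num

omit [Fintype V] in
theorem E_nonneg (A B : Finset V) : 0 ≤ E G A B :=
  sum_nonneg (fun _ _ => sum_nonneg (fun _ _ => a_nonneg G _ _))

omit [Fintype V] in
theorem E_eq (A B : Finset V) : E G A B = ∑ v ∈ B, d G A v := rfl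

omit [Fintype V] in
theorem E_comm (A B : Finset V) : E G A B = E G B A := by
  unfold E
  rw [sum_comm]
  apply sum_congr rfl
  intro u _
  apply sum_congr rfl
  intro v _
  exact a_symm G _ _

omit [Fintype V] in
theorem E_erase_right (A T : Finset V) {v : V} (hv : v ∈ T) :
    E G A (T.erase v) = E G A T - d G A v := by
  rw [E_eq, E_eq, ← add_sum_erase T _ hv]
  ring

omit [Fintype V] in
theorem d_erase (T : Finset V) (v : V) : d G (T.erase v) v = d G T v := by
  unfold d
  by_cases hv : v ∈ T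
  · rw [← add_sum_erase T _ hv, a_self, zero_add]
  · rw [erase_eq_of_notMem hv]

omit [Fintype V] in
theorem E_erase (T : Finset V) {v : V} (hv : v ∈ T) :
    E G (T.erase v) (T.erase v) = E G T T - 2 * d G T v := by
  rw [E_erase_right G _ T hv, d_erase, E_comm, E_erase_right G _ T hv]
  ring

/-- the potential -/
noncomputable def Psi (S : Finset V) (j : ℕ) (T : Finset V) : ℝ :=
  2 * E G S T * ((j : ℝ) / T.card) + E G T T * ((j : ℝ) / T.card) ^ 2

omit [Fintype V] in
theorem step (S : Finset V) (j : ℕ) (T : Finset V) (hT : 2 ≤ T.card) :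
    ∃ v ∈ T, Psi G S j (T.erase v) ≤ Psi G S j T := by
  by_contra hcon
  push Not at hcon
  have hne : T.Nonempty := card_pos.1 (by omega)
  have h1 := sum_lt_sum_of_nonempty hne hcon
  rw [sum_const, nsmul_eq_mul] at h1
  have hi : (2:ℝ) ≤ T.card := by exact_mod_cast hT
  set i : ℝ := (T.card : ℝ) with hidef
  have h2 : ∀ v ∈ T, Psi G S j (T.erase v) =
      2 * (E G S T - d G S v) * ((j : ℝ) / (i - 1)) +
        (E G T T - 2 * d G T v) * ((j : ℝ) / (i - 1)) ^ 2 := by
    intro v hv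
    unfold Psi
    rw [E_erase_right G S T hv, E_erase G T hv, card_erase_of_mem hv]
    have : ((T.card - 1 : ℕ) : ℝ) = i - 1 := by
      rw [Nat.cast_sub (by omega)]
      simp [hidef]
    rw [this]
  rw [sum_congr rfl h2, sum_add_distrib, ← sum_mul, ← sum_mul, ← mul_sum, sum_sub_distrib,
    sum_sub_distrib, ← mul_sum, ← E_eq, ← E_eq, sum_const, sum_const, nsmul_eq_mul,
    nsmul_eq_mul, ← hidef] at h1
  unfold Psi at h1
  rw [← hidef] at h1
  have hE := E_nonneg G T T
  have hi1 : 0 < i - 1 := by linarith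
  have hi0 : 0 < i := by linarith
  have e1 : 2 * (i * E G S T - E G S T) * ((j : ℝ) / (i - 1)) = 2 * E G S T * j := by
    field_simp
  have e2 : i * (2 * E G S T * ((j : ℝ) / i) + E G T T * ((j : ℝ) / i) ^ 2) =
      2 * E G S T * j + E G T T * (j : ℝ) ^ 2 / i := by
    field_simp
  have e3 : (i * E G T T - 2 * E G T T) * ((j : ℝ) / (i - 1)) ^ 2 ≤
      E G T T * (j : ℝ) ^ 2 / i := by
    have : (i * E G T T - 2 * E G T T) * ((j : ℝ) / (i - 1)) ^ 2 =
        (E G T T * (j : ℝ) ^ 2) * (i - 2) / (i - 1) ^ 2 := by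
      field_simp
    rw [this, div_le_div_iff₀ (by positivity) hi0]
    have h3 : 0 ≤ E G T T * (j : ℝ) ^ 2 := by positivity
    nlinarith [mul_nonneg h3 (sq_nonneg (1:ℝ))]
  rw [e1, e2] at h1
  linarith

omit [Fintype V] in
theorem exists_sub (S : Finset V) (j : ℕ) (hj : 1 ≤ j) (m : ℕ) :
    ∀ T : Finset V, T.card = j + m → ∃ J ⊆ T, J.card = j ∧
      2 * E G S J + E G J J ≤ Psi G S j T := by
  induction m with
  | zero =>
    intro T hT
    refine ⟨T, Subset.refl _, hT, ?_⟩
    unfold Psi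
    have hj0 : (0:ℝ) < j := by exact_mod_cast hj
    rw [hT, add_zero, div_self hj0.ne']
    simp
  | succ m ih =>
    intro T hT
    obtain ⟨v, hv, h⟩ := step G S j T (by omega)
    obtain ⟨J, hJ, hc, h'⟩ := ih (T.erase v) (by rw [card_erase_of_mem hv]; omega)
    exact ⟨J, hJ.trans (erase_subset _ _), hc, h'.trans h⟩

omit [Fintype V] in
theorem E_union (S J : Finset V) (h : Disjoint S J) :
    E G (S ∪ J) (S ∪ J) = E G S S + (2 * E G S J + E G J J) := by
  have h1 : ∀ v, d G (S ∪ J) v = d G S v + d G J v := by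
    intro v
    unfold d
    rw [sum_union h]
  rw [E_eq, sum_union h, sum_congr rfl (fun v _ => h1 v), sum_congr rfl (fun v _ => h1 v),
    sum_add_distrib, sum_add_distrib, ← E_eq, ← E_eq, ← E_eq, ← E_eq, E_comm G J S]
  ring

/-- the real inequality -/
theorem real_ineq (c ε δ n h s ES X ET : ℝ) (hc : 0 < c) (hε : ε = δ ^ 2 / 2) (hδ : 0 < δ)
    (hn : 0 < n) (hh : h ≤ n / 2) (hs : δ * n ≤ s)
    (hsh : s + 1 ≤ h) (hES : 0 ≤ ES)
    (h1 : 2 * (1 - ε) * c * (n - s) ^ 2 ≤ ET)
    (h2 : (1 - ε) * c * n ^ 2 / 2 ≤ ES + (X * ((h - s) / (n - s)) + ET * ((h - s) / (n - s)) ^ 2))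
    (h3 : ES + (X + ET) ≤ 2 * c * n ^ 2) : c / 2 * s ^ 2 ≤ ES := by
  have ht : 0 < n - s := by linarith
  have hp : 0 < h - s := by linarith
  have hs0 : 0 < s := lt_of_lt_of_le (by positivity) hs
  have hq : 0 < n - h := by linarith
  have h4 : (1 - ε) * c * n ^ 2 / 2 * (n - s) ^ 2 ≤
      ES * (n - s) ^ 2 + (X * ((h - s) * (n - s)) + ET * (h - s) ^ 2) := by
    have := mul_le_mul_of_nonneg_right h2 (sq_nonneg (n - s))
    have e : (ES + (X * ((h - s) / (n - s)) + ET * ((h - s) / (n - s)) ^ 2)) * (n - s) ^ 2 =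
        ES * (n - s) ^ 2 + (X * ((h - s) * (n - s)) + ET * (h - s) ^ 2) := by
      field_simp
    rwa [e] at this
  have h6 : (1 - ε) * c * n ^ 2 / 2 * (n - s) ^ 2 ≤
      ES * ((n - s) * (n - h)) + 2 * c * n ^ 2 * ((h - s) * (n - s)) -
        2 * (1 - ε) * c * (n - s) ^ 2 * ((h - s) * (n - h)) := by
    have a1 := mul_le_mul_of_nonneg_right h3 (mul_pos hp ht).le
    have a2 := mul_le_mul_of_nonneg_right h1 (mul_pos hp hq).le
    have e : ES * (n - s) ^ 2 + (X * ((h - s) * (n - s)) + ET * (h - s) ^ 2) =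
        ES * ((n - s) * (n - h)) + (ES + (X + ET)) * ((h - s) * (n - s)) -
          ET * ((h - s) * (n - h)) := by ring
    rw [e] at h4
    linarith
  have h7 : (1 - ε) * c * n ^ 2 / 2 * (n - s) ≤
      ES * (n - h) + 2 * c * n ^ 2 * (h - s) -
        2 * (1 - ε) * c * (n - s) * ((h - s) * (n - h)) := by
    have e : ((1 - ε) * c * n ^ 2 / 2 * (n - s)) * (n - s) ≤
        (ES * (n - h) + 2 * c * n ^ 2 * (h - s) -
        2 * (1 - ε) * c * (n - s) * ((h - s) * (n - h))) * (n - s) := by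
      have eL : ((1 - ε) * c * n ^ 2 / 2 * (n - s)) * (n - s) =
          (1 - ε) * c * n ^ 2 / 2 * (n - s) ^ 2 := by ring
      have eR : (ES * (n - h) + 2 * c * n ^ 2 * (h - s) -
          2 * (1 - ε) * c * (n - s) * ((h - s) * (n - h))) * (n - s) =
          ES * ((n - s) * (n - h)) + 2 * c * n ^ 2 * ((h - s) * (n - s)) -
        2 * (1 - ε) * c * (n - s) ^ 2 * ((h - s) * (n - h)) := by ring
      rw [eL, eR]
      exact h6
    exact le_of_mul_le_mul_right e ht
  have h8 : n * s ^ 2 ≤ n ^ 2 / 2 * (n - s) - 2 * n ^ 2 * (h - s) +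
      2 * (n - s) * ((h - s) * (n - h)) := by
    have hu : 0 ≤ n / 2 - h := by linarith
    have hus : (n / 2 - h) + s ≤ n := by linarith
    have hm : (n - s) * ((n / 2 - h) + s) ≤ n * n :=
      mul_le_mul (by linarith) hus (by linarith) hn.le
    have e : (n ^ 2 / 2 * (n - s) - 2 * n ^ 2 * (h - s) + 2 * (n - s) * ((h - s) * (n - h))) -
        n * s ^ 2 = 2 * ((n / 2 - h) * (n * n - (n - s) * ((n / 2 - h) + s))) := by ring
    have h81 := mul_nonneg hu (sub_nonneg.2 hm)
    linarith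
  have hε0 : 0 ≤ ε := by rw [hε]; positivity
  have h9 : (n - s) * (n ^ 2 / 2 + 2 * ((h - s) * (n - h))) ≤ n ^ 3 := by
    have h91 : (h - s) * (n - h) ≤ h * (n - h) :=
      mul_le_mul_of_nonneg_right (by linarith) hq.le
    have h92 : h * (n - h) ≤ n ^ 2 / 4 := by
      have := sq_nonneg (n - 2 * h)
      have e : n ^ 2 / 4 - h * (n - h) = (n - 2 * h) ^ 2 / 4 := by ring
      linarith
    have h93 : n ^ 2 / 2 + 2 * ((h - s) * (n - h)) ≤ n ^ 2 := by linarith
    calc (n - s) * (n ^ 2 / 2 + 2 * ((h - s) * (n - h))) ≤ n * n ^ 2 := by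
          apply mul_le_mul (by linarith) h93 _ hn.le
          have := mul_pos hp hq
          positivity
      _ = n ^ 3 := by ring
  have h10 : c * (n * s ^ 2 - ε * n ^ 3) ≤ ES * (n - h) := by
    have e1 := mul_le_mul_of_nonneg_left h8 hc.le
    have e2 := mul_le_mul_of_nonneg_left h9 (mul_nonneg hc.le hε0)
    linarith
  have h11 : ES * (n - h) ≤ ES * n := by
    apply mul_le_mul_of_nonneg_left _ hES
    linarith
  have h12 : ε * n ^ 3 ≤ n * s ^ 2 / 2 := by
    have h121 : (δ * n) ^ 2 ≤ s ^ 2 := by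
      apply pow_le_pow_left₀ (by positivity) hs
    have h122 := mul_le_mul_of_nonneg_left h121 hn.le
    have e : ε * n ^ 3 = n * (δ * n) ^ 2 / 2 := by rw [hε]; ring
    linarith
  have h13 : c / 2 * s ^ 2 * n ≤ ES * n := by
    have h131 := mul_le_mul_of_nonneg_left h12 hc.le
    linarith
  exact le_of_mul_le_mul_right h13 hn

end Pool.Agent.W87.Half
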