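import Pool.Agent.W87.Half

open Finset Classical

namespace Pool.Agent.W87.Half

variable {V : Type*} [Fintype V] (G : SimpleGraph V)

/-- the subgraph inside `W` on the same vertex set -/
def inside (W : Finset V) : SimpleGraph V where
  Adj u v := G.Adj u v ∧ u ∈ W ∧ v ∈ W
  symm := ⟨fun _ _ h => ⟨h.1.symm, h.2.2, h.2.1⟩⟩
  loopless := ⟨fun _ h => G.loopless.irrefl _ h.1⟩

theorem count (W : Finset V) :
    2 * (({e : Sym2 V | e ∈ G.edgeSet ∧ ∀ v ∈ e, v ∈ W}.ncard : ℕ) : ℝ) = E G W W := by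
  have h1 : {e : Sym2 V | e ∈ G.edgeSet ∧ ∀ v ∈ e, v ∈ W} = (inside G W).edgeSet := by
    ext e
    induction e using Sym2.ind with
    | _ u v =>
      simp only [Set.mem_ofPred_eq, SimpleGraph.mem_edgeSet, Sym2.mem_iff]
      constructor
      · rintro ⟨h, h'⟩
        exact ⟨h, h' u (Or.inl rfl), h' v (Or.inr rfl)⟩
      · rintro ⟨h, h1, h2⟩
        refine ⟨h, ?_⟩
        rintro w (rfl | rfl)
        · exact h1
        · exact h2
  have h2 : (inside G W).edgeSet.ncard = (inside G W).edgeFinset.card := by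
    rw [← SimpleGraph.coe_edgeFinset, Set.ncard_coe_finset]
  have h3 := (inside G W).sum_degrees_eq_twice_card_edges
  rw [h1, h2]
  have h4 : (2 * ((inside G W).edgeFinset.card : ℕ) : ℝ) = ∑ v, ((inside G W).degree v : ℝ) := by
    exact_mod_cast h3.symm
  rw [h4]
  have h5 : ∀ v, ((inside G W).degree v : ℝ) = if v ∈ W then d G W v else 0 := by
    intro v
    rw [← SimpleGraph.card_neighborFinset_eq_degree, SimpleGraph.neighborFinset_eq_filter]
    split_ifs with hv
    · unfold d a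
      rw [← sum_filter, sum_const, nsmul_eq_mul, mul_one]
      congr 1
      apply congrArg
      ext u
      simp only [mem_filter, mem_univ, true_and]
      constructor
      · intro h
        exact ⟨h.2.2, h.1.symm⟩
      · rintro ⟨h, h'⟩
        exact ⟨h'.symm, hv, h⟩
    · rw [Nat.cast_eq_zero, card_eq_zero, filter_eq_empty_iff]
      intro u _ h
      exact hv h.2.1
  rw [sum_congr rfl (fun v _ => h5 v), ← sum_filter, E_eq]
  apply sum_congr _ (fun _ _ => rfl)
  ext v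
  simp

theorem count_all : 2 * ((G.edgeSet.ncard : ℕ) : ℝ) = E G univ univ := by
  rw [← count G univ]
  congr 3
  ext e
  simp

omit [Fintype V] in
theorem exists_degree (S : Finset V) (b : ℝ) (hS : S.Nonempty)
    (h : b * (S.card : ℝ) ^ 2 ≤ E G S S) : ∃ v ∈ S, b * S.card ≤ d G S v := by
  by_contra hcon
  push Not at hcon
  have h1 := sum_lt_sum_of_nonempty hS hcon
  rw [sum_const, nsmul_eq_mul, ← E_eq] at h1
  nlinarith

theorem greedy (b x : ℝ) (hb : 0 < b) (hb1 : b ≤ 1) (hx : 0 < x)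
    (H : ∀ S : Finset V, x ≤ S.card → b * (S.card : ℝ) ^ 2 ≤ E G S S) (r : ℕ) :
    ∀ S : Finset V, x ≤ b ^ r * S.card → ∃ s ⊆ S, G.IsNClique r s := by
  induction r with
  | zero =>
    intro S _
    exact ⟨∅, empty_subset _, by simp [SimpleGraph.isNClique_iff]⟩
  | succ r ih =>
    intro S hS
    have hSc : (0:ℝ) ≤ S.card := Nat.cast_nonneg _
    have h1 : b ^ (r + 1) ≤ 1 := pow_le_one₀ hb.le hb1
    have h2 : x ≤ S.card := by nlinarith
    have hne : S.Nonempty := by
      rw [nonempty_iff_ne_empty]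
      rintro rfl
      simp at h2
      linarith
    obtain ⟨v, hv, hd⟩ := exists_degree G S b hne (H S h2)
    have h3 : ((S.filter (fun u => G.Adj v u)).card : ℝ) = d G S v := by
      unfold d a
      rw [← sum_filter, sum_const, nsmul_eq_mul, mul_one]
      congr 1
      apply congrArg
      ext u
      simp only [mem_filter, G.adj_comm v u]
    have hbr : 0 < b ^ r := by positivity
    obtain ⟨s, hs, hc⟩ := ih (S.filter (fun u => G.Adj v u)) (by
      rw [h3]
      calc x ≤ b ^ (r + 1) * S.card := hS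
        _ = b ^ r * (b * S.card) := by ring
        _ ≤ b ^ r * d G S v := mul_le_mul_of_nonneg_left hd hbr.le)
    refine ⟨insert v s, ?_, ?_⟩
    · apply insert_subset hv (hs.trans (filter_subset _ _))
    · exact hc.insert (fun u hu => (mem_filter.1 (hs hu)).2)

theorem dense_sets (n : ℕ) (hn : n = Fintype.card V) (c δ ε : ℝ) (hc : 0 < c) (hδ : 0 < δ)
    (hδ1 : δ ≤ 1) (hε : ε = δ ^ 2 / 2) (hn2 : 2 ≤ n)
    (htot : E G univ univ ≤ 2 * c * (n : ℝ) ^ 2)
    (hW : ∀ W : Finset V, W.card = n / 2 → (1 - ε) * c * (n : ℝ) ^ 2 / 2 ≤ E G W W)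
    (S : Finset V) (hS : δ * n ≤ S.card) : c / 2 * (S.card : ℝ) ^ 2 ≤ E G S S := by
  have hnpos : (0:ℝ) < n := by
    have : 0 < n := by omega
    exact_mod_cast this
  have hh1 : 1 ≤ n / 2 := by omega
  have hh : ((n / 2 : ℕ) : ℝ) ≤ n / 2 := Nat.cast_div_le
  have hhpos : (0:ℝ) < ((n / 2 : ℕ) : ℝ) := by exact_mod_cast hh1
  have hε1 : ε ≤ 1 / 2 := by
    rw [hε]
    nlinarith
  -- large sets
  have hC : ∀ T : Finset V, n / 2 ≤ T.card →
      2 * (1 - ε) * c * (T.card : ℝ) ^ 2 ≤ E G T T := by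
    intro T hT
    obtain ⟨m, hm⟩ := Nat.exists_eq_add_of_le hT
    obtain ⟨J, _, hJ, hle⟩ := exists_sub G ∅ (n / 2) hh1 m T hm
    have hWJ := hW J hJ
    have e0 : ∀ A : Finset V, E G ∅ A = 0 := by
      intro A
      unfold E
      simp
    have hTpos : (0:ℝ) < T.card := by
      have : 0 < T.card := by omega
      exact_mod_cast this
    unfold Psi at hle
    rw [e0, e0] at hle
    have h1 : (1 - ε) * c * (n : ℝ) ^ 2 / 2 ≤
        E G T T * (((n / 2 : ℕ) : ℝ) / T.card) ^ 2 := by linarith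
    have h2 : (1 - ε) * c * (n : ℝ) ^ 2 / 2 * (T.card : ℝ) ^ 2 ≤
        E G T T * ((n / 2 : ℕ) : ℝ) ^ 2 := by
      have := mul_le_mul_of_nonneg_right h1 (sq_nonneg (T.card : ℝ))
      have e : E G T T * (((n / 2 : ℕ) : ℝ) / T.card) ^ 2 * (T.card : ℝ) ^ 2 =
          E G T T * ((n / 2 : ℕ) : ℝ) ^ 2 := by
        field_simp
      rwa [e] at this
    have h3 : ((n / 2 : ℕ) : ℝ) ^ 2 ≤ (n : ℝ) ^ 2 / 4 := by
      have := pow_le_pow_left₀ hhpos.le hh 2
      have e : ((n : ℝ) / 2) ^ 2 = (n : ℝ) ^ 2 / 4 := by ring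
      rwa [e] at this
    have h4 := mul_le_mul_of_nonneg_left h3 (E_nonneg G T T)
    have h5 : (2 * (1 - ε) * c * (T.card : ℝ) ^ 2) * ((n : ℝ) ^ 2 / 4) ≤
        E G T T * ((n : ℝ) ^ 2 / 4) := by linarith
    exact le_of_mul_le_mul_right h5 (by positivity)
  rcases Nat.lt_or_ge S.card (n / 2) with hlt | hge
  · have hScard : S.card + 1 ≤ n / 2 := hlt
    have hTcard : (univ \ S).card = n - S.card := by
      rw [card_sdiff_of_subset (subset_univ S), card_univ, ← hn]
    have hSn : S.card ≤ n := by omega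
    obtain ⟨J, hJT, hJ, hle⟩ := exists_sub G S (n / 2 - S.card) (by omega)
      (n - n / 2) (univ \ S) (by rw [hTcard]; omega)
    have hdis : Disjoint S J := by
      rw [Finset.disjoint_left]
      intro u hu hu'
      exact (mem_sdiff.1 (hJT hu')).2 hu
    have hdis2 : Disjoint S (univ \ S) := disjoint_sdiff
    have hWu := hW (S ∪ J) (by rw [card_union_of_disjoint hdis, hJ]; omega)
    rw [E_union G S J hdis] at hWu
    have htot2 := htot
    have eU : (univ : Finset V) = S ∪ (univ \ S) := by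
      rw [union_sdiff_of_subset (subset_univ S)]
    rw [eU, E_union G S _ hdis2] at htot2
    have hCT := hC (univ \ S) (by rw [hTcard]; omega)
    unfold Psi at hle
    have ecast1 : (((univ \ S).card : ℕ) : ℝ) = (n : ℝ) - S.card := by
      rw [hTcard, Nat.cast_sub hSn]
    have ecast2 : ((n / 2 - S.card : ℕ) : ℝ) = ((n / 2 : ℕ) : ℝ) - S.card := by
      rw [Nat.cast_sub (by omega)]
    rw [ecast1] at hCT hle
    rw [ecast2] at hle
    refine real_ineq c ε δ n ((n / 2 : ℕ) : ℝ) S.card (E G S S) (2 * E G S (univ \ S))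
      (E G (univ \ S) (univ \ S)) hc hε hδ hnpos hh hS ?_ (E_nonneg G S S) hCT ?_ htot2
    · exact_mod_cast hScard
    · linarith
  · have := hC S hge
    have h1 : c / 2 * (S.card : ℝ) ^ 2 ≤ 2 * (1 - ε) * c * (S.card : ℝ) ^ 2 := by
      apply mul_le_mul_of_nonneg_right _ (sq_nonneg _)
      nlinarith
    linarith

theorem main (c : ℝ) (hc : 0 < c) (k : ℕ) :
    ∃ ε : ℝ, 0 < ε ∧ ∃ N : ℕ, ∀ n : ℕ, N ≤ n → ∀ G : SimpleGraph (Fin n),
      G.edgeSet.ncard = ⌊c * (n : ℝ) ^ 2⌋₊ →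
        (∀ W : Finset (Fin n), W.card = n / 2 →
          (1 - ε) * c * ((n : ℝ) / 2) ^ 2 ≤
            (({e : Sym2 (Fin n) | e ∈ G.edgeSet ∧ ∀ v ∈ e, v ∈ W}).ncard : ℝ)) →
        ∃ s : Finset (Fin n), G.IsNClique k s := by
  set b : ℝ := min (c / 2) 1 with hb
  have hb0 : 0 < b := lt_min (by linarith) one_pos
  have hb1 : b ≤ 1 := min_le_right _ _
  have hbc : b ≤ c / 2 := min_le_left _ _
  have hδ : 0 < b ^ k := by positivity
  have hδ1 : b ^ k ≤ 1 := pow_le_one₀ hb0.le hb1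
  refine ⟨(b ^ k) ^ 2 / 2, by positivity, 2, ?_⟩
  intro n hn G hE hW
  have hnpos : (0:ℝ) < n := by
    have : 0 < n := by omega
    exact_mod_cast this
  have htot : E G univ univ ≤ 2 * c * (n : ℝ) ^ 2 := by
    rw [← count_all, hE]
    have := Nat.floor_le (show 0 ≤ c * (n : ℝ) ^ 2 by positivity)
    linarith
  have hds := dense_sets G n (by simp) c (b ^ k) ((b ^ k) ^ 2 / 2) hc hδ hδ1 rfl hn htot (by
    intro W hWc
    have := hW W hWc
    rw [← count G W]
    have e : ((n : ℝ) / 2) ^ 2 = (n : ℝ) ^ 2 / 4 := by ring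
    rw [e] at this
    linarith)
  obtain ⟨s, _, hs⟩ := greedy G b (b ^ k * n) hb0 hb1 (by positivity) (by
    intro S hS
    have h1 := hds S hS
    have h2 : b * (S.card : ℝ) ^ 2 ≤ c / 2 * (S.card : ℝ) ^ 2 :=
      mul_le_mul_of_nonneg_right hbc (sq_nonneg _)
    linarith) k univ (by simp)
  exact ⟨s, hs⟩

end Pool.Agent.W87.Half
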