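import Mathlib

/-!
# The hard-core model: recursion, union bound and the inductive inequality

For a finite graph and a set `W` of vertices, `Z W` is the partition function of the subgraph induced by
`W` (fugacity `t`), `T W` the sum of the sizes with the same weights, and `S W` the sum of
`t / (1 + t * D)` over the vertices of `W`, where `D` is the degree inside `W` plus one.
If in every induced subgraph every closed neighbourhood has `S`-mass at most one, then
`S W * Z W ≤ T W` for all `W`.
-/

open Finset Classical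

namespace Pool.Agent.W87.HC

variable {V : Type*} [Fintype V] (G : SimpleGraph V) (t : ℝ)

/-- closed neighbourhood -/
noncomputable def cl (v : V) : Finset V := univ.filter (fun u => u = v ∨ G.Adj v u)

/-- independent subsets of `W` -/
noncomputable def ind (W : Finset V) : Finset (Finset V) :=
  W.powerset.filter (fun I => G.IsIndepSet (I : Set V))

/-- partition function -/
noncomputable def Z (W : Finset V) : ℝ := ∑ I ∈ ind G W, t ^ I.card

/-- weighted sum of the sizes -/
noncomputable def T (W : Finset V) : ℝ := ∑ I ∈ ind G W, (I.card : ℝ) * t ^ I.card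

/-- closed degree inside `W` -/
noncomputable def D (W : Finset V) (v : V) : ℝ := ((cl G v ∩ W).card : ℝ)

/-- the local term -/
noncomputable def x (W : Finset V) (v : V) : ℝ := 1 / (1 + D G W v * t)

/-- the Caro-Wei sum -/
noncomputable def S (W : Finset V) : ℝ := ∑ v ∈ W, t * x G t W v

theorem mem_cl {u v : V} : u ∈ cl G v ↔ u = v ∨ G.Adj v u := by
  simp [cl]

theorem self_mem_cl (v : V) : v ∈ cl G v := by simp [cl]

theorem cl_symm {u v : V} : u ∈ cl G v ↔ v ∈ cl G u := by
  rw [mem_cl, mem_cl]
  constructor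
  · rintro (h | h)
    · exact Or.inl h.symm
    · exact Or.inr h.symm
  · rintro (h | h)
    · exact Or.inl h.symm
    · exact Or.inr h.symm

omit [Fintype V] in
theorem mem_ind {W I : Finset V} : I ∈ ind G W ↔ I ⊆ W ∧ G.IsIndepSet (I : Set V) := by
  simp [ind, mem_filter, mem_powerset]

/-- the members of `ind W` containing `v` correspond to `ind (W \ cl v)` -/
theorem sum_mem (W : Finset V) {v : V} (hv : v ∈ W) (f : Finset V → ℝ) :
    ∑ I ∈ (ind G W).filter (fun I => v ∈ I), f I =
      ∑ J ∈ ind G (W \ cl G v), f (insert v J) := by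
  symm
  refine Finset.sum_bij' (fun J _ => insert v J) (fun I _ => I.erase v) ?_ ?_ ?_ ?_ ?_
  · intro J hJ
    rw [mem_ind] at hJ
    rw [mem_filter, mem_ind]
    refine ⟨⟨?_, ?_⟩, mem_insert_self _ _⟩
    · intro u hu
      rcases mem_insert.1 hu with h | h
      · rw [h]; exact hv
      · exact (mem_sdiff.1 (hJ.1 h)).1
    · intro a ha b hb hab
      simp only [coe_insert, Set.mem_insert_iff, mem_coe] at ha hb
      rcases ha with ha | ha <;> rcases hb with hb | hb
      · exact absurd (ha.trans hb.symm) hab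
      · intro h
        rw [ha] at h
        exact (mem_sdiff.1 (hJ.1 hb)).2 ((mem_cl G).2 (Or.inr h))
      · intro h
        rw [hb] at h
        exact (mem_sdiff.1 (hJ.1 ha)).2 ((mem_cl G).2 (Or.inr h.symm))
      · exact hJ.2 (mem_coe.2 ha) (mem_coe.2 hb) hab
  · intro I hI
    rw [mem_filter, mem_ind] at hI
    rw [mem_ind]
    refine ⟨?_, ?_⟩
    · intro u hu
      rw [mem_erase] at hu
      rw [mem_sdiff, mem_cl]
      refine ⟨hI.1.1 hu.2, ?_⟩
      rintro (h | h)
      · exact hu.1 h
      · exact hI.1.2 (mem_coe.2 hI.2) (mem_coe.2 hu.2) (Ne.symm hu.1) h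
    · intro a ha b hb hab
      simp only [coe_erase, Set.mem_sdiff, mem_coe] at ha hb
      exact hI.1.2 (mem_coe.2 ha.1) (mem_coe.2 hb.1) hab
  · intro J hJ
    rw [mem_ind] at hJ
    apply erase_insert
    intro h
    exact (mem_sdiff.1 (hJ.1 h)).2 (self_mem_cl G v)
  · intro I hI
    rw [mem_filter] at hI
    exact insert_erase hI.2
  · intro J hJ
    rfl

omit [Fintype V] in
theorem filter_not_mem (W : Finset V) (v : V) :
    (ind G W).filter (fun I => ¬ v ∈ I) = ind G (W.erase v) := by
  ext I
  rw [mem_filter, mem_ind, mem_ind]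
  constructor
  · rintro ⟨⟨h1, h2⟩, h3⟩
    refine ⟨?_, h2⟩
    intro u hu
    rw [mem_erase]
    exact ⟨fun h => h3 (h ▸ hu), h1 hu⟩
  · rintro ⟨h1, h2⟩
    refine ⟨⟨fun u hu => (mem_erase.1 (h1 hu)).2, h2⟩, fun h => (mem_erase.1 (h1 h)).1 rfl⟩

theorem not_mem_of_ind {W J : Finset V} {v : V} (hJ : J ∈ ind G (W \ cl G v)) : v ∉ J := by
  rw [mem_ind] at hJ
  intro h
  exact (mem_sdiff.1 (hJ.1 h)).2 (self_mem_cl G v)

theorem Z_rec (W : Finset V) {v : V} (hv : v ∈ W) :
    Z G t W = Z G t (W.erase v) + t * Z G t (W \ cl G v) := by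
  unfold Z
  rw [← Finset.sum_filter_add_sum_filter_not (ind G W) (fun I => v ∈ I), sum_mem G W hv,
    filter_not_mem, mul_sum, add_comm]
  congr 1
  apply sum_congr rfl
  intro J hJ
  rw [card_insert_of_notMem (not_mem_of_ind G hJ), pow_succ, mul_comm]

theorem T_rec (W : Finset V) {v : V} (hv : v ∈ W) :
    T G t W = T G t (W.erase v) + t * (T G t (W \ cl G v) + Z G t (W \ cl G v)) := by
  unfold T Z
  rw [← Finset.sum_filter_add_sum_filter_not (ind G W) (fun I => v ∈ I), sum_mem G W hv,
    filter_not_mem, ← sum_add_distrib, mul_sum, add_comm]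
  congr 1
  apply sum_congr rfl
  intro J hJ
  rw [card_insert_of_notMem (not_mem_of_ind G hJ)]
  push_cast
  ring

omit [Fintype V] in
theorem Z_pos (ht : 0 < t) (W : Finset V) : 0 < Z G t W := by
  unfold Z
  apply sum_pos
  · intro I _
    positivity
  · exact ⟨∅, by simp [mem_ind, SimpleGraph.IsIndepSet]⟩

/-- union bound -/
theorem union_bound (ht : 0 < t) (W : Finset V) (v : V) :
    Z G t W ≤ Z G t (W \ cl G v) + ∑ u ∈ cl G v ∩ W, t * Z G t (W \ cl G u) := by
  have h1 : ∀ u ∈ cl G v ∩ W, t * Z G t (W \ cl G u) =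
      ∑ I ∈ ind G W, if u ∈ I then t ^ I.card else 0 := by
    intro u hu
    rw [← sum_filter, sum_mem G W (mem_inter.1 hu).2]
    unfold Z
    rw [mul_sum]
    apply sum_congr rfl
    intro J hJ
    rw [card_insert_of_notMem (not_mem_of_ind G hJ), pow_succ, mul_comm]
  have h2 : Z G t (W \ cl G v) =
      ∑ I ∈ ind G W, if Disjoint I (cl G v) then t ^ I.card else 0 := by
    unfold Z
    rw [← sum_filter]
    apply sum_congr _ (fun _ _ => rfl)
    ext I
    rw [mem_filter, mem_ind, mem_ind]
    constructor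
    · rintro ⟨h, h'⟩
      refine ⟨⟨fun u hu => (mem_sdiff.1 (h hu)).1, h'⟩, ?_⟩
      rw [Finset.disjoint_left]
      intro u hu
      exact (mem_sdiff.1 (h hu)).2
    · rintro ⟨⟨h, h'⟩, h''⟩
      refine ⟨fun u hu => mem_sdiff.2 ⟨h hu, Finset.disjoint_left.1 h'' hu⟩, h'⟩
  rw [sum_congr rfl h1, h2, sum_comm, ← sum_add_distrib]
  unfold Z
  apply sum_le_sum
  intro I hI
  have hp : 0 < t ^ I.card := by positivity
  by_cases hd : Disjoint I (cl G v)
  · rw [if_pos hd]
    have : 0 ≤ ∑ u ∈ cl G v ∩ W, (if u ∈ I then t ^ I.card else 0) := by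
      apply sum_nonneg
      intro u _
      split_ifs
      · exact hp.le
      · exact le_rfl
    linarith
  · rw [if_neg hd, zero_add]
    rw [Finset.not_disjoint_iff] at hd
    obtain ⟨u, hu, hu'⟩ := hd
    have hW : u ∈ cl G v ∩ W := mem_inter.2 ⟨hu', ((mem_ind G).1 hI).1 hu⟩
    calc t ^ I.card = if u ∈ I then t ^ I.card else 0 := by rw [if_pos hu]
      _ ≤ _ := Finset.single_le_sum (f := fun u => if u ∈ I then t ^ I.card else 0)
            (fun w _ => by split_ifs; exacts [hp.le, le_rfl]) hW

/-- the closed neighbourhood inside `W` without `v` -/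
noncomputable def nb (W : Finset V) (v : V) : Finset V := (cl G v ∩ W).erase v

theorem cl_inter (W : Finset V) {v : V} (hv : v ∈ W) : cl G v ∩ W = insert v (nb G W v) := by
  unfold nb
  rw [insert_erase (mem_inter.2 ⟨self_mem_cl G v, hv⟩)]

theorem not_mem_nb (W : Finset V) (v : V) : v ∉ nb G W v := by
  unfold nb
  exact notMem_erase _ _

theorem D_eq (W : Finset V) {v : V} (hv : v ∈ W) : D G W v = (nb G W v).card + 1 := by
  unfold D
  rw [cl_inter G W hv, card_insert_of_notMem (not_mem_nb G W v)]
  push_cast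
  ring

theorem D_nonneg (W : Finset V) (v : V) : 0 ≤ D G W v := by
  unfold D
  positivity

theorem x_pos (ht : 0 < t) (W : Finset V) (v : V) : 0 < x G t W v := by
  unfold x
  have := D_nonneg G W v
  positivity

theorem tx_lt (ht : 0 < t) (W : Finset V) {v : V} (hv : v ∈ W) : t * x G t W v < 1 := by
  unfold x
  rw [D_eq G W hv]
  have h : (0:ℝ) < 1 + ((nb G W v).card + 1 : ℝ) * t := by positivity
  rw [mul_one_div, div_lt_one h]
  have : (0:ℝ) ≤ (nb G W v).card * t := by positivity
  nlinarith

/-- `x` is antitone in the set -/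
theorem x_mono (ht : 0 < t) {W W' : Finset V} (h : W' ⊆ W) (u : V) : x G t W u ≤ x G t W' u := by
  unfold x
  have h1 := D_nonneg G W' u
  have h2 : D G W' u ≤ D G W u := by
    unfold D
    exact_mod_cast card_le_card (inter_subset_inter_left h)
  apply one_div_le_one_div_of_le (by positivity)
  nlinarith

theorem x_erase_real (t d : ℝ) (h1 : 0 < 1 + d * t) (h2 : 0 < 1 + (d - 1) * t) :
    1 / (1 + (d - 1) * t) - 1 / (1 + d * t) =
      t * ((1 / (1 + d * t)) ^ 2 / (1 - t * (1 / (1 + d * t)))) := by
  have h3 : 1 - t * (1 / (1 + d * t)) = (1 + (d - 1) * t) / (1 + d * t) := by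
    rw [eq_div_iff h1.ne', sub_mul, one_mul, mul_assoc, one_div_mul_cancel h1.ne']
    ring
  rw [h3]
  have h1' := h1.ne'
  have h2' := h2.ne'
  field_simp
  ring

/-- the value after deleting a neighbour -/
theorem x_erase (ht : 0 < t) (W : Finset V) {u v : V} (hv : v ∈ W) (hu : u ∈ nb G W v) :
    x G t (W.erase v) u - x G t W u = t * (x G t W u ^ 2 / (1 - t * x G t W u)) := by
  have huW : u ∈ W := (mem_inter.1 (mem_erase.1 hu).2).2
  have hcl : v ∈ cl G u := (cl_symm G).1 (mem_inter.1 (mem_erase.1 hu).2).1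
  have hD : D G (W.erase v) u = D G W u - 1 := by
    unfold D
    have : cl G u ∩ W.erase v = (cl G u ∩ W).erase v := by
      ext a
      simp only [mem_inter, mem_erase]
      tauto
    rw [this, card_erase_of_mem (mem_inter.2 ⟨hcl, hv⟩)]
    have : 1 ≤ (cl G u ∩ W).card := card_pos.2 ⟨v, mem_inter.2 ⟨hcl, hv⟩⟩
    push_cast [this]
    ring
  have hlt := tx_lt G t ht W huW
  have h1 : 0 < 1 + D G W u * t := by
    have := D_nonneg G W u
    positivity
  have h0 := D_nonneg G (W.erase v) u
  have h2 : 0 < 1 + (D G W u - 1) * t := by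
    rw [hD] at h0
    positivity
  have hx : x G t W u = 1 / (1 + D G W u * t) := rfl
  have hx' : x G t (W.erase v) u = 1 / (1 + (D G W u - 1) * t) := by
    unfold x
    rw [hD]
  rw [hx', hx]
  exact x_erase_real t (D G W u) h1 h2

theorem x_erase_other (W : Finset V) {u v : V} (hu : u ∉ nb G W v) (huv : u ≠ v) (huW : u ∈ W) :
    x G t (W.erase v) u = x G t W u := by
  have : cl G u ∩ W.erase v = cl G u ∩ W := by
    ext a
    simp only [mem_inter, mem_erase]
    constructor
    · tauto
    · rintro ⟨h1, h2⟩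
      refine ⟨h1, ?_, h2⟩
      rintro rfl
      apply hu
      unfold nb
      rw [mem_erase, mem_inter]
      exact ⟨huv, (cl_symm G).1 h1, huW⟩
  unfold x D
  rw [this]

/-- the change of `S` when `v` is deleted -/
theorem S_diff (ht : 0 < t) (W : Finset V) {v : V} (hv : v ∈ W) :
    S G t W - S G t (W.erase v) = t * x G t W v -
      ∑ u ∈ nb G W v, t * (t * (x G t W u ^ 2 / (1 - t * x G t W u))) := by
  have hsub : nb G W v ⊆ W.erase v := by
    intro u hu
    unfold nb at hu
    rw [mem_erase, mem_inter] at hu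
    exact mem_erase.2 ⟨hu.1, hu.2.2⟩
  have h1 : S G t W = t * x G t W v + ∑ u ∈ W.erase v, t * x G t W u := by
    unfold S
    rw [add_sum_erase W (fun u => t * x G t W u) hv]
  have h2 : S G t (W.erase v) - ∑ u ∈ W.erase v, t * x G t W u =
      ∑ u ∈ nb G W v, t * (t * (x G t W u ^ 2 / (1 - t * x G t W u))) := by
    unfold S
    rw [← sum_sub_distrib]
    rw [← sum_subset hsub]
    · apply sum_congr rfl
      intro u hu
      rw [← x_erase G t ht W hv hu]
      ring
    · intro u hu hu'
      rw [mem_erase] at hu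
      rw [x_erase_other G t W hu' hu.1 hu.2]
      ring
  linarith

theorem tangent (t r y : ℝ) (hq : 0 < 1 - t * r) (hy : 0 < 1 - t * y) :
    ((2 * r - t * r ^ 2) * y - r ^ 2) / (1 - t * r) ^ 2 ≤ y ^ 2 / (1 - t * y) := by
  rw [div_le_div_iff₀ (by positivity) hy]
  nlinarith [sq_nonneg (y - r)]

theorem key_real (t r s m b A : ℝ) (ht : 0 < t) (hr : 0 < r) (hq : 0 < 1 - t * r)
    (hm : m * t = 1 / r - 1 - t) (hb : b = 1 - t * r - t * s)
    (hA : A ≤ t * r - t * (t * (((2 * r - t * r ^ 2) * s - r ^ 2 * m) / (1 - t * r) ^ 2)))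
    (hA0 : 0 < A) : A * (1 - t * b) ≤ t * b ^ 2 := by
  rcases le_or_gt (1 - t * b) 0 with h | h
  · have : A * (1 - t * b) ≤ 0 := mul_nonpos_of_nonneg_of_nonpos hA0.le h
    have : 0 ≤ t * b ^ 2 := by positivity
    linarith
  · have hs : t * s = 1 - t * r - b := by linarith
    have hm' : m * t * r = 1 - r - t * r := by
      rw [hm]
      field_simp
    have e1 : t * ((2 * r - t * r ^ 2) * s - r ^ 2 * m) =
        (2 * r - t * r ^ 2) * (1 - t * r - b) - r * (1 - r - t * r) := by
      have : t * ((2 * r - t * r ^ 2) * s - r ^ 2 * m) =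
          (2 * r - t * r ^ 2) * (t * s) - r * (m * t * r) := by ring
      rw [this, hs, hm']
    have e2 : t * r - t * (t * (((2 * r - t * r ^ 2) * s - r ^ 2 * m) / (1 - t * r) ^ 2)) =
        t * (r * ((2 - t * r) * b - r)) / (1 - t * r) ^ 2 := by
      have : t * (((2 * r - t * r ^ 2) * s - r ^ 2 * m) / (1 - t * r) ^ 2) =
          ((2 * r - t * r ^ 2) * (1 - t * r - b) - r * (1 - r - t * r)) / (1 - t * r) ^ 2 := by
        rw [← e1]
        ring
      rw [this]
      have hne : (1 - t * r) ^ 2 ≠ 0 := by positivity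
      field_simp
      ring
    rw [e2] at hA
    have h3 : A * (1 - t * b) ≤
        t * (r * ((2 - t * r) * b - r)) / (1 - t * r) ^ 2 * (1 - t * b) :=
      mul_le_mul_of_nonneg_right hA h.le
    refine h3.trans ?_
    rw [div_mul_eq_mul_div, div_le_iff₀ (by positivity)]
    nlinarith [mul_nonneg ht.le (sq_nonneg (b - r))]

/-- the deficit of a closed neighbourhood -/
noncomputable def beta (W : Finset V) (v : V) : ℝ := 1 - ∑ u ∈ cl G v ∩ W, t * x G t W u

theorem key (ht : 0 < t) (W : Finset V) {v : V} (hv : v ∈ W)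
    (hA0 : 0 < S G t W - S G t (W.erase v)) :
    (S G t W - S G t (W.erase v)) * (1 - t * beta G t W v) ≤ t * beta G t W v ^ 2 := by
  have hq : 0 < 1 - t * x G t W v := by linarith [tx_lt G t ht W hv]
  refine key_real t (x G t W v) (∑ u ∈ nb G W v, x G t W u) (nb G W v).card _ _ ht
    (x_pos G t ht W v) hq ?_ ?_ ?_ hA0
  · have h : x G t W v = 1 / (1 + ((nb G W v).card + 1) * t) := by
      unfold x
      rw [D_eq G W hv]
    rw [h, one_div_one_div]
    ring
  · unfold beta
    rw [cl_inter G W hv, sum_insert (not_mem_nb G W v), mul_sum]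
    ring
  · rw [S_diff G t ht W hv]
    have h1 : ∑ u ∈ nb G W v, t * (t * (((2 * x G t W v - t * x G t W v ^ 2) * x G t W u -
        x G t W v ^ 2) / (1 - t * x G t W v) ^ 2)) ≤
        ∑ u ∈ nb G W v, t * (t * (x G t W u ^ 2 / (1 - t * x G t W u))) := by
      apply sum_le_sum
      intro u hu
      have huW : u ∈ W := (mem_inter.1 (mem_erase.1 hu).2).2
      have h2 := tangent t (x G t W v) (x G t W u) hq (by linarith [tx_lt G t ht W huW])
      have h3 := mul_le_mul_of_nonneg_left h2 ht.le
      exact mul_le_mul_of_nonneg_left h3 ht.le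
    have h4 : ∑ u ∈ nb G W v, t * (t * (((2 * x G t W v - t * x G t W v ^ 2) * x G t W u -
        x G t W v ^ 2) / (1 - t * x G t W v) ^ 2)) =
        t * (t * (((2 * x G t W v - t * x G t W v ^ 2) * (∑ u ∈ nb G W v, x G t W u) -
        x G t W v ^ 2 * ((nb G W v).card : ℝ)) / (1 - t * x G t W v) ^ 2)) := by
      rw [← mul_sum, ← mul_sum, ← sum_div, sum_sub_distrib, ← mul_sum, sum_const, nsmul_eq_mul]
      ring
    linarith

/-- a vertex with this inequality proves the bound -/
theorem good (ht : 0 < t) (W : Finset V) {v : V} (hv : v ∈ W)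
    (h1 : S G t (W.erase v) * Z G t (W.erase v) ≤ T G t (W.erase v))
    (h2 : S G t (W \ cl G v) * Z G t (W \ cl G v) ≤ T G t (W \ cl G v))
    (h3 : (S G t W - S G t (W.erase v)) * (Z G t W - t * Z G t (W \ cl G v)) ≤
      t * beta G t W v * Z G t (W \ cl G v)) :
    S G t W * Z G t W ≤ T G t W := by
  have hZ := Z_rec G t W hv
  have hT := T_rec G t W hv
  have hF := Z_pos G t ht (W \ cl G v)
  have hS : S G t W + beta G t W v ≤ 1 + S G t (W \ cl G v) := by
    unfold beta
    have e1 : S G t W = ∑ u ∈ W \ cl G v, t * x G t W u + ∑ u ∈ cl G v ∩ W, t * x G t W u := by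
      unfold S
      rw [← sum_sdiff (inter_subset_right : cl G v ∩ W ⊆ W)]
      congr 1
      apply sum_congr _ (fun _ _ => rfl)
      ext a
      simp only [mem_sdiff, mem_inter]
      tauto
    have e2 : ∑ u ∈ W \ cl G v, t * x G t W u ≤ S G t (W \ cl G v) := by
      unfold S
      apply sum_le_sum
      intro u _
      exact mul_le_mul_of_nonneg_left (x_mono G t ht sdiff_subset u) ht.le
    linarith
  have hZe : Z G t (W.erase v) = Z G t W - t * Z G t (W \ cl G v) := by linarith
  rw [hZe] at h1
  have h4 : t * ((S G t W + beta G t W v) * Z G t (W \ cl G v)) ≤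
      t * (T G t (W \ cl G v) + Z G t (W \ cl G v)) := by
    apply mul_le_mul_of_nonneg_left _ ht.le
    nlinarith
  rw [hT]
  nlinarith

/-- the union bound, summed -/
theorem union_sum (ht : 0 < t) (W : Finset V) :
    (W.card : ℝ) * Z G t W ≤ ∑ v ∈ W, Z G t (W \ cl G v) * (1 + D G W v * t) := by
  have h1 : (W.card : ℝ) * Z G t W = ∑ v ∈ W, Z G t W := by
    rw [sum_const, nsmul_eq_mul]
  rw [h1]
  have h2 : ∑ v ∈ W, Z G t W ≤ ∑ v ∈ W, (Z G t (W \ cl G v) +
      ∑ u ∈ cl G v ∩ W, t * Z G t (W \ cl G u)) :=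
    sum_le_sum (fun v _ => union_bound G t ht W v)
  refine h2.trans (le_of_eq ?_)
  rw [sum_add_distrib]
  have h3 : ∑ v ∈ W, ∑ u ∈ cl G v ∩ W, t * Z G t (W \ cl G u) =
      ∑ u ∈ W, D G W u * (t * Z G t (W \ cl G u)) := by
    have e1 : ∀ v ∈ W, ∑ u ∈ cl G v ∩ W, t * Z G t (W \ cl G u) =
        ∑ u ∈ W, if u ∈ cl G v then t * Z G t (W \ cl G u) else 0 := by
      intro v _
      rw [← sum_filter]
      apply sum_congr _ (fun _ _ => rfl)
      ext a
      simp only [mem_inter, mem_filter]
      tauto
    rw [sum_congr rfl e1, sum_comm]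
    apply sum_congr rfl
    intro u _
    rw [← sum_filter, sum_const, nsmul_eq_mul]
    unfold D
    congr 2
    apply congrArg
    ext a
    simp only [mem_inter, mem_filter]
    constructor
    · rintro ⟨h, h'⟩
      exact ⟨(cl_symm G).1 h', h⟩
    · rintro ⟨h, h'⟩
      exact ⟨h', (cl_symm G).1 h⟩
  rw [h3, ← sum_add_distrib]
  apply sum_congr rfl
  intro v _
  ring

/-- the deficits, summed -/
theorem beta_sum (ht : 0 < t) (W : Finset V) :
    ∑ v ∈ W, beta G t W v * (1 + D G W v * t) ≤ W.card := by
  have hx : ∀ v, 1 + D G W v * t = 1 / x G t W v := by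
    intro v
    unfold x
    rw [one_div_one_div]
  have e0 : ∀ v ∈ W, beta G t W v * (1 + D G W v * t) =
      1 + (t * (D G W v) - t * ∑ u ∈ W, if u ∈ cl G v then x G t W u / x G t W v else 0) := by
    intro v hv
    have hne := (x_pos G t ht W v).ne'
    have e1 : ∑ u ∈ cl G v ∩ W, t * x G t W u =
        ∑ u ∈ W, if u ∈ cl G v then t * x G t W u else 0 := by
      rw [← sum_filter]
      apply sum_congr _ (fun _ _ => rfl)
      ext a
      simp only [mem_inter, mem_filter]
      tauto
    have e2 : t * ∑ u ∈ W, (if u ∈ cl G v then x G t W u / x G t W v else 0) =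
        (∑ u ∈ cl G v ∩ W, t * x G t W u) * (1 / x G t W v) := by
      rw [e1, mul_sum, sum_mul]
      apply sum_congr rfl
      intro u _
      split_ifs
      · ring
      · ring
    rw [e2]
    unfold beta
    rw [← hx v]
    ring
  rw [sum_congr rfl e0, sum_add_distrib, sum_const, nsmul_eq_mul, mul_one, sum_sub_distrib,
    ← mul_sum, ← mul_sum]
  have h1 : ∑ v ∈ W, D G W v ≤
      ∑ v ∈ W, ∑ u ∈ W, if u ∈ cl G v then x G t W u / x G t W v else 0 := by
    have e3 : ∑ v ∈ W, ∑ u ∈ W, (if u ∈ cl G v then x G t W u / x G t W v else 0) =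
        ∑ v ∈ W, ∑ u ∈ W, (if u ∈ cl G v then x G t W v / x G t W u else 0) := by
      rw [sum_comm]
      apply sum_congr rfl
      intro v _
      apply sum_congr rfl
      intro u _
      by_cases h : u ∈ cl G v
      · rw [if_pos h, if_pos ((cl_symm G).1 h)]
      · rw [if_neg h, if_neg (fun h' => h ((cl_symm G).1 h'))]
    have e4 : ∀ v ∈ W, 2 * D G W v ≤
        ∑ u ∈ W, (if u ∈ cl G v then x G t W u / x G t W v else 0) +
        ∑ u ∈ W, (if u ∈ cl G v then x G t W v / x G t W u else 0) := by
      intro v _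
      have e5 : 2 * D G W v = ∑ u ∈ W, (if u ∈ cl G v then (2:ℝ) else 0) := by
        rw [← sum_filter, sum_const, nsmul_eq_mul]
        unfold D
        rw [mul_comm]
        congr 2
        apply congrArg
        ext a
        simp only [mem_inter, mem_filter]
        tauto
      rw [e5, ← sum_add_distrib]
      apply sum_le_sum
      intro u _
      split_ifs
      · have ha := x_pos G t ht W u
        have hb := x_pos G t ht W v
        rw [div_add_div _ _ hb.ne' ha.ne', le_div_iff₀ (by positivity)]
        nlinarith [sq_nonneg (x G t W u - x G t W v)]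
      · simp
    have e6 := sum_le_sum e4
    rw [← mul_sum, sum_add_distrib, ← e3] at e6
    linarith
  nlinarith [mul_le_mul_of_nonneg_left h1 ht.le]

/-- The inductive theorem. -/
theorem main (ht : 0 < t)
    (H : ∀ W : Finset V, ∀ v ∈ W, 0 ≤ beta G t W v) (W : Finset V) :
    S G t W * Z G t W ≤ T G t W := by
  induction W using Finset.strongInduction with
  | H W ih =>
    rcases W.eq_empty_or_nonempty with rfl | hne
    · unfold S T
      rw [sum_empty, zero_mul]
      apply sum_nonneg
      intro I _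
      positivity
    · by_contra hcon
      have hbad : ∀ v ∈ W, t * beta G t W v * Z G t (W \ cl G v) <
          (S G t W - S G t (W.erase v)) * (Z G t W - t * Z G t (W \ cl G v)) := by
        intro v hv
        by_contra h
        rw [not_lt] at h
        apply hcon
        refine good G t ht W hv (ih _ (erase_ssubset hv)) (ih _ ?_) h
        refine ⟨sdiff_subset, fun hs => ?_⟩
        exact (mem_sdiff.1 (hs hv)).2 (self_mem_cl G v)
      have hlt : ∀ v ∈ W, Z G t (W \ cl G v) < beta G t W v * Z G t W := by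
        intro v hv
        have hb := H W v hv
        have hF := Z_pos G t ht (W \ cl G v)
        have hZ := Z_pos G t ht W
        have hE : 0 < Z G t W - t * Z G t (W \ cl G v) := by
          have := Z_rec G t W hv
          have := Z_pos G t ht (W.erase v)
          linarith
        have h1 := hbad v hv
        have hA : 0 < S G t W - S G t (W.erase v) := by
          by_contra hA
          rw [not_lt] at hA
          have h2 : (S G t W - S G t (W.erase v)) * (Z G t W - t * Z G t (W \ cl G v)) ≤ 0 :=
            mul_nonpos_of_nonpos_of_nonneg hA hE.le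
          have h3 : 0 ≤ t * beta G t W v * Z G t (W \ cl G v) := by positivity
          linarith
        have hk := key G t ht W hv hA
        by_contra h
        rw [not_lt] at h
        have h4 : t * (beta G t W v + (S G t W - S G t (W.erase v))) *
            (beta G t W v * Z G t W) ≤
            t * (beta G t W v + (S G t W - S G t (W.erase v))) * Z G t (W \ cl G v) := by
          apply mul_le_mul_of_nonneg_left h
          positivity
        have h5 : (S G t W - S G t (W.erase v)) * (1 - t * beta G t W v) * Z G t W ≤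
            t * beta G t W v ^ 2 * Z G t W := mul_le_mul_of_nonneg_right hk hZ.le
        nlinarith
      have h6 : ∑ v ∈ W, Z G t (W \ cl G v) * (1 + D G W v * t) <
          ∑ v ∈ W, beta G t W v * Z G t W * (1 + D G W v * t) := by
        apply sum_lt_sum_of_nonempty hne
        intro v hv
        apply mul_lt_mul_of_pos_right (hlt v hv)
        have := D_nonneg G W v
        positivity
      have h7 : ∑ v ∈ W, beta G t W v * Z G t W * (1 + D G W v * t) =
          Z G t W * ∑ v ∈ W, beta G t W v * (1 + D G W v * t) := by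
        rw [mul_sum]
        apply sum_congr rfl
        intro v _
        ring
      have h8 := mul_le_mul_of_nonneg_left (beta_sum G t ht W) (Z_pos G t ht W).le
      have h9 := union_sum G t ht W
      rw [h7] at h6
      linarith

theorem nb_sub (W : Finset V) (v : V) : nb G W v ⊆ G.neighborFinset v := by
  intro u hu
  unfold nb at hu
  rw [mem_erase, mem_inter, mem_cl] at hu
  rw [SimpleGraph.mem_neighborFinset]
  rcases hu.2.1 with h | h
  · exact absurd h hu.1
  · exact h

theorem real_bound (t : ℝ) (ht : 0 < t) (n k : ℕ) (hnk : n ≤ k)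
    (hk : (k : ℝ) * (k - 1) * t ^ 2 ≤ 1 + 2 * t) :
    t * (1 / (1 + ((n : ℝ) + 1) * t)) + n * (t * (1 / (1 + 2 * t))) ≤ 1 := by
  have hn : (n : ℝ) * (n - 1) * t ^ 2 ≤ 1 + 2 * t := by
    refine le_trans ?_ hk
    apply mul_le_mul_of_nonneg_right _ (by positivity)
    rcases Nat.eq_zero_or_pos n with h | h
    · subst h
      rcases Nat.eq_zero_or_pos k with h' | h'
      · subst h'
        simp
      · have : (1:ℝ) ≤ k := by exact_mod_cast h'
        push_cast
        nlinarith
    · have h1 : (1:ℝ) ≤ n := by exact_mod_cast h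
      have h2 : (n:ℝ) ≤ k := by exact_mod_cast hnk
      nlinarith
  have h1 : 0 < 1 + ((n : ℝ) + 1) * t := by positivity
  have h2 : 0 < 1 + 2 * t := by positivity
  have e : t * (1 / (1 + ((n : ℝ) + 1) * t)) + n * (t * (1 / (1 + 2 * t))) =
      (t * (1 + 2 * t) + n * t * (1 + ((n : ℝ) + 1) * t)) /
        ((1 + ((n : ℝ) + 1) * t) * (1 + 2 * t)) := by
    field_simp
  rw [e, div_le_one (by positivity)]
  nlinarith

theorem beta_nonneg (ht : 0 < t) (k : ℕ) (hdeg : ∀ v, G.degree v ≤ k)
    (hk : (k : ℝ) * (k - 1) * t ^ 2 ≤ 1 + 2 * t) (W : Finset V) (v : V) (hv : v ∈ W) :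
    0 ≤ beta G t W v := by
  unfold beta
  rw [cl_inter G W hv, sum_insert (not_mem_nb G W v)]
  have hn : (nb G W v).card ≤ k :=
    (card_le_card (nb_sub G W v)).trans ((G.card_neighborFinset_eq_degree v).le.trans (hdeg v))
  have h1 := real_bound t ht (nb G W v).card k hn hk
  have h2 : ∑ u ∈ nb G W v, t * x G t W u ≤ ∑ u ∈ nb G W v, t * (1 / (1 + 2 * t)) := by
    apply sum_le_sum
    intro u hu
    apply mul_le_mul_of_nonneg_left _ ht.le
    unfold x
    apply one_div_le_one_div_of_le (by positivity)
    have h3 : (2:ℝ) ≤ D G W u := by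
      unfold D
      have h4 : ({u, v} : Finset V) ⊆ cl G u ∩ W := by
        intro a ha
        have hu' := hu
        unfold nb at hu'
        rw [mem_erase, mem_inter] at hu'
        rw [mem_insert, mem_singleton] at ha
        rcases ha with rfl | rfl
        · exact mem_inter.2 ⟨self_mem_cl G a, hu'.2.2⟩
        · exact mem_inter.2 ⟨(cl_symm G).1 hu'.2.1, hv⟩
      have h5 := card_le_card h4
      rw [card_pair (fun h : u = v => not_mem_nb G W v (by rw [h] at hu; exact hu))] at h5
      exact_mod_cast h5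
    nlinarith
  rw [sum_const, nsmul_eq_mul] at h2
  have h6 : x G t W v = 1 / (1 + (((nb G W v).card : ℝ) + 1) * t) := by
    unfold x
    rw [D_eq G W hv]
  rw [h6]
  linarith

/-- The bound for the whole graph, in the form of the problem. -/
theorem final (ht : 0 < t) (H : ∀ W : Finset V, ∀ v ∈ W, 0 ≤ beta G t W v) :
    (∑ v : V, t / (1 + ((G.degree v : ℝ) + 1) * t)) ≤
      (∑ I ∈ (Finset.univ : Finset (Finset V)).filter
            (fun I : Finset V => G.IsIndepSet (↑I : Set V)),
          ((Finset.card I : ℕ) : ℝ) * t ^ (Finset.card I)) /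
      (∑ I ∈ (Finset.univ : Finset (Finset V)).filter
            (fun I : Finset V => G.IsIndepSet (↑I : Set V)),
          t ^ (Finset.card I)) := by
  have hind : (Finset.univ : Finset (Finset V)).filter
      (fun I : Finset V => G.IsIndepSet (↑I : Set V)) = ind G univ := by
    ext I
    rw [mem_ind, mem_filter]
    simp
  rw [hind]
  have h := main G t ht H univ
  have hZ := Z_pos G t ht univ
  unfold T Z at h
  unfold Z at hZ
  rw [le_div_iff₀ hZ]
  refine le_trans (le_of_eq ?_) h
  congr 1
  unfold S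
  apply sum_congr rfl
  intro v _
  unfold x
  have : D G univ v = (G.degree v : ℝ) + 1 := by
    rw [D_eq G univ (mem_univ v)]
    congr 2
    rw [← G.card_neighborFinset_eq_degree v]
    congr 1
    apply Subset.antisymm (nb_sub G univ v)
    intro u hu
    rw [SimpleGraph.mem_neighborFinset] at hu
    unfold nb
    rw [mem_erase, mem_inter, mem_cl]
    exact ⟨hu.ne', Or.inr hu, mem_univ u⟩
  rw [this]
  ring

end Pool.Agent.W87.HC
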