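import Pool.Agent.W87.HardCoreTwo

/-!
# The hard-core model: the bound when `t` times every closed degree is at most three
-/

open Finset Classical

namespace Pool.Agent.W87.HC

variable {V : Type*} [Fintype V] (G : SimpleGraph V) (t : ℝ)

theorem nb_spec {W : Finset V} {u v : V} (hu : u ∈ nb G W v) : u ∈ W ∧ u ∈ cl G v ∧ u ≠ v := by
  unfold nb at hu
  rw [mem_erase, mem_inter] at hu
  exact ⟨hu.2.2, hu.2.1, hu.1⟩

theorem pair_sub {W : Finset V} {u v : V} (hv : v ∈ W) (hu : u ∈ nb G W v) :
    ({u, v} : Finset V) ⊆ cl G u ∩ W := by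
  obtain ⟨h1, h2, _⟩ := nb_spec G hu
  intro a ha
  rw [mem_insert, mem_singleton] at ha
  rcases ha with rfl | rfl
  · exact mem_inter.2 ⟨self_mem_cl G a, h1⟩
  · exact mem_inter.2 ⟨(cl_symm G).1 h2, hv⟩

theorem two_le_D {W : Finset V} {u v : V} (hv : v ∈ W) (hu : u ∈ nb G W v) :
    2 ≤ (cl G u ∩ W).card := by
  have h := card_le_card (pair_sub G hv hu)
  rwa [card_pair (nb_spec G hu).2.2] at h

theorem beta_ge (ht : 0 < t) (W : Finset V) {v : V} (hv : v ∈ W) :
    1 - (t * (1 / (1 + (((nb G W v).card : ℝ) + 1) * t)) +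
      (nb G W v).card * (t * (1 / (1 + 2 * t)))) ≤ beta G t W v := by
  unfold beta
  rw [cl_inter G W hv, sum_insert (not_mem_nb G W v)]
  have h2 : ∑ u ∈ nb G W v, t * x G t W u ≤ ∑ u ∈ nb G W v, t * (1 / (1 + 2 * t)) := by
    apply sum_le_sum
    intro u hu
    apply mul_le_mul_of_nonneg_left _ ht.le
    unfold x
    apply one_div_le_one_div_of_le (by positivity)
    have h3 : (2:ℝ) ≤ D G W u := by
      unfold D
      exact_mod_cast two_le_D G hv hu
    nlinarith
  rw [sum_const, nsmul_eq_mul] at h2
  have h6 : x G t W v = 1 / (1 + (((nb G W v).card : ℝ) + 1) * t) := by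
    unfold x
    rw [D_eq G W hv]
  rw [h6]
  linarith

/-- upper bound for the change of `S` -/
theorem A_le (ht : 0 < t) (W : Finset V) {v : V} (hv : v ∈ W) :
    S G t W - S G t (W.erase v) ≤
      t * (x G t W v * ((2 - t * x G t W v) * beta G t W v - x G t W v)) /
        (1 - t * x G t W v) ^ 2 := by
  have hq : 0 < 1 - t * x G t W v := by linarith [tx_lt G t ht W hv]
  have hr := x_pos G t ht W v
  have hm : ((nb G W v).card : ℝ) * t = 1 / x G t W v - 1 - t := by
    have h : x G t W v = 1 / (1 + ((nb G W v).card + 1) * t) := by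
      unfold x
      rw [D_eq G W hv]
    rw [h, one_div_one_div]
    ring
  have hb : beta G t W v = 1 - t * x G t W v - t * ∑ u ∈ nb G W v, x G t W u := by
    unfold beta
    rw [cl_inter G W hv, sum_insert (not_mem_nb G W v), mul_sum]
    ring
  rw [S_diff G t ht W hv]
  have h1 : ∑ u ∈ nb G W v, t * (t * (((2 * x G t W v - t * x G t W v ^ 2) * x G t W u -
      x G t W v ^ 2) / (1 - t * x G t W v) ^ 2)) ≤
      ∑ u ∈ nb G W v, t * (t * (x G t W u ^ 2 / (1 - t * x G t W u))) := by
    apply sum_le_sum
    intro u hu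
    have huW : u ∈ W := (nb_spec G hu).1
    have h2 := tangent t (x G t W v) (x G t W u) hq (by linarith [tx_lt G t ht W huW])
    have h3 := mul_le_mul_of_nonneg_left h2 ht.le
    exact mul_le_mul_of_nonneg_left h3 ht.le
  have h4 : ∑ u ∈ nb G W v, t * (t * (((2 * x G t W v - t * x G t W v ^ 2) * x G t W u -
      x G t W v ^ 2) / (1 - t * x G t W v) ^ 2)) =
      t * (t * (((2 * x G t W v - t * x G t W v ^ 2) * (∑ u ∈ nb G W v, x G t W u) -
      x G t W v ^ 2 * ((nb G W v).card : ℝ)) / (1 - t * x G t W v) ^ 2)) := by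
    rw [← mul_sum, ← mul_sum, ← sum_div, sum_sub_distrib, ← mul_sum, sum_const, nsmul_eq_mul]
    ring
  set r := x G t W v with hrdef
  set s := ∑ u ∈ nb G W v, x G t W u with hsdef
  set m := ((nb G W v).card : ℝ) with hmdef
  set b := beta G t W v with hbdef
  have hs : t * s = 1 - t * r - b := by linarith
  have hm' : m * t * r = 1 - r - t * r := by
    rw [hm]
    field_simp
  have e1 : t * ((2 * r - t * r ^ 2) * s - r ^ 2 * m) =
      (2 * r - t * r ^ 2) * (1 - t * r - b) - r * (1 - r - t * r) := by
    have : t * ((2 * r - t * r ^ 2) * s - r ^ 2 * m) =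
        (2 * r - t * r ^ 2) * (t * s) - r * (m * t * r) := by ring
    rw [this, hs, hm']
  have e2 : t * r - t * (t * (((2 * r - t * r ^ 2) * s - r ^ 2 * m) / (1 - t * r) ^ 2)) =
      t * (r * ((2 - t * r) * b - r)) / (1 - t * r) ^ 2 := by
    have : t * (((2 * r - t * r ^ 2) * s - r ^ 2 * m) / (1 - t * r) ^ 2) =
        ((2 * r - t * r ^ 2) * (1 - t * r - b) - r * (1 - r - t * r)) / (1 - t * r) ^ 2 := by
      rw [← e1]
      ring
    rw [this]
    have hne : (1 - t * r) ^ 2 ≠ 0 := by positivity
    field_simp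
    ring
  rw [← e2]
  linarith

theorem D_le_degree (W : Finset V) {v : V} (hv : v ∈ W) : D G W v ≤ (G.degree v : ℝ) + 1 := by
  rw [D_eq G W hv]
  have : (nb G W v).card ≤ G.degree v :=
    (card_le_card (nb_sub G W v)).trans (G.card_neighborFinset_eq_degree v).le
  have : ((nb G W v).card : ℝ) ≤ G.degree v := by exact_mod_cast this
  linarith

/-- deleting the second neighbourhood -/
theorem Z_two (ht : 0 < t) (ht1 : t ≤ 1) (W : Finset V) {u v : V} (hv : v ∈ W)
    (hu : u ∈ nb G W v) (hD : D G W u * t ≤ 3) :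
    Z G t (W \ cl G v) * ((1 + 2 * t) / (3 - 2 * t) * (4 * x G t W u - 1)) ≤
      Z G t ((W \ cl G v) \ cl G u) := by
  obtain ⟨huW, hucl, huv⟩ := nb_spec G hu
  have h2 := two_le_D G hv hu
  obtain ⟨n, hn⟩ := Nat.exists_eq_add_of_le h2
  have hDn : D G W u = (n : ℝ) + 2 := by
    unfold D
    rw [hn]
    push_cast
    ring
  have hcard : ((W \ cl G v) ∩ cl G u).card ≤ n := by
    have hdis : Disjoint ((W \ cl G v) ∩ cl G u) ({u, v} : Finset V) := by
      rw [Finset.disjoint_left]
      intro a ha ha'
      rw [mem_inter, mem_sdiff] at ha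
      rw [mem_insert, mem_singleton] at ha'
      rcases ha' with rfl | rfl
      · exact ha.1.2 hucl
      · exact ha.1.2 (self_mem_cl G a)
    have hsub : ((W \ cl G v) ∩ cl G u) ∪ ({u, v} : Finset V) ⊆ cl G u ∩ W := by
      apply union_subset
      · intro a ha
        rw [mem_inter, mem_sdiff] at ha
        exact mem_inter.2 ⟨ha.2, ha.1.1⟩
      · exact pair_sub G hv hu
    have h3 := card_le_card hsub
    rw [card_union_of_disjoint hdis, card_pair huv, hn] at h3
    omega
  have h4 := Z_sdiff G t ht (W \ cl G v) (cl G u)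
  have h5 : Z G t (W \ cl G v) ≤ (1 + t) ^ n * Z G t ((W \ cl G v) \ cl G u) := by
    refine h4.trans ?_
    apply mul_le_mul_of_nonneg_right _ (Z_pos G t ht _).le
    exact pow_le_pow_right₀ (by linarith) hcard
  have h6 := disc t ht n (by rw [← hDn]; exact hD)
  have h7 : x G t W u = 1 / (1 + ((n : ℝ) + 2) * t) := by
    unfold x
    rw [hDn]
  have h8 : 0 < 1 + ((n : ℝ) + 2) * t := by positivity
  have h9 : 0 < 3 - 2 * t := by linarith
  have h10 : (1 + 2 * t) / (3 - 2 * t) * (4 * x G t W u - 1) =
      ((3 - ((n : ℝ) + 2) * t) * (1 + 2 * t)) / ((1 + ((n : ℝ) + 2) * t) * (3 - 2 * t)) := by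
    rw [h7]
    field_simp
    ring
  have hZ2 := Z_pos G t ht ((W \ cl G v) \ cl G u)
  have h11 : 0 ≤ (3 - ((n : ℝ) + 2) * t) * (1 + 2 * t) := by
    rw [hDn] at hD
    have : 0 ≤ 3 - ((n : ℝ) + 2) * t := by linarith
    positivity
  rw [h10, mul_div_assoc', div_le_iff₀ (by positivity)]
  calc Z G t (W \ cl G v) * ((3 - ((n : ℝ) + 2) * t) * (1 + 2 * t))
      ≤ ((1 + t) ^ n * Z G t ((W \ cl G v) \ cl G u)) *
        ((3 - ((n : ℝ) + 2) * t) * (1 + 2 * t)) := mul_le_mul_of_nonneg_right h5 h11
    _ = Z G t ((W \ cl G v) \ cl G u) *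
        ((1 + t) ^ n * (3 - ((n : ℝ) + 2) * t) * (1 + 2 * t)) := by ring
    _ ≤ _ := mul_le_mul_of_nonneg_left h6 hZ2.le

/-- A vertex with a crowded neighbourhood satisfies the inequality of `good`. -/
theorem neg_good (ht : 0 < t) (hdeg : ∀ v, ((G.degree v : ℝ) + 1) * t ≤ 3) (W : Finset V)
    {v : V} (hv : v ∈ W) (hbeta : beta G t W v < 0) :
    (S G t W - S G t (W.erase v)) * (Z G t W - t * Z G t (W \ cl G v)) ≤
      t * beta G t W v * Z G t (W \ cl G v) := by
  have hDle : ∀ u ∈ W, D G W u * t ≤ 3 := fun u hu =>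
    (mul_le_mul_of_nonneg_right (D_le_degree G W hu) ht.le).trans (hdeg u)
  have hge := beta_ge G t ht W hv
  have hm2 : 2 ≤ (nb G W v).card := by
    by_contra h
    have h1 : (nb G W v).card ≤ 1 := by omega
    have h2 := real_bound t ht (nb G W v).card 1 h1 (by push_cast; nlinarith)
    linarith
  have hm2' : (2:ℝ) ≤ (nb G W v).card := by exact_mod_cast hm2
  have hD := hDle v hv
  have hDv := D_eq G W hv
  have ht1 : t ≤ 1 := by
    rw [hDv] at hD
    nlinarith
  have hA := A_le G t ht W hv
  have hF := Z_pos G t ht (W \ cl G v)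
  have hlow := Z_low G t ht W hv
  have hq : 0 < 1 - t * x G t W v := by linarith [tx_lt G t ht W hv]
  have hr := x_pos G t ht W v
  have hxv : x G t W v = 1 / (1 + ((nb G W v).card + 1) * t) := by
    unfold x
    rw [hDv]
  have hm : ((nb G W v).card : ℝ) * t = 1 / x G t W v - 1 - t := by
    rw [hxv, one_div_one_div]
    ring
  have hb : beta G t W v = 1 - t * x G t W v - t * ∑ u ∈ nb G W v, x G t W u := by
    unfold beta
    rw [cl_inter G W hv, sum_insert (not_mem_nb G W v), mul_sum]
    ring
  have hr4 : 1 / 4 ≤ x G t W v := by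
    rw [hxv]
    apply one_div_le_one_div_of_le (by positivity)
    rw [hDv] at hD
    linarith
  have hr3 : x G t W v * (1 + 3 * t) ≤ 1 := by
    rw [hxv, div_mul_eq_mul_div, div_le_one (by positivity)]
    nlinarith
  have hsum : Z G t (W \ cl G v) * ((1 + 2 * t) / (3 - 2 * t) *
      (4 * (t * ∑ u ∈ nb G W v, x G t W u) - (nb G W v).card * t)) ≤
      ∑ u ∈ nb G W v, t * Z G t ((W \ cl G v) \ cl G u) := by
    have h1 : ∑ u ∈ nb G W v, t * (Z G t (W \ cl G v) * ((1 + 2 * t) / (3 - 2 * t) *
        (4 * x G t W u - 1))) ≤ ∑ u ∈ nb G W v, t * Z G t ((W \ cl G v) \ cl G u) := by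
      apply sum_le_sum
      intro u hu
      exact mul_le_mul_of_nonneg_left
        (Z_two G t ht ht1 W hv hu (hDle u (nb_spec G hu).1)) ht.le
    refine le_trans (le_of_eq ?_) h1
    rw [← mul_sum, ← mul_sum, ← mul_sum, sum_sub_distrib, ← mul_sum, sum_const, nsmul_eq_mul]
    ring
  set r := x G t W v with hrdef
  set s := ∑ u ∈ nb G W v, x G t W u with hsdef
  set m := ((nb G W v).card : ℝ) with hmdef
  set b := beta G t W v with hbdef
  set F := Z G t (W \ cl G v) with hFdef
  set A := S G t W - S G t (W.erase v) with hAdef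
  set E := 1 + (1 + 2 * t) / (3 - 2 * t) * (4 * (1 - t * r + (-b)) - (1 / r - 1 - t)) with hE
  have hs : t * s = 1 - t * r + (-b) := by linarith
  rw [hs, hm] at hsum
  have hZE : F * E ≤ Z G t W - t * F := by
    rw [hE, mul_add, mul_one]
    linarith
  have hn := neg_real t r (-b) E ht ht1 hr4 hr3 (by linarith) le_rfl
  have hK : A ≤ -(t * (r * ((2 - t * r) * (-b) + r) / (1 - t * r) ^ 2)) := by
    refine hA.trans (le_of_eq ?_)
    ring
  have hK0 : 0 ≤ t * (r * ((2 - t * r) * (-b) + r) / (1 - t * r) ^ 2) := by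
    have h1 : 0 ≤ 2 - t * r := by linarith
    have h2 : 0 ≤ -b := by linarith
    positivity
  have hpos : 0 < Z G t W - t * F := by
    have := Z_rec G t W hv
    have := Z_pos G t ht (W.erase v)
    linarith
  calc A * (Z G t W - t * F)
      ≤ -(t * (r * ((2 - t * r) * (-b) + r) / (1 - t * r) ^ 2)) * (Z G t W - t * F) :=
        mul_le_mul_of_nonneg_right hK hpos.le
    _ ≤ -(t * (r * ((2 - t * r) * (-b) + r) / (1 - t * r) ^ 2)) * (F * E) := by
        have := mul_le_mul_of_nonneg_left hZE hK0
        linarith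
    _ = -(t * F * (r * ((2 - t * r) * (-b) + r) / (1 - t * r) ^ 2 * E)) := by ring
    _ ≤ -(t * F * (-b)) := by
        have := mul_le_mul_of_nonneg_left hn (mul_pos ht hF).le
        linarith
    _ = t * b * F := by ring

/-- The inductive theorem; vertices with a crowded neighbourhood are assumed to be good. -/
theorem main2 (ht : 0 < t)
    (H : ∀ W : Finset V, ∀ v ∈ W, beta G t W v < 0 →
      (S G t W - S G t (W.erase v)) * (Z G t W - t * Z G t (W \ cl G v)) ≤
        t * beta G t W v * Z G t (W \ cl G v)) (W : Finset V) :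
    S G t W * Z G t W ≤ T G t W := by
  induction W using Finset.strongInduction with
  | H W ih =>
    rcases W.eq_empty_or_nonempty with rfl | hne
    · unfold S T
      rw [sum_empty, zero_mul]
      apply sum_nonneg
      intro I _
      positivity
    · by_contra hcon
      have hbad : ∀ v ∈ W, t * beta G t W v * Z G t (W \ cl G v) <
          (S G t W - S G t (W.erase v)) * (Z G t W - t * Z G t (W \ cl G v)) := by
        intro v hv
        by_contra h
        rw [not_lt] at h
        apply hcon
        refine good G t ht W hv (ih _ (erase_ssubset hv)) (ih _ ?_) h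
        refine ⟨sdiff_subset, fun hs => ?_⟩
        exact (mem_sdiff.1 (hs hv)).2 (self_mem_cl G v)
      have hlt : ∀ v ∈ W, Z G t (W \ cl G v) < beta G t W v * Z G t W := by
        intro v hv
        have h1 := hbad v hv
        have hb : 0 ≤ beta G t W v := by
          by_contra hb
          rw [not_le] at hb
          exact absurd (H W v hv hb) (not_le.2 h1)
        have hF := Z_pos G t ht (W \ cl G v)
        have hZ := Z_pos G t ht W
        have hE : 0 < Z G t W - t * Z G t (W \ cl G v) := by
          have := Z_rec G t W hv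
          have := Z_pos G t ht (W.erase v)
          linarith
        have hA : 0 < S G t W - S G t (W.erase v) := by
          by_contra hA
          rw [not_lt] at hA
          have h2 : (S G t W - S G t (W.erase v)) * (Z G t W - t * Z G t (W \ cl G v)) ≤ 0 :=
            mul_nonpos_of_nonpos_of_nonneg hA hE.le
          have h3 : 0 ≤ t * beta G t W v * Z G t (W \ cl G v) := by positivity
          linarith
        have hk := key G t ht W hv hA
        by_contra h
        rw [not_lt] at h
        have h4 : t * (beta G t W v + (S G t W - S G t (W.erase v))) *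
            (beta G t W v * Z G t W) ≤
            t * (beta G t W v + (S G t W - S G t (W.erase v))) * Z G t (W \ cl G v) := by
          apply mul_le_mul_of_nonneg_left h
          positivity
        have h5 : (S G t W - S G t (W.erase v)) * (1 - t * beta G t W v) * Z G t W ≤
            t * beta G t W v ^ 2 * Z G t W := mul_le_mul_of_nonneg_right hk hZ.le
        nlinarith
      have h6 : ∑ v ∈ W, Z G t (W \ cl G v) * (1 + D G W v * t) <
          ∑ v ∈ W, beta G t W v * Z G t W * (1 + D G W v * t) := by
        apply sum_lt_sum_of_nonempty hne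
        intro v hv
        apply mul_lt_mul_of_pos_right (hlt v hv)
        have := D_nonneg G W v
        positivity
      have h7 : ∑ v ∈ W, beta G t W v * Z G t W * (1 + D G W v * t) =
          Z G t W * ∑ v ∈ W, beta G t W v * (1 + D G W v * t) := by
        rw [mul_sum]
        apply sum_congr rfl
        intro v _
        ring
      have h8 := mul_le_mul_of_nonneg_left (beta_sum G t ht W) (Z_pos G t ht W).le
      have h9 := union_sum G t ht W
      rw [h7] at h6
      linarith

/-- The bound for the whole graph, in the form of the problem. -/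
theorem final2 (ht : 0 < t) (hdeg : ∀ v, ((G.degree v : ℝ) + 1) * t ≤ 3) :
    (∑ v : V, t / (1 + ((G.degree v : ℝ) + 1) * t)) ≤
      (∑ I ∈ (Finset.univ : Finset (Finset V)).filter
            (fun I : Finset V => G.IsIndepSet (↑I : Set V)),
          ((Finset.card I : ℕ) : ℝ) * t ^ (Finset.card I)) /
      (∑ I ∈ (Finset.univ : Finset (Finset V)).filter
            (fun I : Finset V => G.IsIndepSet (↑I : Set V)),
          t ^ (Finset.card I)) := by
  have hind : (Finset.univ : Finset (Finset V)).filter
      (fun I : Finset V => G.IsIndepSet (↑I : Set V)) = ind G univ := by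
    ext I
    rw [mem_ind, mem_filter]
    simp
  rw [hind]
  have h := main2 G t ht (fun W v hv hb => neg_good G t ht hdeg W hv hb) univ
  have hZ := Z_pos G t ht univ
  unfold T Z at h
  unfold Z at hZ
  rw [le_div_iff₀ hZ]
  refine le_trans (le_of_eq ?_) h
  congr 1
  unfold S
  apply sum_congr rfl
  intro v _
  unfold x
  have : D G univ v = (G.degree v : ℝ) + 1 := by
    rw [D_eq G univ (mem_univ v)]
    congr 2
    rw [← G.card_neighborFinset_eq_degree v]
    congr 1
    apply Subset.antisymm (nb_sub G univ v)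
    intro u hu
    rw [SimpleGraph.mem_neighborFinset] at hu
    unfold nb
    rw [mem_erase, mem_inter, mem_cl]
    exact ⟨hu.ne', Or.inr hu, mem_univ u⟩
  rw [this]
  ring

end Pool.Agent.W87.HC
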