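import Pool.Agent.W87.HardCore

/-!
# The hard-core model: vertices with a crowded neighbourhood

If `t` times every closed degree is at most three, then every vertex whose closed neighbourhood has
`S`-mass larger than one satisfies the inequality needed in the induction.
-/

open Finset Classical

namespace Pool.Agent.W87.HC

variable {V : Type*} [Fintype V] (G : SimpleGraph V) (t : ℝ)

omit [Fintype V] in
theorem Z_mono (ht : 0 < t) {W W' : Finset V} (h : W' ⊆ W) : Z G t W' ≤ Z G t W := by
  unfold Z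
  apply sum_le_sum_of_subset_of_nonneg
  · intro I hI
    rw [mem_ind] at hI ⊢
    exact ⟨hI.1.trans h, hI.2⟩
  · intro I _ _
    positivity

theorem Z_sdiff (ht : 0 < t) (A B : Finset V) :
    Z G t A ≤ (1 + t) ^ (A ∩ B).card * Z G t (A \ B) := by
  induction B using Finset.induction_on with
  | empty => simp
  | insert b B hb ih =>
    refine ih.trans ?_
    have h1 : 1 ≤ 1 + t := by linarith
    by_cases hbA : b ∈ A
    · have hm : b ∈ A \ B := mem_sdiff.2 ⟨hbA, hb⟩
      have e1 : A \ insert b B = (A \ B).erase b := by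
        ext a
        simp only [mem_sdiff, mem_insert, mem_erase]
        tauto
      have e2 : A ∩ insert b B = insert b (A ∩ B) := by
        ext a
        simp only [mem_inter, mem_insert]
        constructor
        · tauto
        · rintro (h | h)
          · subst h
            exact ⟨hbA, Or.inl rfl⟩
          · exact ⟨h.1, Or.inr h.2⟩
      rw [e1, e2, card_insert_of_notMem (fun h => hb (mem_inter.1 h).2), pow_succ, mul_assoc]
      apply mul_le_mul_of_nonneg_left _ (by positivity)
      rw [Z_rec G t (A \ B) hm]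
      have h2 : Z G t ((A \ B) \ cl G b) ≤ Z G t ((A \ B).erase b) := by
        apply Z_mono G t ht
        intro a ha
        rw [mem_sdiff] at ha
        rw [mem_erase]
        refine ⟨?_, ha.1⟩
        rintro rfl
        exact ha.2 (self_mem_cl G a)
      nlinarith
    · have e1 : A \ insert b B = A \ B := by
        ext a
        simp only [mem_sdiff, mem_insert]
        constructor
        · tauto
        · rintro ⟨h, h'⟩
          refine ⟨h, ?_⟩
          rintro (h'' | h'')
          · subst h''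
            exact hbA h
          · exact h' h''
      rw [e1]
      apply mul_le_mul_of_nonneg_right _ (Z_pos G t ht _).le
      apply pow_le_pow_right₀ h1
      apply card_le_card
      intro a ha
      rw [mem_inter] at ha ⊢
      exact ⟨ha.1, mem_insert_of_mem ha.2⟩

/-- independent sets with at most one vertex in the closed neighbourhood of `v` -/
theorem Z_low (ht : 0 < t) (W : Finset V) {v : V} (hv : v ∈ W) :
    (1 + t) * Z G t (W \ cl G v) + ∑ u ∈ nb G W v, t * Z G t ((W \ cl G v) \ cl G u) ≤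
      Z G t W := by
  rw [Z_rec G t W hv]
  have hsub : ∀ u ∈ nb G W v, u ∈ W ∧ u ∈ cl G v ∧ u ≠ v := by
    intro u hu
    unfold nb at hu
    rw [mem_erase, mem_inter] at hu
    exact ⟨hu.2.2, hu.2.1, hu.1⟩
  have h1 : ∀ u ∈ nb G W v, t * Z G t ((W \ cl G v) \ cl G u) =
      ∑ I ∈ ind G (W.erase v),
        if u ∈ I ∧ I ⊆ insert u (W \ cl G v) then t ^ I.card else 0 := by
    intro u hu
    obtain ⟨huW, hucl, huv⟩ := hsub u hu
    have e1 : (W \ cl G v) \ cl G u = insert u (W \ cl G v) \ cl G u := by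
      ext a
      simp only [mem_sdiff, mem_insert]
      constructor
      · tauto
      · rintro ⟨h | h, h'⟩
        · subst h
          exact absurd (self_mem_cl G a) h'
        · exact ⟨h, h'⟩
    have e2 : (ind G (W.erase v)).filter
        (fun I => u ∈ I ∧ I ⊆ insert u (W \ cl G v)) =
        (ind G (insert u (W \ cl G v))).filter (fun I => u ∈ I) := by
      ext I
      simp only [mem_filter, mem_ind]
      constructor
      · tauto
      · rintro ⟨⟨h2, h3⟩, h4⟩
        refine ⟨⟨?_, h3⟩, h4, h2⟩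
        intro a ha
        rw [mem_erase]
        rcases mem_insert.1 (h2 ha) with h | h
        · rw [h]
          exact ⟨huv, huW⟩
        · rw [mem_sdiff] at h
          refine ⟨?_, h.1⟩
          rintro rfl
          exact h.2 (self_mem_cl G a)
    rw [← sum_filter, e2, sum_mem G _ (mem_insert_self _ _), ← e1]
    unfold Z
    rw [mul_sum]
    apply sum_congr rfl
    intro J hJ
    rw [e1] at hJ
    rw [card_insert_of_notMem (not_mem_of_ind G hJ), pow_succ, mul_comm]
  have h2 : Z G t (W \ cl G v) =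
      ∑ I ∈ ind G (W.erase v), if I ⊆ W \ cl G v then t ^ I.card else 0 := by
    unfold Z
    rw [← sum_filter]
    apply sum_congr _ (fun _ _ => rfl)
    ext I
    simp only [mem_filter, mem_ind]
    constructor
    · rintro ⟨h, h'⟩
      refine ⟨⟨?_, h'⟩, h⟩
      intro a ha
      have h3 := mem_sdiff.1 (h ha)
      rw [mem_erase]
      refine ⟨?_, h3.1⟩
      rintro rfl
      exact h3.2 (self_mem_cl G a)
    · tauto
  have h3 : Z G t (W \ cl G v) + ∑ u ∈ nb G W v, t * Z G t ((W \ cl G v) \ cl G u) ≤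
      Z G t (W.erase v) := by
    rw [sum_congr rfl h1, sum_comm, h2, ← sum_add_distrib]
    unfold Z
    apply sum_le_sum
    intro I hI
    have hp : 0 < t ^ I.card := by positivity
    by_cases hd : I ⊆ W \ cl G v
    · rw [if_pos hd]
      have : ∑ u ∈ nb G W v, (if u ∈ I ∧ I ⊆ insert u (W \ cl G v) then t ^ I.card else 0) = 0 := by
        apply sum_eq_zero
        intro u hu
        rw [if_neg]
        rintro ⟨h, _⟩
        exact (mem_sdiff.1 (hd h)).2 (hsub u hu).2.1
      rw [this, add_zero]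
    · rw [if_neg hd, zero_add]
      by_cases he : ∃ u ∈ nb G W v, u ∈ I ∧ I ⊆ insert u (W \ cl G v)
      · obtain ⟨u, hu, hu1, hu2⟩ := he
        rw [sum_eq_single_of_mem u hu]
        · split_ifs
          · exact le_rfl
          · exact hp.le
        · intro w hw hwu
          rw [if_neg]
          rintro ⟨h, _⟩
          rcases mem_insert.1 (hu2 h) with h' | h'
          · exact hwu h'
          · exact (mem_sdiff.1 h').2 (hsub w hw).2.1
      · have : ∑ u ∈ nb G W v, (if u ∈ I ∧ I ⊆ insert u (W \ cl G v) then t ^ I.card else 0) = 0 := by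
          apply sum_eq_zero
          intro u hu
          rw [if_neg]
          intro h
          exact he ⟨u, hu, h⟩
        rw [this]
        exact hp.le
  linarith

theorem disc (t : ℝ) (ht : 0 < t) (n : ℕ) (hn : ((n : ℝ) + 2) * t ≤ 3) :
    (1 + t) ^ n * (3 - ((n : ℝ) + 2) * t) * (1 + 2 * t) ≤
      (1 + ((n : ℝ) + 2) * t) * (3 - 2 * t) := by
  induction n with
  | zero =>
    push_cast
    nlinarith
  | succ n ih =>
    push_cast at hn ⊢
    have h0 : ((n : ℝ) + 2) * t < 3 := by linarith
    have ih' := ih h0.le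
    set a : ℝ := ((n : ℝ) + 2) * t with ha
    have ea : ((n : ℝ) + 1 + 2) * t = a + t := by rw [ha]; ring
    rw [ea] at hn ⊢
    have ha0 : 0 ≤ a := by positivity
    have h1 : (1 + t) * (3 - (a + t)) * (1 + a) ≤ (1 + (a + t)) * (3 - a) := by
      nlinarith [mul_nonneg ht.le (sq_nonneg (a - 1)), mul_nonneg (mul_pos ht ht).le ha0,
        mul_pos ht ht]
    have hp : 0 < (1 + t) ^ n := by positivity
    have h2 : (1 + t) ^ n * (1 + 2 * t) * ((1 + t) * (3 - (a + t)) * (1 + a)) ≤
        (1 + t) ^ n * (1 + 2 * t) * ((1 + (a + t)) * (3 - a)) :=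
      mul_le_mul_of_nonneg_left h1 (by positivity)
    have h3 : (1 + (a + t)) * ((1 + t) ^ n * (3 - a) * (1 + 2 * t)) ≤
        (1 + (a + t)) * ((1 + a) * (3 - 2 * t)) :=
      mul_le_mul_of_nonneg_left ih' (by positivity)
    have h4 : ((1 + t) ^ (n + 1) * (3 - (a + t)) * (1 + 2 * t)) * (1 + a) ≤
        ((1 + (a + t)) * (3 - 2 * t)) * (1 + a) := by
      rw [pow_succ]
      nlinarith
    exact le_of_mul_le_mul_right h4 (by positivity)

theorem neg_real (t r b E : ℝ) (ht : 0 < t) (ht1 : t ≤ 1) (hr : 1 / 4 ≤ r)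
    (hr1 : r * (1 + 3 * t) ≤ 1) (hb : 0 ≤ b)
    (hE : 1 + (1 + 2 * t) / (3 - 2 * t) * (4 * (1 - t * r + b) - (1 / r - 1 - t)) ≤ E) :
    b ≤ r * ((2 - t * r) * b + r) / (1 - t * r) ^ 2 * E := by
  have hr0 : 0 < r := by linarith
  have h3 : 0 < 3 - 2 * t := by linarith
  have hrle : r ≤ 1 := by nlinarith
  have htr : t * r < 1 := by nlinarith
  -- first step
  have hw : 1 + 3 * t ≤ 1 / r := by
    rw [le_div_iff₀ hr0]
    linarith
  have hw4 : 1 / r ≤ 4 := by
    rw [div_le_iff₀ hr0]
    linarith
  have e1 : (8 + 4 * b - 1 / r) / 3 ≤ E := by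
    refine le_trans ?_ hE
    have hk : (5 + 4 * b - 1 / r) / 3 ≤
        (1 + 2 * t) / (3 - 2 * t) * (4 * (1 - t * r + b) - (1 / r - 1 - t)) := by
      have hrw : r = 1 / (1 / r) := by rw [one_div_one_div]
      set w : ℝ := 1 / r with hwdef
      have hw0 : 0 < w := by linarith
      rw [hrw, div_mul_eq_mul_div, div_le_div_iff₀ (by norm_num) h3]
      have e2 : (1 + 2 * t) * (4 * (1 - t * (1 / w) + b) - (w - 1 - t)) * 3 =
          (3 * (1 + 2 * t) * (w * (5 + 4 * b - w + t) - 4 * t)) / w := by
        field_simp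
        ring
      rw [e2, le_div_iff₀ hw0]
      have h5 : 3 * (1 + 2 * t) * (4 - w) ≤ 8 * w * (5 + 4 * b - w) := by
        nlinarith [mul_nonneg hw0.le hb, mul_nonneg (sub_nonneg.2 hw4) ht.le,
          mul_nonneg (sub_nonneg.2 hw4) (sub_nonneg.2 hw), mul_nonneg (sub_nonneg.2 hw4) hw0.le]
      nlinarith [mul_le_mul_of_nonneg_left h5 ht.le]
    linarith
  have hE0 : 0 < E := by
    refine lt_of_lt_of_le ?_ e1
    linarith
  have e3 : r ^ 2 + 2 * r * b ≤ r * ((2 - t * r) * b + r) / (1 - t * r) ^ 2 := by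
    rw [le_div_iff₀ (by nlinarith)]
    set q : ℝ := 1 - t * r with hq
    have hq0 : 0 < q := by linarith
    have hq1 : q ≤ 1 := by nlinarith
    have e4 : 2 - t * r = 1 + q := by rw [hq]; ring
    rw [e4]
    have h6 : 0 ≤ r * ((1 - q ^ 2) * r + b * (1 - q) * (1 + 2 * q)) := by
      have : 0 ≤ 1 - q ^ 2 := by nlinarith
      have : 0 ≤ 1 - q := by linarith
      positivity
    nlinarith
  have e5 : b ≤ (r ^ 2 + 2 * r * b) * ((8 + 4 * b - 1 / r) / 3) := by
    have e6 : (r ^ 2 + 2 * r * b) * ((8 + 4 * b - 1 / r) / 3) =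
        (8 * r ^ 2 + 4 * b * r ^ 2 - r + 16 * r * b + 8 * r * b ^ 2 - 2 * b) / 3 := by
      field_simp
      ring
    rw [e6, le_div_iff₀ (by norm_num)]
    have hρ : 0 ≤ r - 1 / 4 := by linarith
    nlinarith [sq_nonneg (b - 3 / 16), mul_nonneg hρ hb, mul_nonneg hρ hρ,
      mul_nonneg (mul_nonneg hρ hρ) hb, mul_nonneg hρ (sq_nonneg b)]
  calc b ≤ (r ^ 2 + 2 * r * b) * ((8 + 4 * b - 1 / r) / 3) := e5
    _ ≤ (r ^ 2 + 2 * r * b) * E := mul_le_mul_of_nonneg_left e1 (by positivity)
    _ ≤ _ := mul_le_mul_of_nonneg_right e3 hE0.le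

end Pool.Agent.W87.HC
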