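import Mathlib

/-!
Pseudorandom colourings of `r`-uniform hypergraphs: the upper bound.
-/

open Finset Function

namespace Pool.Agent.W87.HR

/-- the number of elements of a set of tuples -/
noncomputable def cnt {α : Type} (A : Set α) : ℝ := (A.ncard : ℝ)

/-- The `(s+1)`-tuples all of whose faces (the tuple obtained by deleting the `l`-th entry) lie in
the given sets `G l` of `s`-tuples. -/
def cliques {V : Type} {s : ℕ} (G : Fin (s + 1) → Set (Fin s → V)) : Set (Fin (s + 1) → V) :=
  {y | ∀ l, (fun i => y (l.succAbove i)) ∈ G l}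

/-- The set `P` of `(s+1)`-tuples is locally dense with density `p` and error `e`: it contains at
least `p · (number of cliques) - e N^(s+1)` of the cliques of any `G`. -/
def Dense {V : Type} [Fintype V] {s : ℕ} (P : Set (Fin (s + 1) → V)) (p e : ℝ) : Prop :=
  ∀ G : Fin (s + 1) → Set (Fin s → V),
    p * cnt (cliques G) - e * (Fintype.card V : ℝ) ^ (s + 1) ≤ cnt (P ∩ cliques G)

section

variable {V : Type} [Fintype V]

open Classical in
lemma cnt_eq_sum {α : Type} [Fintype α] (A : Set α) :
    cnt A = ∑ y : α, (if y ∈ A then (1:ℝ) else 0) := by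
  unfold cnt
  rw [Set.ncard_eq_toFinset_card', Finset.sum_ite, Finset.sum_const_zero, add_zero,
    Finset.sum_const, nsmul_eq_mul, mul_one]
  congr 2
  ext x
  simp

lemma cnt_fiber {m : ℕ} (A : Set (Fin (m + 1) → V)) :
    cnt A = ∑ v : V, cnt {y : Fin m → V | (Fin.cons v y : Fin (m + 1) → V) ∈ A} := by
  classical
  rw [cnt_eq_sum]
  simp_rw [cnt_eq_sum]
  rw [← Fintype.sum_prod_type']
  symm
  exact Fintype.sum_equiv (Fin.consEquiv (fun _ => V)) _ _ (fun x => rfl)

lemma cnt_nonneg {α : Type} (A : Set α) : 0 ≤ cnt A := by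
  unfold cnt
  positivity

/-- a sequence all of whose increasing subsequences of length at most `R + 1` are in the family -/
def GoodSeq (R : ℕ) (P : (j : ℕ) → Set (Fin (j + 1) → V)) {k : ℕ} (v : Fin k → V) : Prop :=
  ∀ j ≤ R, ∀ σ : Fin (j + 1) → Fin k, StrictMono σ → (fun i => v (σ i)) ∈ P j

/-- the family after fixing the vertex `v` -/
def upF (R : ℕ) (P : (j : ℕ) → Set (Fin (j + 1) → V)) (v : V) (j : ℕ) : Set (Fin (j + 1) → V) :=
  {y | y ∈ P j ∧ (j < R → (Fin.cons v y : Fin (j + 2) → V) ∈ P (j + 1))}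

omit [Fintype V] in
lemma GoodSeq.cons {R : ℕ} {P : (j : ℕ) → Set (Fin (j + 1) → V)} {v : V}
    (hv : (fun _ => v) ∈ P 0) {k : ℕ} {w : Fin k → V} (hw : GoodSeq R (upF R P v) w) :
    GoodSeq R P (Fin.cons v w : Fin (k + 1) → V) := by
  intro j hj σ hσ
  by_cases h0 : σ 0 = 0
  · -- the subsequence starts with `v`
    rcases j with _ | j
    · have : (fun i => (Fin.cons v w : Fin (k + 1) → V) (σ i)) = fun _ => v := by
        funext i
        have : i = 0 := Fin.ext (by omega)
        rw [this, h0]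
        rfl
      rw [this]
      exact hv
    · have hpos : ∀ i : Fin (j + 1), σ i.succ ≠ 0 := by
        intro i h
        have h1 : σ 0 < σ i.succ := hσ (Fin.succ_pos i)
        rw [h] at h1
        exact absurd h1 (Fin.not_lt_zero _)
      set τ : Fin (j + 1) → Fin k := fun i => (σ i.succ).pred (hpos i) with hτ
      have hτm : StrictMono τ := by
        intro a b hab
        exact Fin.pred_lt_pred_iff.mpr (hσ (Fin.succ_lt_succ_iff.mpr hab))
      have h1 := hw j (by omega) τ hτm
      have h2 := h1.2 (by omega)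
      have h3 : (fun i => (Fin.cons v w : Fin (k + 1) → V) (σ i))
          = Fin.cons v (fun i => w (τ i)) := by
        funext i
        refine Fin.cases ?_ (fun i => ?_) i
        · rw [h0]; rfl
        · rw [Fin.cons_succ]
          have : σ i.succ = (τ i).succ := by rw [hτ]; simp
          rw [this, Fin.cons_succ]
      rw [h3]
      exact h2
  · have hpos : ∀ i : Fin (j + 1), σ i ≠ 0 := by
      intro i h
      have h1 : σ 0 ≤ σ i := hσ.monotone (Fin.zero_le i)
      rw [h] at h1
      exact h0 (Fin.le_zero_iff.mp h1)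
    set τ : Fin (j + 1) → Fin k := fun i => (σ i).pred (hpos i) with hτ
    have hτm : StrictMono τ := by
      intro a b hab
      exact Fin.pred_lt_pred_iff.mpr (hσ hab)
    have h1 := (hw j hj τ hτm).1
    have h3 : (fun i => (Fin.cons v w : Fin (k + 1) → V) (σ i)) = (fun i => w (τ i)) := by
      funext i
      have : σ i = (τ i).succ := by rw [hτ]; simp
      rw [this, Fin.cons_succ]
    rw [h3]
    exact h1

/-- the update of the densities -/
def upD (R : ℕ) (p : ℕ → ℝ) (j : ℕ) : ℝ := if j < R then p j * p (j + 1) else p j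

open Classical in
/-- few vertices are bad at level `j` -/
lemma bad_card {j : ℕ} {P0 : Set (Fin (j + 1) → V)} {P1 : Set (Fin (j + 2) → V)} {p e T : ℝ}
    (h : Dense P1 p e) (hN : 0 < Fintype.card V) :
    T * ((Finset.univ.filter (fun v : V => ∃ H : Fin (j + 1) → Set (Fin j → V),
      cnt {y | y ∈ P0 ∩ cliques H ∧ (Fin.cons v y : Fin (j + 2) → V) ∈ P1}
        < p * cnt (P0 ∩ cliques H) - T * (Fintype.card V : ℝ) ^ (j + 1))).card : ℝ)
      ≤ e * (Fintype.card V : ℝ) := by
  set B := Finset.univ.filter (fun v : V => ∃ H : Fin (j + 1) → Set (Fin j → V),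
      cnt {y | y ∈ P0 ∩ cliques H ∧ (Fin.cons v y : Fin (j + 2) → V) ∈ P1}
        < p * cnt (P0 ∩ cliques H) - T * (Fintype.card V : ℝ) ^ (j + 1)) with hB
  have hB1 : ∀ v ∈ B, ∃ H : Fin (j + 1) → Set (Fin j → V),
      cnt {y | y ∈ P0 ∩ cliques H ∧ (Fin.cons v y : Fin (j + 2) → V) ∈ P1}
        < p * cnt (P0 ∩ cliques H) - T * (Fintype.card V : ℝ) ^ (j + 1) := by
    intro v hv
    rw [hB, Finset.mem_filter] at hv
    exact hv.2
  choose! H hH using hB1
  -- the test family
  set G : Fin (j + 2) → Set (Fin (j + 1) → V) := fun l =>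
    Fin.cases (motive := fun _ => Set (Fin (j + 1) → V)) P0
      (fun l => {w | w 0 ∈ B ∧ Fin.tail w ∈ H (w 0) l}) l with hG
  have hcl : ∀ (v : V) (y : Fin (j + 1) → V), (Fin.cons v y : Fin (j + 2) → V) ∈ cliques G ↔
      v ∈ B ∧ y ∈ P0 ∩ cliques (H v) := by
    intro v y
    unfold cliques
    simp only [Set.mem_ofPred_eq, Set.mem_inter_iff]
    have e0 : (fun i => (Fin.cons v y : Fin (j + 2) → V) ((0 : Fin (j + 2)).succAbove i)) = y := by
      funext i
      simp
    have e1 : ∀ l : Fin (j + 1), (fun i => (Fin.cons v y : Fin (j + 2) → V) (l.succ.succAbove i))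
        = (Fin.cons v (fun i => y (l.succAbove i)) : Fin (j + 1) → V) := by
      intro l
      funext i
      refine Fin.cases ?_ (fun i => ?_) i
      · simp
      · simp
    constructor
    · intro h1
      have h2 := h1 0
      rw [e0] at h2
      have h3 := fun l : Fin (j + 1) => h1 l.succ
      simp only [e1] at h3
      have h4 : v ∈ B := (h3 0).1
      refine ⟨h4, h2, fun l => (h3 l).2⟩
    · rintro ⟨h1, h2, h3⟩ l
      refine Fin.cases ?_ (fun l => ?_) l
      · rw [e0]
        exact h2
      · rw [e1]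
        exact ⟨h1, h3 l⟩
  have h1 := h G
  have h2 : cnt (cliques G) = ∑ v ∈ B, cnt (P0 ∩ cliques (H v)) := by
    rw [cnt_fiber, ← Finset.sum_filter_add_sum_filter_not Finset.univ (fun v => v ∈ B)]
    have hz : ∑ v ∈ Finset.univ.filter (fun v => ¬ v ∈ B),
        cnt {y : Fin (j + 1) → V | (Fin.cons v y : Fin (j + 2) → V) ∈ cliques G} = 0 := by
      apply Finset.sum_eq_zero
      intro v hv
      rw [Finset.mem_filter] at hv
      have : {y : Fin (j + 1) → V | (Fin.cons v y : Fin (j + 2) → V) ∈ cliques G} = ∅ := by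
        ext y
        simp only [Set.mem_ofPred_eq, Set.mem_empty_iff_false, iff_false]
        intro hy
        exact hv.2 ((hcl v y).mp hy).1
      rw [this]
      simp [cnt]
    rw [hz, add_zero, Finset.filter_mem_eq_inter, Finset.univ_inter]
    apply Finset.sum_congr rfl
    intro v hv
    congr 1
    ext y
    simp only [Set.mem_ofPred_eq]
    rw [hcl]
    exact ⟨fun h => h.2, fun h => ⟨hv, h⟩⟩
  have h3 : cnt (P1 ∩ cliques G)
      = ∑ v ∈ B, cnt {y | y ∈ P0 ∩ cliques (H v) ∧ (Fin.cons v y : Fin (j + 2) → V) ∈ P1} := by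
    rw [cnt_fiber, ← Finset.sum_filter_add_sum_filter_not Finset.univ (fun v => v ∈ B)]
    have hz : ∑ v ∈ Finset.univ.filter (fun v => ¬ v ∈ B),
        cnt {y : Fin (j + 1) → V | (Fin.cons v y : Fin (j + 2) → V) ∈ P1 ∩ cliques G} = 0 := by
      apply Finset.sum_eq_zero
      intro v hv
      rw [Finset.mem_filter] at hv
      have : {y : Fin (j + 1) → V | (Fin.cons v y : Fin (j + 2) → V) ∈ P1 ∩ cliques G} = ∅ := by
        ext y
        simp only [Set.mem_ofPred_eq, Set.mem_empty_iff_false, iff_false]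
        intro hy
        exact hv.2 ((hcl v y).mp hy.2).1
      rw [this]
      simp [cnt]
    rw [hz, add_zero, Finset.filter_mem_eq_inter, Finset.univ_inter]
    apply Finset.sum_congr rfl
    intro v hv
    congr 1
    ext y
    simp only [Set.mem_ofPred_eq, Set.mem_inter_iff (x := (Fin.cons v y : Fin (j + 2) → V))]
    rw [hcl]
    exact ⟨fun h => ⟨h.2.2, h.1⟩, fun h => ⟨h.2, hv, h.1⟩⟩
  have h4 : ∑ v ∈ B, cnt {y | y ∈ P0 ∩ cliques (H v) ∧ (Fin.cons v y : Fin (j + 2) → V) ∈ P1}
      ≤ ∑ v ∈ B, (p * cnt (P0 ∩ cliques (H v)) - T * (Fintype.card V : ℝ) ^ (j + 1)) :=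
    Finset.sum_le_sum (fun v hv => (hH v hv).le)
  rw [Finset.sum_sub_distrib, ← Finset.mul_sum, Finset.sum_const, nsmul_eq_mul, ← h2, ← h3] at h4
  have h5 : (B.card : ℝ) * (T * (Fintype.card V : ℝ) ^ (j + 1))
      ≤ e * (Fintype.card V : ℝ) ^ (j + 1 + 1) := by linarith
  have hNpos : (0:ℝ) < (Fintype.card V : ℝ) := by exact_mod_cast hN
  have hpow : (0:ℝ) < (Fintype.card V : ℝ) ^ (j + 1) := by positivity
  have h6 : (T * (B.card : ℝ)) * (Fintype.card V : ℝ) ^ (j + 1)
      ≤ (e * (Fintype.card V : ℝ)) * (Fintype.card V : ℝ) ^ (j + 1) := by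
    calc (T * (B.card : ℝ)) * (Fintype.card V : ℝ) ^ (j + 1)
        = (B.card : ℝ) * (T * (Fintype.card V : ℝ) ^ (j + 1)) := by ring
      _ ≤ e * (Fintype.card V : ℝ) ^ (j + 1 + 1) := h5
      _ = _ := by ring
  exact le_of_mul_le_mul_right h6 hpow

/-- the density of the new family -/
lemma Dense.up {j : ℕ} {P0 : Set (Fin (j + 1) → V)} {P1 : Set (Fin (j + 2) → V)} {p0 p1 e T : ℝ}
    (h0 : Dense P0 p0 e) (he : 0 ≤ e) (hp0 : 0 ≤ p1) (hp1 : p1 ≤ 1) {v : V}
    (hv : ∀ H : Fin (j + 1) → Set (Fin j → V), p1 * cnt (P0 ∩ cliques H)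
      - T * (Fintype.card V : ℝ) ^ (j + 1) ≤
        cnt {y | y ∈ P0 ∩ cliques H ∧ (Fin.cons v y : Fin (j + 2) → V) ∈ P1}) :
    Dense {y | y ∈ P0 ∧ (Fin.cons v y : Fin (j + 2) → V) ∈ P1} (p0 * p1) (e + T) := by
  intro G
  have h1 := h0 G
  have h2 := hv G
  have h3 : {y | y ∈ P0 ∧ (Fin.cons v y : Fin (j + 2) → V) ∈ P1} ∩ cliques G
      = {y | y ∈ P0 ∩ cliques G ∧ (Fin.cons v y : Fin (j + 2) → V) ∈ P1} := by
    ext y
    simp only [Set.mem_inter_iff, Set.mem_ofPred_eq]
    tauto
  rw [h3]
  have h4 : p1 * (p0 * cnt (cliques G) - e * (Fintype.card V : ℝ) ^ (j + 1))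
      ≤ p1 * cnt (P0 ∩ cliques G) := mul_le_mul_of_nonneg_left h1 hp0
  have h5 : p1 * (e * (Fintype.card V : ℝ) ^ (j + 1)) ≤ e * (Fintype.card V : ℝ) ^ (j + 1) := by
    have : 0 ≤ e * (Fintype.card V : ℝ) ^ (j + 1) := by positivity
    nlinarith
  nlinarith

lemma Dense.mono {s : ℕ} {P : Set (Fin (s + 1) → V)} {p e e' : ℝ} (h : Dense P p e) (he : e ≤ e') :
    Dense P p e' := by
  intro G
  have h1 := h G
  have : e * (Fintype.card V : ℝ) ^ (s + 1) ≤ e' * (Fintype.card V : ℝ) ^ (s + 1) :=
    mul_le_mul_of_nonneg_right he (by positivity)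
  linarith

lemma dense_univ {s : ℕ} : Dense (Set.univ : Set (Fin (s + 1) → V)) 1 0 := by
  intro G
  simp

/-- cliques of level 0 -/
lemma cnt_level_zero {P : Set (Fin 1 → V)} {p e : ℝ} (h : Dense P p e) :
    (p - e) * (Fintype.card V : ℝ) ≤ cnt P := by
  have h1 := h (fun _ => Set.univ)
  have h2 : cliques (V := V) (s := 0) (fun _ => Set.univ) = Set.univ := by
    ext y
    simp [cliques]
  rw [h2, Set.inter_univ] at h1
  have h3 : cnt (Set.univ : Set (Fin 1 → V)) = (Fintype.card V : ℝ) := by
    unfold cnt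
    rw [Set.ncard_univ]
    simp
  rw [h3] at h1
  simp only [zero_add, pow_one] at h1
  linarith

/-- the greedy embedding -/
theorem greedy (R : ℕ) (hN : 0 < Fintype.card V) (M q : ℝ) (E : ℕ → ℝ) (hM : 0 < M)
    (hE0 : ∀ j, 0 ≤ E j) (hME : ∀ j < R, 0 < E (j + 1))
    (hfin : (R : ℝ) / M < q - E 0) :
    ∀ (m : ℕ) (P : (j : ℕ) → Set (Fin (j + 1) → V)) (p e : ℕ → ℝ),
      (∀ j ≤ R, Dense (P j) (p j) (e j)) → (∀ j ≤ R, 0 ≤ e j) → (∀ j ≤ R, 0 ≤ p j ∧ p j ≤ 1) →
      (∀ j < R, e j + m * (M * E (j + 1)) ≤ E j) → e R ≤ E R →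
      (∀ i < m, q ≤ ((upD R)^[i] p) 0) → ∃ v : Fin m → V, GoodSeq R P v := by
  classical
  intro m
  induction m with
  | zero =>
    intro P p e _ _ _ _ _ _
    exact ⟨Fin.elim0, fun j _ σ _ => (σ 0).elim0⟩
  | succ m ih =>
    intro P p e hD he hp hstep hR hq
    have hNpos : (0:ℝ) < (Fintype.card V : ℝ) := by exact_mod_cast hN
    -- bad sets
    set Bad : ℕ → Finset V := fun j => Finset.univ.filter (fun v : V =>
      ∃ H : Fin (j + 1) → Set (Fin j → V),
      cnt {y | y ∈ P j ∩ cliques H ∧ (Fin.cons v y : Fin (j + 2) → V) ∈ P (j + 1)}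
        < p (j + 1) * cnt (P j ∩ cliques H)
          - (M * E (j + 1)) * (Fintype.card V : ℝ) ^ (j + 1)) with hBad
    have hm0 : (0:ℝ) ≤ m := by positivity
    have heE : ∀ j ≤ R, e j ≤ E j := by
      intro j hj
      rcases hj.lt_or_eq with hj | hj
      · have h1 := hstep j hj
        have h2 : 0 ≤ ((m + 1 : ℕ) : ℝ) * (M * E (j + 1)) := by
          have := hE0 (j + 1)
          positivity
        linarith
      · rw [hj]; exact hR
    have hbad : ∀ j < R, ((Bad j).card : ℝ) ≤ (Fintype.card V : ℝ) / M := by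
      intro j hj
      have h1 := bad_card (P0 := P j) (T := M * E (j + 1)) (hD (j + 1) (by omega)) hN
      have h2 : (M * E (j + 1)) * ((Bad j).card : ℝ) ≤ E (j + 1) * (Fintype.card V : ℝ) :=
        h1.trans (mul_le_mul_of_nonneg_right (heE (j + 1) (by omega)) hNpos.le)
      rw [le_div_iff₀ hM]
      have h3 : E (j + 1) * (((Bad j).card : ℝ) * M) ≤ E (j + 1) * (Fintype.card V : ℝ) := by
        linarith
      exact le_of_mul_le_mul_left h3 (hME j hj)
    have hunion : (((Finset.range R).biUnion Bad).card : ℝ) ≤ R * ((Fintype.card V : ℝ) / M) := by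
      have h1 : ((Finset.range R).biUnion Bad).card ≤ ∑ j ∈ Finset.range R, (Bad j).card :=
        Finset.card_biUnion_le
      have h2 : (((Finset.range R).biUnion Bad).card : ℝ) ≤ ∑ j ∈ Finset.range R, ((Bad j).card : ℝ) := by
        exact_mod_cast h1
      refine h2.trans ?_
      calc ∑ j ∈ Finset.range R, ((Bad j).card : ℝ)
          ≤ ∑ j ∈ Finset.range R, (Fintype.card V : ℝ) / M :=
            Finset.sum_le_sum (fun j hj => hbad j (Finset.mem_range.mp hj))
        _ = R * ((Fintype.card V : ℝ) / M) := by simp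
    -- the vertices in `P 0`
    set S : Finset V := Finset.univ.filter (fun v => (fun _ => v) ∈ P 0) with hS
    have hScard : (q - E 0) * (Fintype.card V : ℝ) ≤ (S.card : ℝ) := by
      have h1 := cnt_level_zero (hD 0 (Nat.zero_le R))
      have h2 : cnt (P 0) = (S.card : ℝ) := by
        unfold cnt
        rw [Set.ncard_eq_toFinset_card']
        congr 1
        apply Finset.card_bij' (fun y _ => y 0) (fun v _ => fun _ => v)
        · intro y hy
          rw [Set.mem_toFinset] at hy
          rw [hS, Finset.mem_filter]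
          refine ⟨Finset.mem_univ _, ?_⟩
          have : (fun _ => y 0) = y := by
            funext i
            congr 1
            exact Fin.ext (by omega)
          rw [this]
          exact hy
        · intro y _
          funext i
          congr 1
          exact Fin.ext (by omega)
        · intro v _
          rfl
        · intro v hv
          rw [hS, Finset.mem_filter] at hv
          rw [Set.mem_toFinset]
          exact hv.2
      rw [h2] at h1
      refine le_trans ?_ h1
      apply mul_le_mul_of_nonneg_right _ hNpos.le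
      have h3 := hq 0 (Nat.succ_pos m)
      simp only [Function.iterate_zero, id_eq] at h3
      have h4 := heE 0 (Nat.zero_le R)
      linarith
    have hlt : ((Finset.range R).biUnion Bad).card < S.card := by
      have h1 : (((Finset.range R).biUnion Bad).card : ℝ) < (S.card : ℝ) := by
        refine hunion.trans_lt (lt_of_lt_of_le ?_ hScard)
        have : (R:ℝ) * ((Fintype.card V : ℝ) / M) = (R / M) * (Fintype.card V : ℝ) := by ring
        rw [this]
        exact mul_lt_mul_of_pos_right hfin hNpos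
      exact_mod_cast h1
    obtain ⟨v, hvS, hvB⟩ := Finset.exists_mem_notMem_of_card_lt_card hlt
    rw [hS, Finset.mem_filter] at hvS
    have hgood : ∀ j < R, ∀ H : Fin (j + 1) → Set (Fin j → V),
        p (j + 1) * cnt (P j ∩ cliques H) - (M * E (j + 1)) * (Fintype.card V : ℝ) ^ (j + 1) ≤
        cnt {y | y ∈ P j ∩ cliques H ∧ (Fin.cons v y : Fin (j + 2) → V) ∈ P (j + 1)} := by
      intro j hj H
      by_contra hcon
      push Not at hcon
      apply hvB
      rw [Finset.mem_biUnion]
      refine ⟨j, Finset.mem_range.mpr hj, ?_⟩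
      rw [hBad]
      simp only [Finset.mem_filter, Finset.mem_univ, true_and]
      exact ⟨H, hcon⟩
    -- apply the induction hypothesis
    suffices hw : ∃ w : Fin m → V, GoodSeq R (upF R P v) w by
      obtain ⟨w, hw⟩ := hw
      exact ⟨Fin.cons v w, hw.cons hvS.2⟩
    refine ih (upF R P v) (upD R p)
      (fun j => if j < R then e j + M * E (j + 1) else e j) ?_ ?_ ?_ ?_ ?_ ?_
    · intro j hj
      by_cases hjR : j < R
      · have h1 := Dense.up (hD j hj) (he j hj) (hp (j + 1) (by omega)).1 (hp (j + 1) (by omega)).2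
          (hgood j hjR)
        have h2 : upF R P v j = {y | y ∈ P j ∧ (Fin.cons v y : Fin (j + 2) → V) ∈ P (j + 1)} := by
          ext y
          simp only [upF, Set.mem_ofPred_eq]
          constructor
          · rintro ⟨h3, h4⟩; exact ⟨h3, h4 hjR⟩
          · rintro ⟨h3, h4⟩; exact ⟨h3, fun _ => h4⟩
        rw [h2]
        simp only [upD, if_pos hjR]
        exact h1
      · have h2 : upF R P v j = P j := by
          ext y
          simp only [upF, Set.mem_ofPred_eq]
          constructor
          · rintro ⟨h3, h4⟩; exact h3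
          · intro h3; exact ⟨h3, fun h => absurd h hjR⟩
        rw [h2]
        simp only [upD, if_neg hjR]
        exact hD j hj
    · intro j hj
      have h1 := he j hj
      have h2 := hE0 (j + 1)
      split_ifs
      · positivity
      · exact h1
    · intro j hj
      unfold upD
      split_ifs with hjR
      · have h1 := hp j hj
        have h2 := hp (j + 1) (by omega)
        exact ⟨mul_nonneg h1.1 h2.1, mul_le_one₀ h1.2 h2.1 h2.2⟩
      · exact hp j hj
    · intro j hj
      simp only [if_pos hj]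
      have h1 := hstep j hj
      push_cast at h1
      linarith
    · simp only [lt_irrefl, if_false]
      exact hR
    · intro i hi
      have h1 := hq (i + 1) (by omega)
      rwa [Function.iterate_succ_apply] at h1

/-- The tuples of distinct vertices whose underlying set is red (`c = true`). -/
def Red {V : Type} [DecidableEq V] (c : Finset V → Bool) (s : ℕ) : Set (Fin (s + 1) → V) :=
  {y | Function.Injective y ∧ c (Finset.univ.image y) = true}

lemma iter_upD (R : ℕ) (ρ : ℝ) : ∀ (i j : ℕ), j ≤ R →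
    ((upD R)^[i] (fun j => if j < R then 1 else ρ)) j = ρ ^ (i.choose (R - j)) := by
  intro i
  induction i with
  | zero =>
    intro j hj
    simp only [Function.iterate_zero, id_eq]
    split_ifs with h
    · rw [Nat.choose_eq_zero_of_lt (by omega), pow_zero]
    · have : R - j = 0 := by omega
      rw [this, Nat.choose_zero_right, pow_one]
  | succ i ih =>
    intro j hj
    rw [Function.iterate_succ_apply']
    unfold upD at ih ⊢
    split_ifs with h
    · rw [ih j hj, ih (j + 1) (by omega), ← pow_add]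
      congr 1
      obtain ⟨t, ht⟩ : ∃ t, R - j = t + 1 := ⟨R - j - 1, by omega⟩
      have h2 : R - (j + 1) = t := by omega
      rw [ht, h2, Nat.choose_succ_succ', add_comm]
    · rw [ih j hj]
      have : R - j = 0 := by omega
      rw [this, Nat.choose_zero_right, Nat.choose_zero_right]

omit [Fintype V] in
/-- from a good sequence to a red clique -/
lemma clique_of_good [DecidableEq V] {c : Finset V → Bool} {R k : ℕ} (hR : 1 ≤ R) (hk : R + 1 ≤ k)
    {v : Fin k → V} (h : ∀ σ : Fin (R + 1) → Fin k, StrictMono σ → (fun i => v (σ i)) ∈ Red c R) :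
    ∃ S : Finset V, S.card = k ∧ ∀ T ⊆ S, T.card = R + 1 → c T = true := by
  have hsub : ∀ T : Finset (Fin k), T.card = R + 1 →
      Set.InjOn v T ∧ c (T.image v) = true := by
    intro T hT
    have h1 := h (T.orderEmbOfFin hT) (T.orderEmbOfFin hT).strictMono
    obtain ⟨h2, h3⟩ := h1
    have himg : Finset.univ.image (T.orderEmbOfFin hT) = T := by
      ext x
      simp only [Finset.mem_image, Finset.mem_univ, true_and]
      have := Finset.range_orderEmbOfFin T hT
      constructor
      · rintro ⟨i, rfl⟩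
        exact Finset.orderEmbOfFin_mem T hT i
      · intro hx
        have : x ∈ Set.range (T.orderEmbOfFin hT) := by rw [this]; exact hx
        exact this
    constructor
    · intro x hx y hy hxy
      rw [Finset.mem_coe, ← himg, Finset.mem_image] at hx hy
      obtain ⟨i, _, rfl⟩ := hx
      obtain ⟨j, _, rfl⟩ := hy
      rw [h2 hxy]
    · have : (Finset.univ.image (fun i => v (T.orderEmbOfFin hT i))) = T.image v := by
        change Finset.univ.image (v ∘ (T.orderEmbOfFin hT)) = T.image v
        rw [← Finset.image_image, himg]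
      rw [← this]
      exact h3
  have hinj : Function.Injective v := by
    intro a b hab
    obtain ⟨T, hT1, -, hT2⟩ := Finset.exists_subsuperset_card_eq
      (Finset.subset_univ ({a, b} : Finset (Fin k))) (n := R + 1)
      (by have := Finset.card_le_two (a := a) (b := b); omega) (by rw [Finset.card_univ, Fintype.card_fin]; exact hk)
    have h1 := (hsub T hT2).1
    exact h1 (hT1 (by simp)) (hT1 (by simp)) hab
  refine ⟨Finset.univ.image v, ?_, ?_⟩
  · rw [Finset.card_image_of_injective _ hinj, Finset.card_univ, Fintype.card_fin]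
  · intro T hT hTc
    have h1 : (Finset.univ.filter (fun i => v i ∈ T)).image v = T := by
      ext x
      simp only [Finset.mem_image, Finset.mem_filter, Finset.mem_univ, true_and]
      constructor
      · rintro ⟨i, hi, rfl⟩
        exact hi
      · intro hx
        obtain ⟨i, _, rfl⟩ := Finset.mem_image.mp (hT hx)
        exact ⟨i, hx, rfl⟩
    have h2 := (hsub (Finset.univ.filter (fun i => v i ∈ T)) (by
      rw [← hTc, ← h1, Finset.card_image_of_injective _ hinj]
      congr 1
      ext i
      simp [h1])).2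
    rw [h1] at h2
    exact h2

/-- the quantitative upper bound -/
theorem upper [DecidableEq V] {c : Finset V → Bool} {R k : ℕ} (hR : 1 ≤ R) (hk : R + 1 ≤ k)
    {ρ β : ℝ} (hρ0 : 0 < ρ) (hρ1 : ρ ≤ 1) (hβ : 0 < β) (hN : 0 < Fintype.card V)
    (hbeta : (2 * k * (R + 1)) ^ R * (2 * β) ≤ ρ ^ ((R + 1) * k.choose R))
    (h : Dense (Red c R) ρ β) :
    ∃ S : Finset V, S.card = k ∧ ∀ T ⊆ S, T.card = R + 1 → c T = true := by
  have hkpos : (0:ℝ) < k := by
    have : 0 < k := by omega
    exact_mod_cast this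
  set q : ℝ := ρ ^ (k.choose R) with hq
  have hq0 : 0 < q := by positivity
  set M : ℝ := 2 * (R + 1) / q with hM
  have hM0 : 0 < M := by positivity
  have hE0 : (k * M) ^ R * β ≤ q / 2 := by
    have h1 : (k * M) ^ R = (2 * k * (R + 1)) ^ R / q ^ R := by
      rw [hM, ← div_pow]
      congr 1
      ring
    rw [h1, div_mul_eq_mul_div, div_le_iff₀ (by positivity)]
    have h2 : ρ ^ ((R + 1) * k.choose R) = q * q ^ R := by
      rw [hq, ← pow_mul, ← pow_add]
      congr 1
      ring
    rw [h2] at hbeta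
    linarith
  obtain ⟨v, hv⟩ := greedy (V := V) R hN M q (fun j => (k * M) ^ (R - j) * β) hM0
    (fun j => by positivity) (fun j _ => by positivity) (by
      simp only [Nat.sub_zero]
      have h1 : (R:ℝ) / M < q / 2 := by
        rw [hM, div_div_eq_mul_div, div_lt_div_iff₀ (by positivity) (by norm_num)]
        nlinarith
      linarith) k (fun j => {y | j < R ∨ y ∈ Red c j}) (fun j => if j < R then 1 else ρ)
    (fun j => if j < R then 0 else β) (by
      intro j hj
      by_cases hjR : j < R
      · have h1 : {y : Fin (j + 1) → V | j < R ∨ y ∈ Red c j} = Set.univ := by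
          ext y
          simp [hjR]
        simp only [hjR, if_true, true_or]
        exact dense_univ
      · have hjR' : j = R := by omega
        subst hjR'
        have h1 : {y : Fin (j + 1) → V | j < j ∨ y ∈ Red c j} = Red c j := by
          ext y
          simp
        rw [h1]
        simp only [lt_irrefl, if_false]
        exact h) (by
      intro j _
      split_ifs
      · exact le_refl _
      · exact hβ.le) (by
      intro j _
      split_ifs
      · exact ⟨by norm_num, le_refl _⟩
      · exact ⟨hρ0.le, hρ1⟩) (by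
      intro j hj
      simp only [if_pos hj, zero_add]
      have h1 : R - j = (R - (j + 1)) + 1 := by omega
      rw [h1, pow_succ]
      apply le_of_eq
      ring) (by simp) (by
      intro i hi
      rw [iter_upD R ρ i 0 (Nat.zero_le R), Nat.sub_zero, hq]
      exact pow_le_pow_of_le_one hρ0.le hρ1 (Nat.choose_le_choose R hi.le))
  refine clique_of_good hR hk (v := v) (fun σ hσ => ?_)
  have h1 := hv R le_rfl σ hσ
  simp only [Set.mem_ofPred_eq, lt_irrefl, false_or] at h1
  exact h1

lemma le_two_rpow (k : ℕ) : (k : ℝ) ≤ (2:ℝ) ^ (k : ℝ) := by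
  rw [Real.rpow_natCast]
  exact_mod_cast (Nat.lt_two_pow_self).le

/-- the asymptotic upper bound: `2 ^ (C k^R)` vertices suffice -/
theorem upper_asymp (R : ℕ) (hR : 1 ≤ R) {ρ δ : ℝ} (hρ0 : 0 < ρ) (hρ1 : ρ ≤ 1) (hδ : 0 < δ) :
    ∃ C : ℝ, 0 < C ∧ ∀ (k : ℕ), ∀ (V : Type) [Fintype V] [DecidableEq V] (c : Finset V → Bool),
      (2:ℝ) ^ (C * (k:ℝ) ^ R) ≤ (Fintype.card V : ℝ) →
      Dense (Red c R) ρ ((Fintype.card V : ℝ) ^ (-δ)) →
      ∃ S : Finset V, S.card = k ∧ ∀ T ⊆ S, T.card = R + 1 → c T = true := by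
  set a : ℝ := - Real.logb 2 ρ with ha
  have ha0 : 0 ≤ a := by
    rw [ha]
    have := Real.logb_nonpos (b := 2) (by norm_num) hρ0.le hρ1
    linarith
  have hρa : ρ = (2:ℝ) ^ (-a) := by
    rw [ha, neg_neg, Real.rpow_logb (by norm_num) (by norm_num) hρ0]
  set C0 : ℝ := 1 + 2 * (R + 1) * R + (R + 1) * a with hC0
  have hC0pos : 0 < C0 := by positivity
  refine ⟨C0 / δ + 1, by positivity, fun k V _ _ c hN hD => ?_⟩
  have hpowk : (k:ℝ) ≤ (k:ℝ) ^ R ∨ k = 0 := by
    rcases Nat.eq_zero_or_pos k with h | h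
    · exact Or.inr h
    · left
      have : (1:ℝ) ≤ k := by exact_mod_cast h
      calc (k:ℝ) = (k:ℝ) ^ 1 := (pow_one _).symm
        _ ≤ (k:ℝ) ^ R := pow_le_pow_right₀ this hR
  rcases lt_or_ge k (R + 1) with hk | hk
  · -- small `k`: any `k` vertices
    have h1 : k ≤ Fintype.card V := by
      rcases hpowk with h | h
      · have h2 : (k:ℝ) ≤ (Fintype.card V : ℝ) := by
          calc (k:ℝ) ≤ (2:ℝ) ^ (k:ℝ) := le_two_rpow k
            _ ≤ (2:ℝ) ^ ((C0 / δ + 1) * (k:ℝ) ^ R) := by
                apply Real.rpow_le_rpow_of_exponent_le (by norm_num)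
                have : 0 ≤ C0 / δ := by positivity
                nlinarith [mul_nonneg this (by positivity : (0:ℝ) ≤ (k:ℝ) ^ R)]
            _ ≤ _ := hN
        exact_mod_cast h2
      · omega
    obtain ⟨S, -, hS⟩ := Finset.exists_subset_card_eq (s := (Finset.univ : Finset V)) (n := k)
      (by rw [Finset.card_univ]; exact h1)
    refine ⟨S, hS, fun T hT hTc => ?_⟩
    have := Finset.card_le_card hT
    omega
  · have hk1 : (1:ℝ) ≤ k := by
      have : 1 ≤ k := by omega
      exact_mod_cast this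
    have hkR : (k:ℝ) ≤ (k:ℝ) ^ R := by
      rcases hpowk with h | h
      · exact h
      · omega
    have hkR1 : (1:ℝ) ≤ (k:ℝ) ^ R := hk1.trans hkR
    have hNpos : (0:ℝ) < (Fintype.card V : ℝ) :=
      lt_of_lt_of_le (Real.rpow_pos_of_pos (by norm_num) _) hN
    refine upper hR hk hρ0 hρ1 (β := (Fintype.card V : ℝ) ^ (-δ)) (Real.rpow_pos_of_pos hNpos _)
      (by exact_mod_cast hNpos) ?_ hD
    have h1 : (Fintype.card V : ℝ) ^ (-δ) ≤ (2:ℝ) ^ (-(C0 * (k:ℝ) ^ R)) := by
      have h2 : ((2:ℝ) ^ ((C0 / δ + 1) * (k:ℝ) ^ R)) ^ (-δ) = (2:ℝ) ^ (-((C0 + δ) * (k:ℝ) ^ R)) := by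
        rw [← Real.rpow_mul (by norm_num)]
        congr 1
        field_simp
      calc (Fintype.card V : ℝ) ^ (-δ) ≤ ((2:ℝ) ^ ((C0 / δ + 1) * (k:ℝ) ^ R)) ^ (-δ) :=
            Real.rpow_le_rpow_of_nonpos (Real.rpow_pos_of_pos (by norm_num) _) hN (by linarith)
        _ = (2:ℝ) ^ (-((C0 + δ) * (k:ℝ) ^ R)) := h2
        _ ≤ _ := by
            apply Real.rpow_le_rpow_of_exponent_le (by norm_num)
            nlinarith
    have h3 : ρ ^ ((R + 1) * k.choose R) = (2:ℝ) ^ (-(a * ((R + 1) * (k.choose R : ℝ)))) := by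
      rw [hρa, ← Real.rpow_natCast, ← Real.rpow_mul (by norm_num)]
      congr 1
      push_cast
      ring
    have h4 : (k.choose R : ℝ) ≤ (k:ℝ) ^ R := by
      exact_mod_cast Nat.choose_le_pow k R
    have h5 : ((2 * k * (R + 1) : ℝ)) ^ R ≤ (2:ℝ) ^ ((2 * k * (R + 1) : ℝ) * R) := by
      rw [Real.rpow_mul (by norm_num), Real.rpow_natCast]
      apply pow_le_pow_left₀ (by positivity)
      have := le_two_rpow (2 * k * (R + 1))
      push_cast at this
      exact this
    calc (2 * (k:ℝ) * (R + 1)) ^ R * (2 * (Fintype.card V : ℝ) ^ (-δ))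
        ≤ (2:ℝ) ^ ((2 * k * (R + 1) : ℝ) * R) * (2 * (2:ℝ) ^ (-(C0 * (k:ℝ) ^ R))) := by
          apply mul_le_mul h5 _ (by positivity) (by positivity)
          linarith
      _ = (2:ℝ) ^ ((2 * k * (R + 1) : ℝ) * R + 1 - C0 * (k:ℝ) ^ R) := by
          have : (2:ℝ) * (2:ℝ) ^ (-(C0 * (k:ℝ) ^ R)) = (2:ℝ) ^ (1 - (C0 * (k:ℝ) ^ R)) := by
            rw [sub_eq_add_neg, Real.rpow_add (by norm_num), Real.rpow_one]
          rw [this, ← Real.rpow_add (by norm_num)]
          congr 1
          ring
      _ ≤ (2:ℝ) ^ (-(a * ((R + 1) * (k.choose R : ℝ)))) := by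
          apply Real.rpow_le_rpow_of_exponent_le (by norm_num)
          have h6 : a * ((R + 1) * (k.choose R : ℝ)) ≤ a * ((R + 1) * (k:ℝ) ^ R) := by
            apply mul_le_mul_of_nonneg_left _ ha0
            apply mul_le_mul_of_nonneg_left h4 (by positivity)
          have h7 : (2 * k * (R + 1) : ℝ) * R ≤ 2 * (R + 1) * R * (k:ℝ) ^ R := by
            have : (0:ℝ) ≤ 2 * (R + 1) * R := by positivity
            nlinarith [mul_le_mul_of_nonneg_left hkR this]
          rw [hC0]
          nlinarith
      _ = _ := h3.symm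

end

end Pool.Agent.W87.HR
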