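import Pool.Agent.W87.UCMain

/-!
Counting, and applications to digraphs and graphs.
-/

namespace Pool.Agent.W87.UC

open Finset

variable {V : Type*}

lemma count [DecidableEq V] (F : Finset (Finset V)) (C : Finset V) :
    2 * ∑ T ∈ F, (T ∩ C).card + (Up F C).card = C.card * F.card + (Dn F C).card := by
  classical
  have hA : ∑ T ∈ F, (T ∩ C).card = ((F ×ˢ C).filter (fun p => p.2 ∈ p.1)).card := by
    rw [card_filter, sum_product]
    refine sum_congr rfl fun T _ => ?_
    rw [← card_filter, inter_comm, filter_mem_eq_inter]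
  have htot : C.card * F.card = ((F ×ˢ C).filter (fun p => p.2 ∈ p.1)).card +
      ((F ×ˢ C).filter (fun p => ¬ p.2 ∈ p.1)).card := by
    rw [card_filter_add_card_filter_not, card_product, mul_comm]
  have hsplitA : ((F ×ˢ C).filter (fun p => p.2 ∈ p.1)).card =
      (((F ×ˢ C).filter (fun p => p.2 ∈ p.1)).filter (fun p => p.1.erase p.2 ∈ F)).card +
      (((F ×ˢ C).filter (fun p => p.2 ∈ p.1)).filter (fun p => ¬ p.1.erase p.2 ∈ F)).card :=
    (card_filter_add_card_filter_not _).symm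
  have hsplitB : ((F ×ˢ C).filter (fun p => ¬ p.2 ∈ p.1)).card =
      (((F ×ˢ C).filter (fun p => ¬ p.2 ∈ p.1)).filter (fun p => insert p.2 p.1 ∈ F)).card +
      (((F ×ˢ C).filter (fun p => ¬ p.2 ∈ p.1)).filter (fun p => ¬ insert p.2 p.1 ∈ F)).card :=
    (card_filter_add_card_filter_not _).symm
  have hDn : (((F ×ˢ C).filter (fun p => p.2 ∈ p.1)).filter (fun p => ¬ p.1.erase p.2 ∈ F)) =
      Dn F C := by
    unfold Dn
    rw [filter_filter]
  have hUp : (((F ×ˢ C).filter (fun p => ¬ p.2 ∈ p.1)).filter (fun p => ¬ insert p.2 p.1 ∈ F)) =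
      Up F C := by
    unfold Up
    rw [filter_filter]
  have hbij : (((F ×ˢ C).filter (fun p => p.2 ∈ p.1)).filter (fun p => p.1.erase p.2 ∈ F)).card =
      (((F ×ˢ C).filter (fun p => ¬ p.2 ∈ p.1)).filter (fun p => insert p.2 p.1 ∈ F)).card := by
    refine card_bij' (fun p _ => (p.1.erase p.2, p.2)) (fun p _ => (insert p.2 p.1, p.2)) ?_ ?_ ?_ ?_
    · rintro ⟨T, i⟩ hp
      simp only [mem_filter, mem_product] at hp ⊢
      exact ⟨⟨⟨hp.2, hp.1.1.2⟩, notMem_erase _ _⟩, by rw [insert_erase hp.1.2]; exact hp.1.1.1⟩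
    · rintro ⟨T, i⟩ hp
      simp only [mem_filter, mem_product] at hp ⊢
      exact ⟨⟨⟨hp.2, hp.1.1.2⟩, mem_insert_self _ _⟩, by rw [erase_insert hp.1.2]; exact hp.1.1.1⟩
    · rintro ⟨T, i⟩ hp
      simp only [mem_filter, mem_product] at hp
      simp only [insert_erase hp.1.2]
    · rintro ⟨T, i⟩ hp
      simp only [mem_filter, mem_product] at hp
      simp only [erase_insert hp.1.2]
  rw [hDn] at hsplitA
  rw [hUp] at hsplitB
  rw [hA]
  omega

lemma sum_inter [DecidableEq V] (F : Finset (Finset V)) (C : Finset V) :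
    ∑ T ∈ F, (T ∩ C).card = ∑ x ∈ C, (F.filter (fun T => x ∈ T)).card := by
  classical
  have h1 : ∀ T : Finset V, (T ∩ C).card = ∑ x ∈ C, if x ∈ T then 1 else 0 := by
    intro T
    rw [← card_filter, inter_comm, filter_mem_eq_inter]
  simp_rw [h1]
  rw [sum_comm]
  refine sum_congr rfl fun x _ => ?_
  rw [← card_filter]

lemma exists_of_average [DecidableEq V] {F : Finset (Finset V)} {C : Finset V} (hC : C.Nonempty)
    (h : C.card * F.card ≤ 2 * ∑ T ∈ F, (T ∩ C).card) :
    ∃ x ∈ C, F.card ≤ 2 * (F.filter (fun T => x ∈ T)).card := by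
  by_contra hcon
  push Not at hcon
  rw [sum_inter, mul_sum] at h
  have : ∑ x ∈ C, 2 * (F.filter (fun T => x ∈ T)).card < ∑ _x ∈ C, F.card :=
    sum_lt_sum_of_nonempty hC fun x hx => hcon x hx
  rw [sum_const, smul_eq_mul] at this
  omega

/-- main theorem, average form -/
theorem average [DecidableEq V] {C : Finset V} {F : Finset (Finset V)}
    (hU : ∀ X ∈ F, ∀ Y ∈ F, X ∪ Y ∈ F) (hC : ∀ T ∈ F, T ∪ C ∈ F)
    (hconn : ∀ x ∈ C, ∀ y ∈ C, Relation.ReflTransGen
      (fun a b => b ∈ C ∧ ∀ T ∈ F, a ∈ T → insert b T ∈ F) x y) :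
    C.card * F.card ≤ 2 * ∑ T ∈ F, (T ∩ C).card := by
  have h1 := up_le_dn hU hC hconn
  have h2 := count F C
  omega

/-- digraphs: sets in which every vertex has an out-neighbour -/
theorem sinkless [DecidableEq V] (E : Finset V) (R : V → V → Prop) (Q : Finset V → Prop)
    (hQ : ∀ S T, S ⊆ T → Q S → Q T) (F : Finset (Finset V))
    (hF : ∀ S, S ∈ F ↔ S ⊆ E ∧ Q S ∧ ∀ x ∈ S, ∃ y ∈ S, R x y) (hne : ∃ S ∈ F, S.Nonempty) :
    ∃ x ∈ E, F.card ≤ 2 * (F.filter (fun T => x ∈ T)).card := by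
  classical
  obtain ⟨S, hS, x0, hx0⟩ := hne
  rw [hF] at hS
  obtain ⟨hSE, hQS, hSR⟩ := hS
  -- the out-neighbour function
  have hg : ∀ x : V, ∃ y : V, x ∈ S → y ∈ S ∧ R x y := by
    intro x
    by_cases hx : x ∈ S
    · obtain ⟨y, hy, hxy⟩ := hSR x hx
      exact ⟨y, fun _ => ⟨hy, hxy⟩⟩
    · exact ⟨x, fun h => absurd h hx⟩
  choose g hg using hg
  have hit : ∀ n, g^[n] x0 ∈ S := by
    intro n
    induction n with
    | zero => exact hx0
    | succ n ih => rw [Function.iterate_succ_apply']; exact (hg _ ih).1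
  obtain ⟨m, n, hmn, heq⟩ : ∃ m n, m < n ∧ g^[m] x0 = g^[n] x0 := by
    obtain ⟨a, b, hab, h⟩ := Finite.exists_ne_map_eq_of_infinite
      (fun n : ℕ => (⟨g^[n] x0, hit n⟩ : {x // x ∈ S}))
    simp only [Subtype.mk.injEq] at h
    rcases lt_or_gt_of_ne hab with h1 | h1
    · exact ⟨a, b, h1, h⟩
    · exact ⟨b, a, h1, h.symm⟩
  set p := g^[m] x0 with hp
  set L := n - m with hL
  have hLpos : 0 < L := by omega
  have hper : g^[L] p = p := by
    rw [hp, ← Function.iterate_add_apply]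
    have : L + m = n := by omega
    rw [this, ← heq]
  have hperk : ∀ k, g^[L * k] p = p := by
    intro k
    induction k with
    | zero => rfl
    | succ k ih => rw [Nat.mul_succ, Function.iterate_add_apply, hper, ih]
  set C : Finset V := (range L).image (fun j => g^[j] p) with hCdef
  have hmemC : ∀ j, g^[j] p ∈ C := by
    intro j
    rw [hCdef, mem_image]
    refine ⟨j % L, mem_range.2 (Nat.mod_lt _ hLpos), ?_⟩
    conv_rhs => rw [← Nat.mod_add_div j L, Function.iterate_add_apply, hperk]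
  have hCS : C ⊆ S := by
    intro x hx
    rw [hCdef, mem_image] at hx
    obtain ⟨j, -, rfl⟩ := hx
    rw [hp, ← Function.iterate_add_apply]
    exact hit _
  have hCR : ∀ x ∈ C, g x ∈ C ∧ R x (g x) := by
    intro x hx
    have hxS := hCS hx
    rw [hCdef, mem_image] at hx
    obtain ⟨j, -, rfl⟩ := hx
    refine ⟨?_, (hg _ hxS).2⟩
    have := hmemC (j + 1)
    rwa [Function.iterate_succ_apply'] at this
  have hCne : C.Nonempty := ⟨p, hmemC 0⟩
  have hstep : ∀ x ∈ C, ∀ T ∈ F, g x ∈ T → insert x T ∈ F := by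
    intro x hx T hT hgT
    rw [hF] at hT ⊢
    refine ⟨insert_subset (hSE (hCS hx)) hT.1, hQ _ _ (subset_insert _ _) hT.2.1, ?_⟩
    intro y hy
    rw [mem_insert] at hy
    rcases hy with rfl | hy
    · exact ⟨g y, mem_insert_of_mem hgT, (hCR y hx).2⟩
    · obtain ⟨z, hz, hyz⟩ := hT.2.2 y hy
      exact ⟨z, mem_insert_of_mem hz, hyz⟩
  have hav := average (C := C) (F := F) (by
      intro X hX Y hY
      rw [hF] at hX hY ⊢
      refine ⟨union_subset hX.1 hY.1, hQ _ _ subset_union_left hX.2.1, ?_⟩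
      intro x hx
      rcases mem_union.1 hx with h | h
      · obtain ⟨y, hy, hxy⟩ := hX.2.2 x h
        exact ⟨y, mem_union_left _ hy, hxy⟩
      · obtain ⟨y, hy, hxy⟩ := hY.2.2 x h
        exact ⟨y, mem_union_right _ hy, hxy⟩)
    (by
      intro T hT
      rw [hF] at hT ⊢
      refine ⟨union_subset hT.1 (hCS.trans hSE), hQ _ _ subset_union_left hT.2.1, ?_⟩
      intro x hx
      rcases mem_union.1 hx with h | h
      · obtain ⟨y, hy, hxy⟩ := hT.2.2 x h
        exact ⟨y, mem_union_left _ hy, hxy⟩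
      · exact ⟨g x, mem_union_right _ (hCR x h).1, (hCR x h).2⟩)
    (by
      -- from `g^[a] p` we reach `g^[b] p` by steps `g x → x`
      have hback : ∀ j x, x ∈ C → Relation.ReflTransGen
          (fun a b => b ∈ C ∧ ∀ T ∈ F, a ∈ T → insert b T ∈ F) (g^[j] x) x := by
        intro j
        induction j with
        | zero => intro x _; exact Relation.ReflTransGen.refl
        | succ j ih =>
          intro x hx
          rw [Function.iterate_succ_apply]
          exact (ih (g x) (hCR x hx).1).tail ⟨hx, hstep x hx⟩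
      intro x hx y hy
      rw [hCdef, mem_image] at hx hy
      obtain ⟨a, ha, rfl⟩ := hx
      obtain ⟨b, hb, rfl⟩ := hy
      rw [mem_range] at ha hb
      have h1 := hback (L - b + a) (g^[b] p) (hmemC b)
      have h2 : g^[L - b + a] (g^[b] p) = g^[a] p := by
        rw [← Function.iterate_add_apply]
        have : L - b + a + b = a + L := by omega
        rw [this, Function.iterate_add_apply, hper]
      rwa [h2] at h1)
  obtain ⟨x, hx, hx'⟩ := exists_of_average hCne hav
  exact ⟨x, hSE (hCS hx), hx'⟩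

/-- graphs: families generated by connected sets closed under adding neighbours -/
theorem connected [DecidableEq V] (E : Finset V) (G : SimpleGraph V) (K : Set (Finset V))
    (hK : ∀ X ∈ K, (G.induce (X : Set V)).Connected)
    (hKG : ∀ X ∈ K, ∀ u ∈ X, ∀ v ∈ E, G.Adj u v → insert v X ∈ K)
    (Q : Finset V → Prop)
    (hQ : ∀ S T, S ⊆ T → Q S → Q T) (F : Finset (Finset V))
    (hF : ∀ S, S ∈ F ↔ S ⊆ E ∧ Q S ∧ ∀ x ∈ S, ∃ X ∈ K, x ∈ X ∧ X ⊆ S)
    (hne : ∃ S ∈ F, S.Nonempty) :
    ∃ x ∈ E, F.card ≤ 2 * (F.filter (fun T => x ∈ T)).card := by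
  classical
  obtain ⟨S, hS, x0, hx0⟩ := hne
  rw [hF] at hS
  obtain ⟨hSE, hQS, hSK⟩ := hS
  obtain ⟨C, hCK, hx0C, hCS⟩ := hSK x0 hx0
  have hCE := hCS.trans hSE
  have hadj : ∀ a b, b ∈ C → G.Adj a b → ∀ T ∈ F, a ∈ T → insert b T ∈ F := by
    intro a b hb hab T hT haT
    rw [hF] at hT ⊢
    refine ⟨insert_subset (hCE hb) hT.1, hQ _ _ (subset_insert _ _) hT.2.1, ?_⟩
    intro y hy
    rw [mem_insert] at hy
    rcases hy with rfl | hy
    · obtain ⟨X, hX, haX, hXT⟩ := hT.2.2 a haT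
      exact ⟨insert y X, hKG X hX a haX y (hCE hb) hab, mem_insert_self _ _,
        insert_subset_insert _ hXT⟩
    · obtain ⟨X, hX, hyX, hXT⟩ := hT.2.2 y hy
      exact ⟨X, hX, hyX, hXT.trans (subset_insert _ _)⟩
  have hav := average (C := C) (F := F) (by
      intro X hX Y hY
      rw [hF] at hX hY ⊢
      refine ⟨union_subset hX.1 hY.1, hQ _ _ subset_union_left hX.2.1, ?_⟩
      intro x hx
      rcases mem_union.1 hx with h | h
      · obtain ⟨Z, hZ, hxZ, hZX⟩ := hX.2.2 x h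
        exact ⟨Z, hZ, hxZ, hZX.trans subset_union_left⟩
      · obtain ⟨Z, hZ, hxZ, hZY⟩ := hY.2.2 x h
        exact ⟨Z, hZ, hxZ, hZY.trans subset_union_right⟩)
    (by
      intro T hT
      rw [hF] at hT ⊢
      refine ⟨union_subset hT.1 hCE, hQ _ _ subset_union_left hT.2.1, ?_⟩
      intro x hx
      rcases mem_union.1 hx with h | h
      · obtain ⟨Z, hZ, hxZ, hZX⟩ := hT.2.2 x h
        exact ⟨Z, hZ, hxZ, hZX.trans subset_union_left⟩
      · exact ⟨C, hCK, h, subset_union_right⟩)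
    (by
      intro x hx y hy
      have hreach := (hK C hCK).preconnected ⟨x, hx⟩ ⟨y, hy⟩
      rw [SimpleGraph.reachable_iff_reflTransGen] at hreach
      have := Relation.ReflTransGen.lift (r := (G.induce (C : Set V)).Adj)
        (p := fun a b => b ∈ C ∧ ∀ T ∈ F, a ∈ T → insert b T ∈ F)
        (f := fun z : ((C : Finset V) : Set V) => (z : V)) (by
          intro a b hab
          exact ⟨b.2, hadj _ _ b.2 hab⟩) _ _ hreach
      exact this)
  obtain ⟨x, hx, hx'⟩ := exists_of_average ⟨x0, hx0C⟩ hav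
  exact ⟨x, hCE hx, hx'⟩

end Pool.Agent.W87.UC
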