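import Pool.Agent.W87.UCPaths

/-!
Union-closed families with a strongly connected carrying set.
-/

namespace Pool.Agent.W87.UC

open Finset

variable {V : Type*}

/-- the path from `k` to `i` as a set -/
noncomputable def P {C : Finset V} {A : V → V → Prop} (S : Sys C A) (i k : V) : Finset V := by
  classical exact C.filter (fun z => On S.N i k z)

lemma mem_P {C : Finset V} {A : V → V → Prop} (S : Sys C A) {i k z : V} :
    z ∈ P S i k ↔ z ∈ C ∧ On S.N i k z := by
  classical
  unfold P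
  rw [mem_filter]

lemma mem_P' {C : Finset V} {A : V → V → Prop} (S : Sys C A) {i k z : V} (hk : k ∈ C) (hi : i ∈ C) :
    z ∈ P S i k ↔ On S.N i k z := by
  rw [mem_P]
  exact ⟨fun h => h.2, fun h => ⟨S.on_mem hk hi h, h⟩⟩

lemma P_self [DecidableEq V] {C : Finset V} {A : V → V → Prop} (S : Sys C A) {i : V} (hi : i ∈ C) :
    P S i i = {i} := by
  ext z
  rw [mem_P' S hi hi, mem_singleton]
  exact ⟨fun h => S.on_self h, fun h => by rw [h]; exact On.refl _⟩

lemma P_step [DecidableEq V] {C : Finset V} {A : V → V → Prop} (S : Sys C A) {i k : V} (hk : k ∈ C)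
    (hi : i ∈ C) (hki : k ≠ i) : P S i k = insert k (P S i (S.N k i)) := by
  ext z
  rw [mem_P' S hk hi, mem_insert, mem_P' S (S.N_mem k hk i hi hki) hi]
  constructor
  · intro h
    cases h with
    | refl => exact Or.inl rfl
    | step _ _ _ h => exact Or.inr h
  · rintro (h | h)
    · rw [h]; exact On.refl _
    · exact On.step _ _ hki h

lemma fill [DecidableEq V] {C : Finset V} {A : V → V → Prop} (S : Sys C A) {F : Finset (Finset V)}
    (hA : ∀ a b, A a b → ∀ T ∈ F, a ∈ T → insert b T ∈ F) {x i : V} (hx : x ∈ C) (hi : i ∈ C)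
    {T : Finset V} (hT : T ∈ F) (hxT : x ∈ T) : T ∪ P S i x ∈ F := by
  induction hn : S.d x i generalizing x T with
  | zero =>
    have := S.d_eq x hx i hi hn
    subst this
    rw [P_self S hi, union_eq_left.2 (by simpa using hxT)]
    exact hT
  | succ n ih =>
    have hxi : x ≠ i := by
      intro h
      subst h
      rw [S.d_self x hx] at hn
      omega
    have hN := S.N_mem x hx i hi hxi
    have h1 := S.d_N x hx i hi hxi
    have h2 := ih hN (hA _ _ (S.N_arc x hx i hi hxi) T hT hxT) (mem_insert_self _ _) (by omega)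
    have h3 : T ∪ P S i x = insert (S.N x i) T ∪ P S i (S.N x i) := by
      rw [P_step S hx hi hxi]
      have h4 : S.N x i ∈ P S i (S.N x i) := (mem_P' S hN hi).2 (On.refl _)
      ext z
      simp only [mem_union, mem_insert]
      constructor
      · rintro (h | h | h)
        · exact Or.inl (Or.inr h)
        · rw [h]; exact Or.inl (Or.inr hxT)
        · exact Or.inr h
      · rintro ((h | h) | h)
        · rw [h]; exact Or.inr (Or.inr h4)
        · exact Or.inl h
        · exact Or.inr (Or.inr h)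
    rw [h3]
    exact h2

/-- the pairs `(T, i)` with `T ∈ F`, `i ∉ T`, `T ∪ {i} ∉ F` -/
def Up [DecidableEq V] (F : Finset (Finset V)) (C : Finset V) : Finset (Finset V × V) :=
  (F ×ˢ C).filter (fun p => p.2 ∉ p.1 ∧ insert p.2 p.1 ∉ F)

/-- the pairs `(U, k)` with `U ∈ F`, `k ∈ U`, `U \ {k} ∉ F` -/
def Dn [DecidableEq V] (F : Finset (Finset V)) (C : Finset V) : Finset (Finset V × V) :=
  (F ×ˢ C).filter (fun p => p.2 ∈ p.1 ∧ p.1.erase p.2 ∉ F)

/-- the assignment for members meeting `C` -/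
def G1 [DecidableEq V] {C : Finset V} {A : V → V → Prop} (S : Sys C A) (F : Finset (Finset V))
    (T : Finset V) (i : V) (U : Finset V) (k : V) : Prop :=
  (∀ z, On S.N i k z → z ∉ T) ∧ U = T ∪ P S i k ∧ (∃ t ∈ T, t ∈ C ∧ On S.N i t k) ∧
    ∀ z, On S.N i k z → z ≠ k → T ∪ P S i z ∉ F

lemma G1_exists [DecidableEq V] {C : Finset V} {A : V → V → Prop} (S : Sys C A)
    {F : Finset (Finset V)} (hA : ∀ a b, A a b → ∀ T ∈ F, a ∈ T → insert b T ∈ F)
    {T : Finset V} {i : V} (hp : (T, i) ∈ Up F C) (hne : (T ∩ C).Nonempty) :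
    ∃ q ∈ Dn F C, G1 S F T i q.1 q.2 := by
  classical
  unfold Up at hp
  rw [mem_filter, mem_product] at hp
  obtain ⟨⟨hT, hi⟩, hiT, hins⟩ := hp
  simp only at hT hi hiT hins
  obtain ⟨t, ht, htmin⟩ := exists_min_image (T ∩ C) (fun t => S.d t i) hne
  rw [mem_inter] at ht
  have hti : t ≠ i := fun h => hiT (h ▸ ht.1)
  have hNC := S.N_mem t ht.2 i hi hti
  have hdN := S.d_N t ht.2 i hi hti
  have hK : (C.filter (fun k => On S.N i t k ∧ k ≠ t ∧ T ∪ P S i k ∈ F)).Nonempty := by
    refine ⟨S.N t i, mem_filter.2 ⟨hNC, On.step _ _ hti (On.refl _), ?_, ?_⟩⟩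
    · intro h
      rw [h] at hdN
      omega
    · have h1 := fill S hA ht.2 hi hT ht.1
      rw [P_step S ht.2 hi hti] at h1
      have h2 : T ∪ insert t (P S i (S.N t i)) = T ∪ P S i (S.N t i) := by
        rw [union_insert, insert_eq_self.2 (mem_union_left _ ht.1)]
      rwa [h2] at h1
  obtain ⟨k, hk, hkmin⟩ := exists_min_image _ (fun k => S.d k i) hK
  rw [mem_filter] at hk
  obtain ⟨hkC, htk, hkt, hkF⟩ := hk
  have hdt := S.dist ht.2 hi htk
  have hdtk : 0 < S.d t k := by
    rcases Nat.eq_zero_or_pos (S.d t k) with h | h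
    · exact absurd (S.d_eq t ht.2 k hkC h).symm hkt
    · exact h
  have hout : ∀ z, On S.N i k z → z ∉ T := by
    intro z hz hzT
    have hzC := S.on_mem hkC hi hz
    have h1 := htmin z (mem_inter.2 ⟨hzT, hzC⟩)
    have h2 := S.dist hkC hi hz
    omega
  have hnot : ∀ z, On S.N i k z → z ≠ k → T ∪ P S i z ∉ F := by
    intro z hz hzk hzF
    have hzC := S.on_mem hkC hi hz
    have h2 := S.dist hkC hi hz
    have h3 : 0 < S.d k z := by
      rcases Nat.eq_zero_or_pos (S.d k z) with h | h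
      · exact absurd (S.d_eq k hkC z hzC h).symm hzk
      · exact h
    have h4 := hkmin z (mem_filter.2 ⟨hzC, S.trans htk hz, ?_, hzF⟩)
    · omega
    · intro h
      rw [h] at h2
      omega
  have hki : k ≠ i := by
    intro h
    rw [h, P_self S hi] at hkF
    apply hins
    rwa [insert_eq, union_comm]
  refine ⟨(T ∪ P S i k, k), ?_, hout, rfl, ⟨t, ht.1, ht.2, htk⟩, hnot⟩
  unfold Dn
  rw [mem_filter, mem_product]
  refine ⟨⟨hkF, hkC⟩, mem_union_right _ ((mem_P' S hkC hi).2 (On.refl _)), ?_⟩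
  have hNk := S.N_mem k hkC i hi hki
  have hdk := S.d_N k hkC i hi hki
  have h5 : (T ∪ P S i k).erase k = T ∪ P S i (S.N k i) := by
    rw [P_step S hkC hi hki]
    ext z
    simp only [mem_erase, mem_union, mem_insert]
    constructor
    · rintro ⟨h1, h2 | h2 | h2⟩
      · exact Or.inl h2
      · exact absurd h2 h1
      · exact Or.inr h2
    · rintro (h | h)
      · refine ⟨?_, Or.inl h⟩
        intro h'
        rw [h'] at h
        exact hout k (On.refl _) h
      · refine ⟨?_, Or.inr (Or.inr h)⟩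
        intro h'
        rw [h', mem_P' S hNk hi] at h
        have := S.dist hNk hi h
        omega
  simp only
  rw [h5]
  refine hnot _ (On.step _ _ hki (On.refl _)) ?_
  intro h
  rw [h] at hdk
  omega

lemma G1_sub [DecidableEq V] {C : Finset V} {A : V → V → Prop} (S : Sys C A)
    {F : Finset (Finset V)} (hU : ∀ X ∈ F, ∀ Y ∈ F, X ∪ Y ∈ F)
    {T T' : Finset V} {i i' : V} {U : Finset V} {k : V} (hT : T ∈ F) (hT' : T' ∈ F)
    (hi : i ∈ C) (hi' : i' ∈ C) (hk : k ∈ C) (h : G1 S F T i U k) (h' : G1 S F T' i' U k) :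
    P S i k ⊆ P S i' k := by
  classical
  by_contra hcon
  have hne : (P S i k \ P S i' k).Nonempty := by
    rw [sdiff_nonempty]; exact hcon
  obtain ⟨z, hz, hzmax⟩ := exists_max_image _ (fun z => S.d z i) hne
  rw [mem_sdiff, mem_P' S hk hi, mem_P' S hk hi'] at hz
  have hzC := S.on_mem hk hi hz.1
  have hzk : z ≠ k := by
    intro h0
    apply hz.2
    rw [h0]
    exact On.refl _
  have heq : T ∪ P S i z = T ∪ T' := by
    ext x
    rw [mem_union, mem_union]
    constructor
    · rintro (hx | hx)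
      · exact Or.inl hx
      · right
        rw [mem_P' S hzC hi] at hx
        have hkx := S.trans hz.1 hx
        have hxU : x ∈ U := by
          rw [h.2.1]
          exact mem_union_right _ ((mem_P' S hk hi).2 hkx)
        rw [h'.2.1, mem_union] at hxU
        rcases hxU with hxU | hxU
        · exact hxU
        · exfalso
          rw [mem_P' S hk hi'] at hxU
          have h1 := S.o1 hk hi hkx hz.1 hx
          exact hz.2 (S.o2 hk hi' hxU h1)
    · rintro (hx | hx)
      · exact Or.inl hx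
      · have hxU : x ∈ U := by
          rw [h'.2.1]
          exact mem_union_left _ hx
        rw [h.2.1, mem_union] at hxU
        rcases hxU with hxU | hxU
        · exact Or.inl hxU
        · right
          rw [mem_P' S hk hi] at hxU
          have hxC := S.on_mem hk hi hxU
          have hxnot : ¬ On S.N i' k x := fun h0 => h'.1 x h0 hx
          rw [mem_P' S hzC hi]
          rcases S.total hz.1 hxU with h1 | h1
          · exact h1
          · have h2 := S.dist hxC hi h1
            have h3 := hzmax x (by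
              rw [mem_sdiff, mem_P' S hk hi, mem_P' S hk hi']
              exact ⟨hxU, hxnot⟩)
            have h4 : x = z := S.d_eq x hxC z hzC (by omega)
            rw [h4]
            exact On.refl _
  apply h.2.2.2 z hz.1 hzk
  rw [heq]
  exact hU _ hT _ hT'

lemma G1_inj [DecidableEq V] {C : Finset V} {A : V → V → Prop} (S : Sys C A)
    {F : Finset (Finset V)} (hU : ∀ X ∈ F, ∀ Y ∈ F, X ∪ Y ∈ F)
    {T T' : Finset V} {i i' : V} {U : Finset V} {k : V} (hT : T ∈ F) (hT' : T' ∈ F)
    (hi : i ∈ C) (hi' : i' ∈ C) (hk : k ∈ C) (h : G1 S F T i U k) (h' : G1 S F T' i' U k) :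
    T = T' ∧ i = i' := by
  have h1 := G1_sub S hU hT hT' hi hi' hk h h'
  have h2 := G1_sub S hU hT' hT hi' hi hk h' h
  have h3 := Subset.antisymm h1 h2
  have h4 : On S.N i' k i := (mem_P' S hk hi').1 (h1 ((mem_P' S hk hi).2 (S.on_target hk hi)))
  have h5 : On S.N i k i' := (mem_P' S hk hi).1 (h2 ((mem_P' S hk hi').2 (S.on_target hk hi')))
  have h6 := S.dist hk hi' h4
  have h7 := S.dist hk hi h5
  refine ⟨?_, S.d_eq i hi i' hi' (by omega)⟩
  have h8 : ∀ x, x ∈ T ↔ x ∈ U ∧ x ∉ P S i k := by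
    intro x
    rw [h.2.1, mem_union]
    constructor
    · intro hx
      exact ⟨Or.inl hx, fun h0 => h.1 x ((mem_P' S hk hi).1 h0) hx⟩
    · rintro ⟨h0 | h0, h00⟩
      · exact h0
      · exact absurd h0 h00
  have h9 : ∀ x, x ∈ T' ↔ x ∈ U ∧ x ∉ P S i' k := by
    intro x
    rw [h'.2.1, mem_union]
    constructor
    · intro hx
      exact ⟨Or.inl hx, fun h0 => h'.1 x ((mem_P' S hk hi').1 h0) hx⟩
    · rintro ⟨h0 | h0, h00⟩
      · exact h0
      · exact absurd h0 h00
  ext x
  rw [h8, h9, h3]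

/-- the elements of `C` assigned to the member `U` -/
noncomputable def I [DecidableEq V] (C : Finset V) (m : Finset V → V → Finset V) (U : Finset V) :
    Finset V :=
  C.filter (fun i => m (U \ C) i = U)

/-- `t` is `i`, or some path starting at `t` runs through all elements of `I U`, first through `i` -/
def Z [DecidableEq V] {C : Finset V} {A : V → V → Prop} (S : Sys C A) (m : Finset V → V → Finset V)
    (U : Finset V) (i t : V) : Prop :=
  t ∈ U ∧ t ∈ C ∧ (t = i ∨ ∃ j ∈ C, On S.N j t i ∧ ∀ l ∈ I C m U, On S.N j i l)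

/-- the assignment for members disjoint from `C` -/
def G2 [DecidableEq V] {C : Finset V} {A : V → V → Prop} (S : Sys C A) (m : Finset V → V → Finset V)
    (T : Finset V) (i : V) (U : Finset V) (k : V) : Prop :=
  U = m T i ∧ Z S m U i k ∧ ∀ t, Z S m U i t → S.d t i ≤ S.d k i

/-- `m T i` is a smallest member of `F` containing `i` with the same trace as `T` outside `C` -/
def IsMin [DecidableEq V] (F : Finset (Finset V)) (C : Finset V) (m : Finset V → V → Finset V) :
    Prop :=
  ∀ T ∈ F, Disjoint T C → ∀ i ∈ C, m T i ∈ F ∧ i ∈ m T i ∧ m T i \ C = T ∧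
    ∀ W ∈ F, i ∈ W → W \ C = T → (m T i).card ≤ W.card

lemma exists_min [DecidableEq V] {F : Finset (Finset V)} {C : Finset V}
    (hC : ∀ T ∈ F, T ∪ C ∈ F) : ∃ m, IsMin F C m := by
  classical
  have : ∀ T : Finset V, ∀ i : V, ∃ U, T ∈ F → Disjoint T C → i ∈ C → (U ∈ F ∧ i ∈ U ∧ U \ C = T ∧
    ∀ W ∈ F, i ∈ W → W \ C = T → U.card ≤ W.card) := by
    intro T i
    by_cases h : T ∈ F ∧ Disjoint T C ∧ i ∈ C
    · obtain ⟨hT, hd, hi⟩ := h
      have hne : (F.filter (fun U => i ∈ U ∧ U \ C = T)).Nonempty := by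
        refine ⟨T ∪ C, mem_filter.2 ⟨hC T hT, mem_union_right _ hi, ?_⟩⟩
        rw [union_sdiff_right]
        exact sdiff_eq_self_of_disjoint hd
      obtain ⟨U, hU, hmin⟩ := exists_min_image _ (fun U => U.card) hne
      rw [mem_filter] at hU
      exact ⟨U, fun _ _ _ => ⟨hU.1, hU.2.1, hU.2.2, fun W hW hiW hWT =>
        hmin W (mem_filter.2 ⟨hW, hiW, hWT⟩)⟩⟩
    · refine ⟨∅, fun hT hd hi => absurd ⟨hT, hd, hi⟩ h⟩
  choose m hm using this
  exact ⟨m, fun T hT hd i hi => hm T i hT hd hi⟩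

lemma I_min [DecidableEq V] {F : Finset (Finset V)} {C : Finset V} {m : Finset V → V → Finset V}
    (hm : IsMin F C m) {U : Finset V} (hUC : U \ C ∈ F) {i : V} (hi : i ∈ I C m U)
    {W : Finset V} (hW : W ∈ F) (hWU : W ⊆ U) (hWC : W \ C = U \ C) (hiW : i ∈ W) : W = U := by
  unfold I at hi
  rw [mem_filter] at hi
  have h := (hm (U \ C) hUC sdiff_disjoint i hi.1).2.2.2 W hW hiW hWC
  rw [hi.2] at h
  exact eq_of_subset_of_card_le hWU h

lemma sdiff_erase_of_mem [DecidableEq V] {U C : Finset V} {k : V} (hk : k ∈ C) :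
    U.erase k \ C = U \ C := by
  ext x
  simp only [mem_sdiff, mem_erase]
  constructor
  · rintro ⟨⟨_, h⟩, h'⟩; exact ⟨h, h'⟩
  · rintro ⟨h, h'⟩; exact ⟨⟨fun h0 => h' (h0 ▸ hk), h⟩, h'⟩

lemma G2_exists [DecidableEq V] {C : Finset V} {A : V → V → Prop} (S : Sys C A)
    {F : Finset (Finset V)} {m : Finset V → V → Finset V} (hm : IsMin F C m)
    {T : Finset V} {i : V} (hp : (T, i) ∈ Up F C) (hd : Disjoint T C) :
    ∃ q ∈ Dn F C, G2 S m T i q.1 q.2 := by
  classical
  unfold Up at hp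
  rw [mem_filter, mem_product] at hp
  obtain ⟨⟨hT, hi⟩, hiT, hins⟩ := hp
  simp only at hT hi hiT hins
  obtain ⟨hUF, hiU, hUC, hUmin⟩ := hm T hT hd i hi
  set U := m T i with hUdef
  have hUCF : U \ C ∈ F := by rw [hUC]; exact hT
  have hiI : i ∈ I C m U := by
    unfold I
    rw [mem_filter, hUC]
    exact ⟨hi, rfl⟩
  have hne : (U.filter (fun t => Z S m U i t)).Nonempty :=
    ⟨i, mem_filter.2 ⟨hiU, hiU, hi, Or.inl rfl⟩⟩
  obtain ⟨k, hk, hkmax⟩ := exists_max_image _ (fun t => S.d t i) hne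
  rw [mem_filter] at hk
  have hkmax' : ∀ t, Z S m U i t → S.d t i ≤ S.d k i := fun t ht =>
    hkmax t (mem_filter.2 ⟨ht.1, ht⟩)
  refine ⟨(U, k), ?_, rfl, hk.2, hkmax'⟩
  unfold Dn
  rw [mem_filter, mem_product]
  refine ⟨⟨hUF, hk.2.2.1⟩, hk.1, ?_⟩
  simp only
  intro herase
  have hsub : U.erase k ⊆ U := erase_subset _ _
  have hCC := sdiff_erase_of_mem (U := U) hk.2.2.1
  by_cases hki : k = i
  · -- all elements of `I U` are `i`
    have hI : ∀ l ∈ I C m U, l = i := by
      intro l hl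
      by_contra hli
      have hlU : l ∈ U := by
        have hl' := hl
        unfold I at hl'
        rw [mem_filter] at hl'
        have := (hm (U \ C) hUCF sdiff_disjoint l hl'.1).2.1
        rwa [hl'.2] at this
      have := I_min hm hUCF hl herase hsub hCC (mem_erase.2 ⟨by rw [hki]; exact hli, hlU⟩)
      have h2 : k ∉ U.erase k := notMem_erase _ _
      rw [this] at h2
      exact h2 hk.1
    have hsingle : ∀ t ∈ U, t ∈ C → t = i := by
      intro t htU htC
      by_contra hti
      have hZ : Z S m U i t := ⟨htU, htC, Or.inr ⟨i, hi, S.on_target htC hi, fun l hl => by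
        rw [hI l hl]; exact On.refl _⟩⟩
      have h1 := hkmax' t hZ
      rw [hki, S.d_self i hi] at h1
      exact hti (S.d_eq t htC i hi (by omega))
    apply hins
    have : insert i T = U := by
      ext x
      rw [mem_insert]
      constructor
      · rintro (h | h)
        · rw [h]; exact hiU
        · rw [← hUC, mem_sdiff] at h
          exact h.1
      · intro h
        by_cases hxC : x ∈ C
        · exact Or.inl (hsingle x h hxC)
        · right
          rw [← hUC, mem_sdiff]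
          exact ⟨h, hxC⟩
    rw [this]
    exact hUF
  · have := I_min hm hUCF hiI herase hsub hCC (mem_erase.2 ⟨fun h => hki h.symm, hiU⟩)
    have h2 : k ∉ U.erase k := notMem_erase _ _
    rw [this] at h2
    exact h2 hk.1

lemma G2_inj [DecidableEq V] {C : Finset V} {A : V → V → Prop} (S : Sys C A)
    {F : Finset (Finset V)} {m : Finset V → V → Finset V} (hm : IsMin F C m)
    {T T' : Finset V} {i i' : V} {U : Finset V} {k : V} (hT : T ∈ F) (hT' : T' ∈ F)
    (hi : i ∈ C) (hi' : i' ∈ C) (hd : Disjoint T C) (hd' : Disjoint T' C)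
    (h : G2 S m T i U k) (h' : G2 S m T' i' U k) : T = T' ∧ i = i' := by
  have h1 := (hm T hT hd i hi).2.2.1
  have h2 := (hm T' hT' hd' i' hi').2.2.1
  rw [← h.1] at h1
  rw [← h'.1] at h2
  have hTT : T = T' := by rw [← h1, h2]
  refine ⟨hTT, ?_⟩
  have hiI : i ∈ I C m U := by
    unfold I
    rw [mem_filter, h1]
    exact ⟨hi, h.1.symm⟩
  have hiI' : i' ∈ I C m U := by
    unfold I
    rw [mem_filter, h2]
    exact ⟨hi', h'.1.symm⟩
  obtain ⟨_, hkC, hk⟩ := h.2.1
  obtain ⟨_, -, hk'⟩ := h'.2.1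
  rcases hk with hk | ⟨j, hj, hji, hjl⟩
  · rcases hk' with hk' | ⟨j', hj', hji', hjl'⟩
    · rw [← hk, ← hk']
    · rw [hk] at hji'
      have h3 := hjl' i hiI
      exact S.antisymm hi hi' hj' hji' h3
  · rcases hk' with hk' | ⟨j', hj', hji', hjl'⟩
    · rw [hk'] at hji
      have h3 := hjl i' hiI'
      exact S.antisymm hi hi' hj h3 hji
    · have h3 := hjl i' hiI'
      have h4 := hjl' i hiI
      -- on the path from `k` to `j`: `i` before `i'`
      have h5 : On S.N i' k i := S.o1 hkC hj (S.trans hji h3) hji h3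
      have h6 : On S.N i k i' := S.o1 hkC hj' (S.trans hji' h4) hji' h4
      have h7 := S.dist hkC hi' h5
      have h8 := S.dist hkC hi h6
      exact S.d_eq i hi i' hi' (by omega)

lemma G12_disj [DecidableEq V] {C : Finset V} {A : V → V → Prop} (S : Sys C A)
    {F : Finset (Finset V)} {m : Finset V → V → Finset V} (hm : IsMin F C m)
    {T T' : Finset V} {i i' : V} {U : Finset V} {k : V} (hT : T ∈ F) (hT' : T' ∈ F)
    (hi : i ∈ C) (hi' : i' ∈ C) (hk : k ∈ C) (hd : Disjoint T C)
    (h : G2 S m T i U k) (h' : G1 S F T' i' U k) : False := by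
  have h1 := (hm T hT hd i hi).2.2.1
  rw [← h.1] at h1
  have hUCF : U \ C ∈ F := by rw [h1]; exact hT
  have hiI : i ∈ I C m U := by
    unfold I
    rw [mem_filter, h1]
    exact ⟨hi, h.1.symm⟩
  obtain ⟨hout, hU, ⟨t, htT, htC, htk⟩, -⟩ := h'
  have hT'U : T' ⊆ U := by rw [hU]; exact subset_union_left
  have hkT' : k ∉ T' := hout k (On.refl _)
  have hkU : k ∈ U := by rw [hU]; exact mem_union_right _ ((mem_P' S hk hi').2 (On.refl _))
  have hT'C : T' \ C = U \ C := by
    rw [hU]
    ext x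
    simp only [mem_sdiff, mem_union]
    constructor
    · rintro ⟨h2, h3⟩; exact ⟨Or.inl h2, h3⟩
    · rintro ⟨h2 | h2, h3⟩
      · exact ⟨h2, h3⟩
      · exact absurd ((mem_P S).1 h2).1 h3
  have hne : T' ≠ U := fun h2 => hkT' (h2 ▸ hkU)
  -- the elements of `I U` are on the path from `k` to `i'`
  have hon : ∀ l ∈ I C m U, On S.N i' k l := by
    intro l hl
    by_contra hl'
    have hlC : l ∈ C := by
      unfold I at hl
      exact (mem_filter.1 hl).1
    have hlU : l ∈ U := by
      have h2 := hl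
      unfold I at h2
      rw [mem_filter] at h2
      have := (hm (U \ C) hUCF sdiff_disjoint l h2.1).2.1
      rwa [h2.2] at this
    have hlT' : l ∈ T' := by
      rw [hU, mem_union, mem_P' S hk hi'] at hlU
      rcases hlU with h2 | h2
      · exact h2
      · exact absurd h2 hl'
    exact hne (I_min hm hUCF hl hT' hT'U hT'C hlT')
  have hki := hon i hiI
  have hfirst : ∀ l ∈ I C m U, On S.N i' i l := by
    intro l hl
    obtain ⟨-, -, hkk⟩ := h.2.1
    rcases hkk with hkk | ⟨j, hj, hji, hjl⟩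
    · rw [← hkk]; exact hon l hl
    · rcases S.total hki (hon l hl) with h2 | h2
      · exact h2
      · have hlC := S.on_mem hk hi' (hon l hl)
        have h3 : On S.N i k l := S.o1 hk hi' hki (hon l hl) h2
        have h4 : On S.N l k i := S.o1 hk hj (S.trans hji (hjl l hl)) hji (hjl l hl)
        have h5 := S.dist hk hi h3
        have h6 := S.dist hk hlC h4
        have h7 : i = l := S.d_eq i hi l hlC (by omega)
        rw [← h7]
        exact On.refl _
  have hti : On S.N i' t i := S.trans htk hki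
  have hZ : Z S m U i t := ⟨hT'U htT, htC, Or.inr ⟨i', hi', hti, hfirst⟩⟩
  have h2 := h.2.2 t hZ
  have h3 := S.dist htC hi' htk
  have h4 := S.dist hk hi' hki
  have h5 := S.dist htC hi' hti
  have h6 : S.d t k = 0 := by omega
  have h7 := S.d_eq t htC k hk h6
  exact hkT' (h7 ▸ htT)

theorem up_le_dn [DecidableEq V] {C : Finset V} {F : Finset (Finset V)}
    (hU : ∀ X ∈ F, ∀ Y ∈ F, X ∪ Y ∈ F) (hC : ∀ T ∈ F, T ∪ C ∈ F)
    (hconn : ∀ x ∈ C, ∀ y ∈ C, Relation.ReflTransGen
      (fun a b => b ∈ C ∧ ∀ T ∈ F, a ∈ T → insert b T ∈ F) x y) :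
    (Up F C).card ≤ (Dn F C).card := by
  classical
  obtain ⟨S⟩ := exists_sys C (fun a b => ∀ T ∈ F, a ∈ T → insert b T ∈ F) hconn
  obtain ⟨m, hm⟩ := exists_min hC
  have hmemUp : ∀ p ∈ Up F C, p.1 ∈ F ∧ p.2 ∈ C := by
    intro p hp
    unfold Up at hp
    rw [mem_filter, mem_product] at hp
    exact hp.1
  have hmemDn : ∀ p ∈ Dn F C, p.1 ∈ F ∧ p.2 ∈ C := by
    intro p hp
    unfold Dn at hp
    rw [mem_filter, mem_product] at hp
    exact hp.1
  refine card_le_card_of_forall_subsingleton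
    (fun p q => ((p.1 ∩ C).Nonempty ∧ G1 S F p.1 p.2 q.1 q.2) ∨
      (Disjoint p.1 C ∧ G2 S m p.1 p.2 q.1 q.2)) ?_ ?_
  · rintro ⟨T, i⟩ hp
    by_cases hne : (T ∩ C).Nonempty
    · obtain ⟨q, hq, hG⟩ := G1_exists S (fun a b hab T hT ha => hab T hT ha) hp hne
      exact ⟨q, hq, Or.inl ⟨hne, hG⟩⟩
    · have hd : Disjoint T C := by
        rw [disjoint_iff_inter_eq_empty]
        exact not_nonempty_iff_eq_empty.1 hne
      obtain ⟨q, hq, hG⟩ := G2_exists S hm hp hd
      exact ⟨q, hq, Or.inr ⟨hd, hG⟩⟩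
  · rintro ⟨U, k⟩ hq ⟨T, i⟩ hp ⟨T', i'⟩ hp'
    simp only [Set.mem_ofPred_eq] at hp hp'
    obtain ⟨hpU, hp⟩ := hp
    obtain ⟨hpU', hp'⟩ := hp'
    have hT := hmemUp _ hpU
    have hT' := hmemUp _ hpU'
    have hk := (hmemDn _ hq).2
    simp only at hT hT' hk
    rcases hp with ⟨-, hG⟩ | ⟨hd, hG⟩
    · rcases hp' with ⟨-, hG'⟩ | ⟨hd', hG'⟩
      · obtain ⟨h1, h2⟩ := G1_inj S hU hT.1 hT'.1 hT.2 hT'.2 hk hG hG'
        rw [h1, h2]
      · exact (G12_disj S hm hT'.1 hT.1 hT'.2 hT.2 hk hd' hG' hG).elim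
    · rcases hp' with ⟨-, hG'⟩ | ⟨hd', hG'⟩
      · exact (G12_disj S hm hT.1 hT'.1 hT.2 hT'.2 hk hd hG hG').elim
      · obtain ⟨h1, h2⟩ := G2_inj S hm hT.1 hT'.1 hT.2 hT'.2 hd hd' hG hG'
        rw [h1, h2]

end Pool.Agent.W87.UC
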