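import Mathlib

/-!
Canonical shortest paths in a finite digraph, used for union-closed families.
-/

namespace Pool.Agent.W87.UC

open Finset

/-- `z` lies on the canonical path from `x` to `i`, where `N x i` is the vertex after `x` on the
path from `x` to `i`. -/
inductive On {V : Type*} (N : V → V → V) (i : V) : V → V → Prop
  | refl (x : V) : On N i x x
  | step (x z : V) : x ≠ i → On N i (N x i) z → On N i x z

/-- A system of canonical shortest paths in the digraph `A` on `C`. -/
structure Sys {V : Type*} (C : Finset V) (A : V → V → Prop) where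
  d : V → V → ℕ
  N : V → V → V
  d_self : ∀ x ∈ C, d x x = 0
  d_eq : ∀ x ∈ C, ∀ y ∈ C, d x y = 0 → x = y
  tri : ∀ x ∈ C, ∀ y ∈ C, ∀ z ∈ C, d x z ≤ d x y + d y z
  N_mem : ∀ x ∈ C, ∀ y ∈ C, x ≠ y → N x y ∈ C
  N_arc : ∀ x ∈ C, ∀ y ∈ C, x ≠ y → A x (N x y)
  d_N : ∀ x ∈ C, ∀ y ∈ C, x ≠ y → d (N x y) y + 1 = d x y
  d_arc : ∀ x ∈ C, ∀ y ∈ C, A x y → d x y ≤ 1
  N_unique : ∀ x ∈ C, ∀ w ∈ C, ∀ i ∈ C, x ≠ w → x ≠ i → d (N x i) w + 1 = d x w →
    d (N x w) i + 1 = d x i → N x w = N x i

/-- `y` can be reached from `x` by `n` arcs inside `C` -/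
def R {V : Type*} (C : Finset V) (A : V → V → Prop) : ℕ → V → V → Prop
  | 0, x, y => x = y
  | n + 1, x, y => ∃ z ∈ C, A x z ∧ R C A n z y

lemma R_add {V : Type*} {C : Finset V} {A : V → V → Prop} {m n : ℕ} {x y z : V}
    (h : R C A m x y) (h' : R C A n y z) : R C A (m + n) x z := by
  induction m generalizing x with
  | zero => simp only [R] at h; subst h; simpa using h'
  | succ m ih =>
    obtain ⟨w, hw, hxw, h⟩ := h
    have : m + 1 + n = (m + n) + 1 := by omega
    rw [this]
    exact ⟨w, hw, hxw, ih h⟩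

theorem exists_sys {V : Type*} (C : Finset V) (A : V → V → Prop)
    (hconn : ∀ x ∈ C, ∀ y ∈ C, Relation.ReflTransGen (fun a b => b ∈ C ∧ A a b) x y) :
    Nonempty (Sys C A) := by
  classical
  have hR : ∀ x ∈ C, ∀ y ∈ C, ∃ n, R C A n x y := by
    intro x hx y hy
    have h := hconn x hx y hy
    clear hx hy
    induction h using Relation.ReflTransGen.head_induction_on with
    | refl => exact ⟨0, rfl⟩
    | head h _ ih =>
      obtain ⟨n, hn⟩ := ih
      exact ⟨n + 1, _, h.1, h.2, hn⟩
  obtain ⟨rk, hrk⟩ : ∃ rk : V → ℕ, Set.InjOn rk (C : Set V) :=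
    Set.countable_iff_exists_injOn.1 C.countable_toSet
  let d : V → V → ℕ := fun x y => if h : ∃ n, R C A n x y then Nat.find h else 0
  have hd : ∀ x ∈ C, ∀ y ∈ C, R C A (d x y) x y := by
    intro x hx y hy
    have h := hR x hx y hy
    simp only [d, dif_pos h]
    exact Nat.find_spec h
  have hdle : ∀ x y n, R C A n x y → d x y ≤ n := by
    intro x y n hn
    have h : ∃ n, R C A n x y := ⟨n, hn⟩
    simp only [d, dif_pos h]
    exact Nat.find_min' h hn
  have tri : ∀ x ∈ C, ∀ y ∈ C, ∀ z ∈ C, d x z ≤ d x y + d y z := by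
    intro x hx y hy z hz
    exact hdle _ _ _ (R_add (hd x hx y hy) (hd y hy z hz))
  have d_arc : ∀ x ∈ C, ∀ y ∈ C, A x y → d x y ≤ 1 := by
    intro x _ y hy hxy
    exact hdle _ _ _ ⟨y, hy, hxy, rfl⟩
  have d_eq : ∀ x ∈ C, ∀ y ∈ C, d x y = 0 → x = y := by
    intro x hx y hy h
    have := hd x hx y hy
    rw [h] at this
    exact this
  have hcand : ∀ x ∈ C, ∀ y ∈ C, x ≠ y → (C.filter (fun z => A x z ∧ d z y + 1 = d x y)).Nonempty := by
    intro x hx y hy hxy
    have h := hd x hx y hy
    obtain ⟨n, hn⟩ : ∃ n, d x y = n + 1 := by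
      rcases Nat.eq_zero_or_pos (d x y) with h0 | h0
      · exact absurd (d_eq x hx y hy h0) hxy
      · exact ⟨d x y - 1, by omega⟩
    rw [hn] at h
    obtain ⟨z, hz, hxz, hzy⟩ := h
    refine ⟨z, mem_filter.2 ⟨hz, hxz, ?_⟩⟩
    have h1 := hdle _ _ _ hzy
    have h2 := tri x hx z hz y hy
    have h3 := d_arc x hx z hz hxz
    omega
  have hmin : ∀ x y, ∃ z, (C.filter (fun z => A x z ∧ d z y + 1 = d x y)).Nonempty →
      z ∈ C.filter (fun z => A x z ∧ d z y + 1 = d x y) ∧
      ∀ w ∈ C.filter (fun z => A x z ∧ d z y + 1 = d x y), rk z ≤ rk w := by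
    intro x y
    by_cases h : (C.filter (fun z => A x z ∧ d z y + 1 = d x y)).Nonempty
    · obtain ⟨z, hz, hz'⟩ := exists_min_image _ rk h
      exact ⟨z, fun _ => ⟨hz, hz'⟩⟩
    · exact ⟨x, fun h' => absurd h' h⟩
  choose N hN using hmin
  have hN' : ∀ x ∈ C, ∀ y ∈ C, x ≠ y → N x y ∈ C ∧ A x (N x y) ∧ d (N x y) y + 1 = d x y := by
    intro x hx y hy hxy
    have := (hN x y (hcand x hx y hy hxy)).1
    rw [mem_filter] at this
    exact this
  refine ⟨⟨d, N, ?_, d_eq, tri, fun x hx y hy h => (hN' x hx y hy h).1,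
    fun x hx y hy h => (hN' x hx y hy h).2.1, fun x hx y hy h => (hN' x hx y hy h).2.2, d_arc, ?_⟩⟩
  · intro x hx
    exact Nat.le_zero.1 (hdle _ _ _ rfl)
  · intro x hx w hw i hi hxw hxi h1 h2
    have hw' := hN x w (hcand x hx w hw hxw)
    have hi' := hN x i (hcand x hx i hi hxi)
    have ha := hN' x hx w hw hxw
    have hb := hN' x hx i hi hxi
    refine hrk ha.1 hb.1 (le_antisymm ?_ ?_)
    · exact hw'.2 _ (mem_filter.2 ⟨hb.1, hb.2.1, h1⟩)
    · exact hi'.2 _ (mem_filter.2 ⟨ha.1, ha.2.1, h2⟩)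

namespace Sys

variable {V : Type*} {C : Finset V} {A : V → V → Prop} (S : Sys C A)

lemma on_mem {x i z : V} (hx : x ∈ C) (hi : i ∈ C) (h : On S.N i x z) : z ∈ C := by
  induction h with
  | refl x => exact hx
  | step x z hxi _ ih => exact ih (S.N_mem x hx i hi hxi)

lemma on_target {x i : V} (hx : x ∈ C) (hi : i ∈ C) : On S.N i x i := by
  induction hn : S.d x i generalizing x with
  | zero => rw [S.d_eq x hx i hi hn]; exact On.refl _
  | succ n ih =>
    by_cases hxi : x = i
    · rw [hxi]; exact On.refl _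
    · refine On.step _ _ hxi (ih (S.N_mem x hx i hi hxi) ?_)
      have := S.d_N x hx i hi hxi
      omega

lemma dist {x i z : V} (hx : x ∈ C) (hi : i ∈ C) (h : On S.N i x z) :
    S.d x z + S.d z i = S.d x i := by
  induction h with
  | refl x => rw [S.d_self x hx]; omega
  | step x z hxi h' ih =>
    have hN := S.N_mem x hx i hi hxi
    have hz := S.on_mem hN hi h'
    have h1 := ih hN
    have h2 := S.d_N x hx i hi hxi
    have h3 := S.tri x hx _ hN z hz
    have h4 := S.d_arc x hx _ hN (S.N_arc x hx i hi hxi)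
    have h5 := S.tri x hx z hz i hi
    omega

lemma trans {x y z i : V} (h : On S.N i x y) (h' : On S.N i y z) : On S.N i x z := by
  induction h with
  | refl x => exact h'
  | step x y hxi _ ih => exact On.step _ _ hxi (ih h')

lemma total {x z w i : V} (h : On S.N i x z) (h' : On S.N i x w) :
    On S.N i z w ∨ On S.N i w z := by
  induction h with
  | refl x => exact Or.inl h'
  | step x z hxi h ih =>
    cases h' with
    | refl => exact Or.inr (On.step _ _ hxi h)
    | step _ _ _ h' => exact ih h'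

lemma key {x i w : V} (hx : x ∈ C) (hi : i ∈ C) (h : On S.N i x w) (hxw : x ≠ w) :
    x ≠ i ∧ On S.N i (S.N x i) w ∧ S.N x w = S.N x i := by
  have hd := S.dist hx hi h
  have hw := S.on_mem hx hi h
  cases h with
  | refl => exact absurd rfl hxw
  | step _ _ hxi h' =>
    refine ⟨hxi, h', ?_⟩
    have hN := S.N_mem x hx i hi hxi
    have hNw := S.N_mem x hx w hw hxw
    have h1 := S.dist hN hi h'
    have h2 := S.d_N x hx i hi hxi
    have h3 := S.d_N x hx w hw hxw
    have h4 := S.tri _ hNw w hw i hi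
    have h5 := S.tri x hx _ hNw i hi
    have h6 := S.d_arc x hx _ hNw (S.N_arc x hx w hw hxw)
    exact S.N_unique x hx w hw i hi hxw hxi (by omega) (by omega)

/-- if `z` and `w` are on the path from `x` to `i` in this order, then `z` is on the path from `x` to
`w` -/
lemma o1 {x i w z : V} (hx : x ∈ C) (hi : i ∈ C) (hw : On S.N i x w) (hz : On S.N i x z)
    (hzw : On S.N i z w) : On S.N w x z := by
  induction hz with
  | refl x => exact On.refl _
  | step x z hxi h' ih =>
    by_cases hxw : x = w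
    · subst hxw
      have hz : On S.N i x z := On.step _ _ hxi h'
      have hzC := S.on_mem hx hi hz
      have h1 := S.dist hx hi hz
      have h2 := S.dist hzC hi hzw
      have : x = z := S.d_eq x hx z hzC (by omega)
      rw [this]; exact On.refl _
    · obtain ⟨-, hNw, hN⟩ := S.key hx hi hw hxw
      refine On.step _ _ hxw ?_
      rw [hN]
      exact ih (S.N_mem x hx i hi hxi) hNw hzw

lemma o2 {x i w z : V} (hx : x ∈ C) (hi : i ∈ C) (hw : On S.N i x w) (hz : On S.N w x z) :
    On S.N i x z := by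
  have hwC := S.on_mem hx hi hw
  induction hz with
  | refl x => exact On.refl _
  | step x z hxw h' ih =>
    obtain ⟨hxi, hNw, hN⟩ := S.key hx hi hw hxw
    refine On.step _ _ hxi ?_
    rw [hN] at h' ih
    exact ih (S.N_mem x hx i hi hxi) hNw

lemma on_self {i z : V} (h : On S.N i i z) : z = i := by
  cases h with
  | refl => rfl
  | step _ _ h _ => exact absurd rfl h

lemma antisymm {x y i : V} (hx : x ∈ C) (hy : y ∈ C) (hi : i ∈ C) (h : On S.N i x y)
    (h' : On S.N i y x) : x = y := by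
  have h1 := S.dist hx hi h
  have h2 := S.dist hy hi h'
  exact S.d_eq x hx y hy (by omega)

end Sys

end Pool.Agent.W87.UC
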