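import Pool.Agent.W87.UCCount

/-!
The case of equality.
-/

namespace Pool.Agent.W87.UC

open Finset

variable {V : Type*}

/-- the relation between upward and downward pairs -/
def Rel [DecidableEq V] {C : Finset V} {A : V → V → Prop} (S : Sys C A) (F : Finset (Finset V))
    (m : Finset V → V → Finset V) (p q : Finset V × V) : Prop :=
  ((p.1 ∩ C).Nonempty ∧ G1 S F p.1 p.2 q.1 q.2) ∨ (Disjoint p.1 C ∧ G2 S m p.1 p.2 q.1 q.2)

lemma mem_Up [DecidableEq V] {F : Finset (Finset V)} {C : Finset V} {p : Finset V × V} :
    p ∈ Up F C ↔ (p.1 ∈ F ∧ p.2 ∈ C) ∧ p.2 ∉ p.1 ∧ insert p.2 p.1 ∉ F := by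
  unfold Up
  rw [mem_filter, mem_product]

lemma mem_Dn [DecidableEq V] {F : Finset (Finset V)} {C : Finset V} {p : Finset V × V} :
    p ∈ Dn F C ↔ (p.1 ∈ F ∧ p.2 ∈ C) ∧ p.2 ∈ p.1 ∧ p.1.erase p.2 ∉ F := by
  unfold Dn
  rw [mem_filter, mem_product]

lemma exists_f [DecidableEq V] {C : Finset V} {F : Finset (Finset V)}
    (hU : ∀ X ∈ F, ∀ Y ∈ F, X ∪ Y ∈ F) (hC : ∀ T ∈ F, T ∪ C ∈ F)
    (hconn : ∀ x ∈ C, ∀ y ∈ C, Relation.ReflTransGen
      (fun a b => b ∈ C ∧ ∀ T ∈ F, a ∈ T → insert b T ∈ F) x y) :
    ∃ (S : Sys C (fun a b => ∀ T ∈ F, a ∈ T → insert b T ∈ F)) (m : Finset V → V → Finset V)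
      (f : Finset V × V → Finset V × V), IsMin F C m ∧
      (∀ p ∈ Up F C, f p ∈ Dn F C ∧ Rel S F m p (f p)) ∧
      ∀ p ∈ Up F C, ∀ p' ∈ Up F C, f p = f p' → p = p' := by
  classical
  obtain ⟨S⟩ := exists_sys C (fun a b => ∀ T ∈ F, a ∈ T → insert b T ∈ F) hconn
  obtain ⟨m, hm⟩ := exists_min hC
  have hex : ∀ p : Finset V × V, ∃ q, p ∈ Up F C → q ∈ Dn F C ∧ Rel S F m p q := by
    rintro ⟨T, i⟩
    by_cases hp : (T, i) ∈ Up F C
    · by_cases hne : (T ∩ C).Nonempty
      · obtain ⟨q, hq, hG⟩ := G1_exists S (fun a b hab T hT ha => hab T hT ha) hp hne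
        exact ⟨q, fun _ => ⟨hq, Or.inl ⟨hne, hG⟩⟩⟩
      · have hd : Disjoint T C := by
          rw [disjoint_iff_inter_eq_empty]
          exact not_nonempty_iff_eq_empty.1 hne
        obtain ⟨q, hq, hG⟩ := G2_exists S hm hp hd
        exact ⟨q, fun _ => ⟨hq, Or.inr ⟨hd, hG⟩⟩⟩
    · exact ⟨(T, i), fun h => absurd h hp⟩
  choose f hf using hex
  refine ⟨S, m, f, hm, fun p hp => hf p hp, ?_⟩
  rintro ⟨T, i⟩ hp ⟨T', i'⟩ hp' heq
  have h1 := hf _ hp
  have h2 := hf _ hp'
  rw [← heq] at h2
  have hT := (mem_Up.1 hp).1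
  have hT' := (mem_Up.1 hp').1
  have hk := (mem_Dn.1 h1.1).1.2
  simp only at hT hT'
  rcases h1.2 with ⟨-, hG⟩ | ⟨hd, hG⟩
  · rcases h2.2 with ⟨-, hG'⟩ | ⟨hd', hG'⟩
    · obtain ⟨h3, h4⟩ := G1_inj S hU hT.1 hT'.1 hT.2 hT'.2 hk hG hG'
      rw [h3, h4]
    · exact (G12_disj S hm hT'.1 hT.1 hT'.2 hT.2 hk hd' hG' hG).elim
  · rcases h2.2 with ⟨-, hG'⟩ | ⟨hd', hG'⟩
    · exact (G12_disj S hm hT.1 hT'.1 hT.2 hT'.2 hk hd hG hG').elim
    · obtain ⟨h3, h4⟩ := G2_inj S hm hT.1 hT'.1 hT.2 hT'.2 hd hd' hG hG'
      rw [h3, h4]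

/-- If the carry relation of a union-closed family is strongly connected on its universe and no
element lies in more than half of the members, then the family is `{∅, C}` or the power set. -/
theorem tight [DecidableEq V] {C : Finset V} {F : Finset (Finset V)}
    (hU : ∀ X ∈ F, ∀ Y ∈ F, X ∪ Y ∈ F) (hCF : C ∈ F) (hsub : ∀ T ∈ F, T ⊆ C)
    (hconn : ∀ x ∈ C, ∀ y ∈ C, Relation.ReflTransGen
      (fun a b => b ∈ C ∧ ∀ T ∈ F, a ∈ T → insert b T ∈ F) x y)
    (hle : ∀ x ∈ C, 2 * (F.filter (fun T => x ∈ T)).card ≤ F.card) :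
    F = {∅, C} ∨ F = C.powerset := by
  classical
  have hC : ∀ T ∈ F, T ∪ C ∈ F := fun T hT => hU T hT C hCF
  obtain ⟨S, m, f, hm, hf, hinj⟩ := exists_f hU hC hconn
  have hav := average hU hC hconn
  have hcount := count F C
  have hsum : 2 * ∑ T ∈ F, (T ∩ C).card = ∑ x ∈ C, 2 * (F.filter (fun T => x ∈ T)).card := by
    rw [sum_inter, mul_sum]
  have hsumle : ∑ x ∈ C, 2 * (F.filter (fun T => x ∈ T)).card ≤ ∑ _x ∈ C, F.card := sum_le_sum hle
  have hconst : ∑ _x ∈ C, F.card = C.card * F.card := by rw [sum_const, smul_eq_mul]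
  have hexact : ∀ x ∈ C, 2 * (F.filter (fun T => x ∈ T)).card = F.card := by
    have h1 : ∑ x ∈ C, 2 * (F.filter (fun T => x ∈ T)).card = ∑ _x ∈ C, F.card := by omega
    exact (sum_eq_sum_iff_of_le hle).1 h1
  have hcard : (Up F C).card = (Dn F C).card := by omega
  -- every downward pair is in the image
  have hsurj : ∀ q ∈ Dn F C, ∃ p ∈ Up F C, f p = q := by
    have h1 : (Up F C).image f ⊆ Dn F C := by
      intro q hq
      rw [mem_image] at hq
      obtain ⟨p, hp, rfl⟩ := hq
      exact (hf p hp).1
    have h2 : ((Up F C).image f).card = (Up F C).card :=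
      card_image_of_injOn fun p hp p' hp' h => hinj p hp p' hp' h
    have h3 := eq_of_subset_of_card_le h1 (by rw [h2, hcard])
    intro q hq
    rw [← h3, mem_image] at hq
    exact hq
  -- description of the preimages
  have hpre : ∀ U k, (U, k) ∈ Dn F C → (∀ T ∈ F, T ⊆ U → k ∉ T → T.Nonempty → False) →
      ∅ ∈ F ∧ ∃ i ∈ C, f (∅, i) = (U, k) ∧ m ∅ i = U ∧ i ∈ U := by
    intro U k hUk hno
    obtain ⟨⟨T, i⟩, hp, hfp⟩ := hsurj _ hUk
    have h1 := (hf _ hp).2
    rw [hfp] at h1
    have h2 := (mem_Up.1 hp).1
    simp only at h2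
    rcases h1 with ⟨hne, hG⟩ | ⟨hd, hG⟩
    · exfalso
      simp only at hne hG
      refine hno T h2.1 ?_ (hG.1 k (On.refl _)) (hne.mono inter_subset_left)
      rw [hG.2.1]
      exact subset_union_left
    · simp only at hd hG
      have hT : T = ∅ := by
        have := hsub T h2.1
        exact disjoint_self_iff_empty _ |>.1 (hd.mono_right this)
      subst hT
      refine ⟨h2.1, i, h2.2, hfp, hG.1.symm, ?_⟩
      rw [hG.1]
      exact (hm ∅ h2.1 (disjoint_empty_left _) i h2.2).2.1
  -- the empty set is a member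
  have hempty : ∅ ∈ F := by
    obtain ⟨M, hM, hMmin⟩ := exists_min_image F (fun T => T.card) ⟨C, hCF⟩
    by_contra hcon
    obtain ⟨k, hk⟩ : M.Nonempty := by
      rw [nonempty_iff_ne_empty]
      exact fun h => hcon (h ▸ hM)
    have hMk : (M, k) ∈ Dn F C := by
      rw [mem_Dn]
      refine ⟨⟨hM, hsub M hM hk⟩, hk, fun h => ?_⟩
      have := hMmin _ h
      simp only [card_erase_of_mem hk] at this
      have h0 : 0 < M.card := card_pos.2 ⟨k, hk⟩
      omega
    exact hcon (hpre M k hMk fun T hT hTM hkT _ => by
      have h1 := hMmin T hT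
      have h2 : T.card < M.card := card_lt_card ⟨hTM, fun h => hkT (h hk)⟩
      omega).1
  by_cases hsing : ∃ c ∈ C, {c} ∈ F
  · -- singletons: the power set
    right
    have hfree : ∀ c ∈ C, {c} ∈ F → ∀ T ∈ F, c ∈ T → T.erase c ∈ F := by
      intro c hc hcF T hT hcT
      have h1 : ((F.filter (fun T => c ∉ T)).image (fun T => insert c T)) ⊆
          F.filter (fun T => c ∈ T) := by
        intro W hW
        rw [mem_image] at hW
        obtain ⟨W', hW', rfl⟩ := hW
        rw [mem_filter] at hW' ⊢
        refine ⟨?_, mem_insert_self _ _⟩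
        have := hU _ hcF _ hW'.1
        rwa [← insert_eq] at this
      have h2 : ((F.filter (fun T => c ∉ T)).image (fun T => insert c T)).card =
          (F.filter (fun T => c ∉ T)).card := by
        apply card_image_of_injOn
        intro W hW W' hW' h
        rw [mem_coe, mem_filter] at hW hW'
        simp only at h
        rw [← erase_insert hW.2, h, erase_insert hW'.2]
      have h3 := card_filter_add_card_filter_not (s := F) (fun T => c ∈ T)
      have h4 := hexact c hc
      have h5 := eq_of_subset_of_card_le h1 (by rw [h2]; omega)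
      have h6 : T ∈ (F.filter (fun T => c ∉ T)).image (fun T => insert c T) := by
        rw [h5, mem_filter]
        exact ⟨hT, hcT⟩
      rw [mem_image] at h6
      obtain ⟨W, hW, rfl⟩ := h6
      rw [mem_filter] at hW
      rw [erase_insert hW.2]
      exact hW.1
    obtain ⟨c, hc, hcF⟩ := hsing
    have hall : ∀ y ∈ C, {y} ∈ F := by
      intro y hy
      have h := hconn c hc y hy
      have : y ∈ C ∧ {y} ∈ F := by
        clear hy
        induction h with
        | refl => exact ⟨hc, hcF⟩
        | @tail a b _ hab ih =>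
          refine ⟨hab.1, ?_⟩
          by_cases hne : b = a
          · rw [hne]; exact ih.2
          · have h1 := hab.2 _ ih.2 (mem_singleton_self a)
            have h2 := hfree a ih.1 ih.2 _ h1 (mem_insert_of_mem (mem_singleton_self a))
            have h3 : (insert b ({a} : Finset V)).erase a = {b} := by
              ext x
              simp only [mem_erase, mem_insert, mem_singleton]
              constructor
              · rintro ⟨h4, h5 | h5⟩
                · exact h5
                · exact absurd h5 h4
              · rintro rfl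
                exact ⟨hne, Or.inl rfl⟩
            rwa [h3] at h2
      exact this.2
    ext T
    rw [mem_powerset]
    refine ⟨hsub T, ?_⟩
    intro hT
    induction T using Finset.induction_on with
    | empty => exact hempty
    | insert a T _ ih =>
      rw [insert_eq]
      exact hU _ (hall a (hT (mem_insert_self _ _))) _ (ih ((subset_insert _ _).trans hT))
  · left
    push Not at hsing
    -- minimal nonempty members
    have hL1 : ∀ N ∈ F, N.Nonempty → (∀ W ∈ F, W ⊆ N → W.Nonempty → W = N) →
        ∀ i ∈ N, m ∅ i = N := by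
      intro N hN hNne hNmin
      have hNC := hsub N hN
      have hone : ∀ k ∈ N, (N, k) ∈ Dn F C := by
        intro k hk
        rw [mem_Dn]
        refine ⟨⟨hN, hNC hk⟩, hk, fun h => ?_⟩
        simp only at h
        rcases (N.erase k).eq_empty_or_nonempty with h0 | h0
        · have h1 : N = {k} := by
            rw [erase_eq_empty_iff] at h0
            rcases h0 with h0 | h0
            · rw [h0] at hk; exact absurd hk (notMem_empty _)
            · exact h0
          exact hsing k (hNC hk) (h1 ▸ hN)
        · have h1 := hNmin _ h (erase_subset _ _) h0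
          have h2 : k ∉ N.erase k := notMem_erase _ _
          rw [h1] at h2
          exact h2 hk
      have hp : ∀ k, ∃ i, k ∈ N → (f (∅, i) = (N, k) ∧ m ∅ i = N ∧ i ∈ N) := by
        intro k
        by_cases hk : k ∈ N
        · obtain ⟨-, i, -, h1, h2, h3⟩ := hpre N k (hone k hk) fun T hT hTN hkT hTne => by
            have := hNmin T hT hTN hTne
            rw [this] at hkT
            exact hkT hk
          exact ⟨i, fun _ => ⟨h1, h2, h3⟩⟩
        · exact ⟨k, fun h => absurd h hk⟩
      choose g hg using hp
      have h1 : N.image g ⊆ N := by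
        intro x hx
        rw [mem_image] at hx
        obtain ⟨k, hk, rfl⟩ := hx
        exact (hg k hk).2.2
      have h2 : (N.image g).card = N.card := by
        apply card_image_of_injOn
        intro k hk k' hk' h
        rw [mem_coe] at hk hk'
        have h3 := (hg k hk).1
        have h4 := (hg k' hk').1
        rw [h, h4] at h3
        exact (Prod.mk.inj h3).2.symm
      have h3 := eq_of_subset_of_card_le h1 h2.symm.le
      intro i hi
      rw [← h3, mem_image] at hi
      obtain ⟨k, hk, rfl⟩ := hi
      exact (hg k hk).2.1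
    by_contra hcon
    -- a member different from `∅` and `C`
    obtain ⟨T0, hT0, hT0e, hT0C⟩ : ∃ T ∈ F, T ≠ ∅ ∧ T ≠ C := by
      by_contra h
      push Not at h
      apply hcon
      ext T
      rw [mem_insert, mem_singleton]
      constructor
      · intro hT
        by_cases h0 : T = ∅
        · exact Or.inl h0
        · exact Or.inr (h T hT (nonempty_iff_ne_empty.2 h0))
      · rintro (h0 | h0)
        · rw [h0]; exact hempty
        · rw [h0]; exact hCF
    -- a minimal nonempty member inside
    obtain ⟨M, hM, hMmin⟩ := exists_min_image (F.filter (fun W => W ⊆ T0 ∧ W.Nonempty))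
      (fun W => W.card) ⟨T0, mem_filter.2 ⟨hT0, Subset.refl _, nonempty_iff_ne_empty.2 hT0e⟩⟩
    rw [mem_filter] at hM
    obtain ⟨hMF, hMT0, hMne⟩ := hM
    have hMC := hsub M hMF
    have hMmin' : ∀ W ∈ F, W ⊆ M → W.Nonempty → W = M := by
      intro W hW hWM hWne
      have := hMmin W (mem_filter.2 ⟨hW, hWM.trans hMT0, hWne⟩)
      exact eq_of_subset_of_card_le hWM this
    have hMneC : ∃ y ∈ C, y ∉ M := by
      by_contra h
      push Not at h
      apply hT0C
      exact Subset.antisymm (hsub T0 hT0) (fun y hy => hMT0 (h y hy))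
    obtain ⟨y, hyC, hyM⟩ := hMneC
    obtain ⟨x, hxM⟩ := hMne
    -- an arc leaving `M`
    obtain ⟨a, v, haM, hvM, hvC, hav'⟩ : ∃ a v, a ∈ M ∧ v ∉ M ∧ v ∈ C ∧
        ∀ T ∈ F, a ∈ T → insert v T ∈ F := by
      have h := hconn x (hMC hxM) y hyC
      by_contra hcon2
      push Not at hcon2
      have : y ∈ M := by
        clear hyM hyC
        induction h with
        | refl => exact hxM
        | @tail a b _ hab ih =>
          by_contra hb
          obtain ⟨T, hT, haT, h1⟩ := hcon2 a b ih hb hab.1
          exact h1 (hab.2 T hT haT)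
      exact hyM this
    have hW := hav' M hMF haM
    obtain ⟨U, hUm, hUmin⟩ := exists_min_image (F.filter (fun U => v ∈ U ∧ U ⊆ insert v M))
      (fun U => U.card) ⟨insert v M, mem_filter.2 ⟨hW, mem_insert_self _ _, Subset.refl _⟩⟩
    rw [mem_filter] at hUm
    obtain ⟨hUF, hvU, hUW⟩ := hUm
    have hUmin' : ∀ T ∈ F, v ∈ T → T ⊆ U → T = U := by
      intro T hT hvT hTU
      have := hUmin T (mem_filter.2 ⟨hT, hvT, hTU.trans hUW⟩)
      exact eq_of_subset_of_card_le hTU this
    have hMm : ∀ i ∈ M, m ∅ i = M := hL1 M hMF ⟨x, hxM⟩ hMmin'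
    by_cases hMU : M ⊆ U
    · have hUeq : U = insert v M := Subset.antisymm hUW (insert_subset hvU hMU)
      have hpk : ∀ k ∈ M, f (∅, v) = (U, k) := by
        intro k hk
        have hUk : (U, k) ∈ Dn F C := by
          rw [mem_Dn]
          refine ⟨⟨hUF, hMC hk⟩, hMU hk, fun h => ?_⟩
          simp only at h
          have hvk : v ≠ k := fun h1 => hvM (h1 ▸ hk)
          have h1 := hUmin' _ h (mem_erase.2 ⟨hvk, hvU⟩) (erase_subset _ _)
          have h2 : k ∉ U.erase k := notMem_erase _ _
          rw [h1] at h2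
          exact h2 (hMU hk)
        obtain ⟨-, i, -, h1, h2, h3⟩ := hpre U k hUk fun T hT hTU hkT hTne => by
          have hvT : v ∉ T := by
            intro hvT
            have := hUmin' T hT hvT hTU
            rw [this] at hkT
            exact hkT (hMU hk)
          have hTM : T ⊆ M := by
            intro z hz
            have := hUW (hTU hz)
            rw [mem_insert] at this
            rcases this with h | h
            · rw [h] at hz; exact absurd hz hvT
            · exact h
          have := hMmin' T hT hTM hTne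
          rw [this] at hkT
          exact hkT hk
        have hiv : i = v := by
          rw [hUeq, mem_insert] at h3
          rcases h3 with h3 | h3
          · exact h3
          · exfalso
            rw [hMm i h3] at h2
            rw [← h2] at hvU
            exact hvM hvU
        rw [hiv] at h1
        exact h1
      have h1 := hpk x hxM
      have h2 : ∀ k ∈ M, k = x := by
        intro k hk
        have h3 := hpk k hk
        rw [h1] at h3
        exact (Prod.mk.inj h3).2.symm
      have h3 : M = {x} := by
        ext k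
        rw [mem_singleton]
        exact ⟨h2 k, fun h => h ▸ hxM⟩
      exact hsing x (hMC hxM) (h3 ▸ hMF)
    · have hUmin2 : ∀ W ∈ F, W ⊆ U → W.Nonempty → W = U := by
        intro W hWF hWU hWne
        by_cases hvW : v ∈ W
        · exact hUmin' W hWF hvW hWU
        · exfalso
          have hWM : W ⊆ M := by
            intro z hz
            have := hUW (hWU hz)
            rw [mem_insert] at this
            rcases this with h | h
            · rw [h] at hz; exact absurd hz hvW
            · exact h
          have := hMmin' W hWF hWM hWne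
          rw [this] at hWU
          exact hMU hWU
      have hUm2 := hL1 U hUF ⟨v, hvU⟩ hUmin2
      have : ∃ i ∈ U, i ∈ M := by
        by_contra h
        push Not at h
        have : U = {v} := by
          ext z
          rw [mem_singleton]
          constructor
          · intro hz
            have h1 := hUW hz
            rw [mem_insert] at h1
            rcases h1 with h1 | h1
            · exact h1
            · exact absurd h1 (h z hz)
          · intro h1
            rw [h1]; exact hvU
        exact hsing v hvC (this ▸ hUF)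
      obtain ⟨i, hiU, hiM⟩ := this
      have h1 := hUm2 i hiU
      rw [hMm i hiM] at h1
      rw [← h1] at hvU
      exact hvM hvU

end Pool.Agent.W87.UC
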