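import Pool.Agent.W668.Uni.Stmts

set_option autoImplicit false

open Set
open scoped ContDiff Topology

namespace Pool.Agent.W87.UniTheta

open Pool.Agent.W668.Uni

noncomputable section

section Implicit

variable {E : Type*} [NormedAddCommGroup E] [NormedSpace ℝ E] [CompleteSpace E]

/-- the linear equivalence `(v, s) ↦ (v, L (v, s))` when `L (0, 1) ≠ 0` -/
def eqv (L : E × ℝ →L[ℝ] ℝ) (hc : L (0, 1) ≠ 0) : (E × ℝ) ≃L[ℝ] (E × ℝ) :=
  ContinuousLinearEquiv.equivOfInverse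
    ((ContinuousLinearMap.fst ℝ E ℝ).prod L)
    ((ContinuousLinearMap.fst ℝ E ℝ).prod
      ((L (0, 1))⁻¹ • (ContinuousLinearMap.snd ℝ E ℝ
        - L.comp ((ContinuousLinearMap.inl ℝ E ℝ).comp (ContinuousLinearMap.fst ℝ E ℝ)))))
    (by
      rintro ⟨v, s⟩
      have h : L (v, s) = L (v, 0) + s * L (0, 1) := by
        have : (v, s) = (v, (0:ℝ)) + s • ((0:E), (1:ℝ)) := by simp
        rw [this, map_add, map_smul, smul_eq_mul]
      simp only [ContinuousLinearMap.prod_apply, ContinuousLinearMap.coe_fst',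
        ContinuousLinearMap.smul_apply, ContinuousLinearMap.sub_apply,
        ContinuousLinearMap.coe_snd', ContinuousLinearMap.comp_apply,
        ContinuousLinearMap.inl_apply, smul_eq_mul, Prod.mk.injEq, true_and]
      rw [h]
      field_simp
      ring)
    (by
      rintro ⟨v, s⟩
      have h : ∀ s : ℝ, L (v, s) = L (v, 0) + s * L (0, 1) := by
        intro s
        have : (v, s) = (v, (0:ℝ)) + s • ((0:E), (1:ℝ)) := by simp
        rw [this, map_add, map_smul, smul_eq_mul]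
      simp only [ContinuousLinearMap.prod_apply, ContinuousLinearMap.coe_fst',
        ContinuousLinearMap.smul_apply, ContinuousLinearMap.sub_apply,
        ContinuousLinearMap.coe_snd', ContinuousLinearMap.comp_apply,
        ContinuousLinearMap.inl_apply, smul_eq_mul, Prod.mk.injEq, true_and]
      rw [h]
      field_simp
      ring)

theorem implicit_scalar (g : E × ℝ → ℝ) (hg : ContDiff ℝ ∞ g) (p : E) (t : ℝ)
    (h0 : g (p, t) = 0) (h1 : fderiv ℝ g (p, t) (0, 1) ≠ 0) :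
    ∃ (W : Set E) (ϑ : E → ℝ), IsOpen W ∧ p ∈ W ∧ ContDiffOn ℝ ∞ ϑ W ∧ ϑ p = t ∧
      ∀ q ∈ W, g (q, ϑ q) = 0 := by
  have hΨ : ContDiff ℝ ∞ (fun z : E × ℝ => (z.1, g z)) := contDiff_fst.prodMk hg
  have hder : ∀ z : E × ℝ, HasFDerivAt (fun z : E × ℝ => (z.1, g z))
      ((ContinuousLinearMap.fst ℝ E ℝ).prod (fderiv ℝ g z)) z := by
    intro z
    exact hasFDerivAt_fst.prodMk ((hg.differentiable (by simp)) z).hasFDerivAt
  have hder' : ∀ (z : E × ℝ) (hc : fderiv ℝ g z (0, 1) ≠ 0),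
      HasFDerivAt (fun z : E × ℝ => (z.1, g z)) ((eqv (fderiv ℝ g z) hc : (E × ℝ) ≃L[ℝ] (E × ℝ)) :
        (E × ℝ) →L[ℝ] (E × ℝ)) z := by
    intro z hc
    exact hder z
  let e := (hΨ.contDiffAt (x := (p, t))).toOpenPartialHomeomorph _ (hder' (p, t) h1) (by simp)
  have he : ∀ z, e z = (z.1, g z) := fun z => rfl
  have hsrc : (p, t) ∈ e.source :=
    (hΨ.contDiffAt (x := (p, t))).mem_toOpenPartialHomeomorph_source (hder' (p, t) h1) (by simp)
  have hV : IsOpen {z : E × ℝ | fderiv ℝ g z (0, 1) ≠ 0} := by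
    have hcont : Continuous (fun z : E × ℝ => fderiv ℝ g z (0, 1)) :=
      (hg.continuous_fderiv (by simp)).clm_apply continuous_const
    exact isOpen_ne_fun hcont continuous_const
  have hO : IsOpen (e.target ∩ e.symm ⁻¹' {z : E × ℝ | fderiv ℝ g z (0, 1) ≠ 0}) :=
    e.symm.isOpen_inter_preimage hV
  refine ⟨(fun q : E => (q, (0:ℝ))) ⁻¹'
      (e.target ∩ e.symm ⁻¹' {z : E × ℝ | fderiv ℝ g z (0, 1) ≠ 0}),
    fun q => (e.symm (q, 0)).2, hO.preimage (by fun_prop), ?_, ?_, ?_, ?_⟩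
  · have h2 : e (p, t) = (p, 0) := by rw [he]; simp [h0]
    have h3 : (p, (0:ℝ)) ∈ e.target := by rw [← h2]; exact e.map_source hsrc
    have h4 : e.symm (p, 0) = (p, t) := by rw [← h2]; exact e.left_inv hsrc
    refine ⟨h3, ?_⟩
    show fderiv ℝ g (e.symm (p, 0)) (0, 1) ≠ 0
    rw [h4]
    exact h1
  · intro q hq
    obtain ⟨h2, h3⟩ := hq
    have h4 := e.contDiffAt_symm (n := ∞) h2 (hder' (e.symm (q, 0)) h3) hΨ.contDiffAt
    apply ContDiffAt.contDiffWithinAt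
    have h5 : ContDiffAt ℝ ∞ (fun q : E => e.symm (q, (0:ℝ))) q :=
      ContDiffAt.comp q h4 (contDiffAt_id.prodMk contDiffAt_const)
    exact contDiffAt_snd.comp q h5
  · have h2 : e (p, t) = (p, 0) := by rw [he]; simp [h0]
    have h4 : e.symm (p, 0) = (p, t) := by rw [← h2]; exact e.left_inv hsrc
    show (e.symm (p, 0)).2 = t
    rw [h4]
  · intro q hq
    obtain ⟨h2, h3⟩ := hq
    have h5 : e (e.symm (q, 0)) = (q, 0) := e.right_inv h2
    rw [he] at h5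
    have h6 : (e.symm (q, 0)).1 = q := congrArg Prod.fst h5
    have h7 : g (e.symm (q, 0)) = 0 := congrArg Prod.snd h5
    have h8 : (q, (e.symm (q, 0)).2) = e.symm (q, 0) := Prod.ext h6.symm rfl
    show g (q, (e.symm (q, 0)).2) = 0
    rw [h8]
    exact h7

end Implicit

/-! ### the variational equation -/

lemma two_le_infty : (2 : WithTop ℕ∞) ≤ ∞ := by
  show ((2 : ℕ∞) : WithTop ℕ∞) ≤ ((⊤ : ℕ∞) : WithTop ℕ∞)
  exact WithTop.coe_le_coe.mpr le_top

lemma abs_le_norm_pair (a b : ℝ) :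
    |a| ≤ ‖(a : ℂ) + b * Complex.I‖ ∧ |b| ≤ ‖(a : ℂ) + b * Complex.I‖ := by
  constructor
  · simpa using Complex.abs_re_le_norm ((a : ℂ) + b * Complex.I)
  · simpa using Complex.abs_im_le_norm ((a : ℂ) + b * Complex.I)

lemma fderiv_zero_one {S T : (Fin 2 → ℝ) × ℝ → ℝ} (hS : ContDiff ℝ ∞ S)
    (h : ∀ x θ, HasDerivAt (fun s => S (x, s)) (T (x, θ)) θ) (z : (Fin 2 → ℝ) × ℝ) :
    fderiv ℝ S z (0, 1) = T z := by
  obtain ⟨x, θ⟩ := z
  have h1 : HasFDerivAt S (fderiv ℝ S (x, θ)) (x, θ) :=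
    ((hS.differentiable (by simp)) (x, θ)).hasFDerivAt
  have h2 : HasDerivAt (fun s : ℝ => (x, s)) ((0 : Fin 2 → ℝ), (1:ℝ)) θ :=
    (hasDerivAt_const θ x).prodMk (hasDerivAt_id θ)
  have h3 := h1.comp_hasDerivAt θ h2
  exact h3.unique (h x θ)

lemma hasDerivAt_dx {S T : (Fin 2 → ℝ) × ℝ → ℝ} (hS : ContDiff ℝ ∞ S)
    (h : ∀ z, fderiv ℝ S z (0, 1) = T z) (x y : Fin 2 → ℝ) (θ : ℝ) :
    HasDerivAt (fun s => dx S x s y) (dx T x θ y) θ := by
  have hS1 : ContDiff ℝ ∞ (fderiv ℝ S) := hS.fderiv_right (by simp)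
  have hd : HasFDerivAt (fderiv ℝ S) (fderiv ℝ (fderiv ℝ S) (x, θ)) (x, θ) :=
    ((hS1.differentiable (by simp)) (x, θ)).hasFDerivAt
  have h2 : HasDerivAt (fun s : ℝ => (x, s)) ((0 : Fin 2 → ℝ), (1:ℝ)) θ :=
    (hasDerivAt_const θ x).prodMk (hasDerivAt_id θ)
  have h3 := hd.comp_hasDerivAt θ h2
  have h4 : HasDerivAt (fun s => dx S x s y)
      (fderiv ℝ (fderiv ℝ S) (x, θ) (0, 1) (y, 0)) θ := by
    have h5 := h3.clm_apply (hasDerivAt_const θ ((y, 0) : (Fin 2 → ℝ) × ℝ))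
    simpa [dx] using h5
  have hsymm : fderiv ℝ (fderiv ℝ S) (x, θ) (0, 1) (y, 0)
      = fderiv ℝ (fderiv ℝ S) (x, θ) (y, 0) (0, 1) :=
    (hS.contDiffAt (x := (x, θ))).isSymmSndFDerivAt (by
      rw [minSmoothness_of_isRCLikeNormedField]; exact two_le_infty) _ _
  have hT : dx T x θ y = fderiv ℝ (fderiv ℝ S) (x, θ) (y, 0) (0, 1) := by
    unfold dx
    have e : T = fun z => fderiv ℝ S z (0, 1) := funext fun z => (h z).symm
    rw [e]
    have h6 : HasFDerivAt (fun z => fderiv ℝ S z (0, 1))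
        ((fderiv ℝ (fderiv ℝ S) (x, θ)).flip (0, 1)) (x, θ) := by
      have h7 := hd.clm_apply (hasFDerivAt_const ((0, 1) : (Fin 2 → ℝ) × ℝ) (x, θ))
      simpa using h7
    rw [h6.fderiv]
    rfl
  rw [hT, ← hsymm]
  exact h4

/-! ### comparison with the harmonic oscillator -/

lemma gron {V V' : ℝ → ℂ} (hV : ∀ θ, HasDerivAt V (V' θ) θ)
    (hb : ∀ θ, ‖V' θ‖ ≤ 1 / 100 * ‖V θ‖) (θ : ℝ) (h0 : 0 ≤ θ) (h7 : θ ≤ 7) :
    ‖V θ - V 0‖ ≤ 8 / 100 * ‖V 0‖ := by
  have h := norm_le_gronwallBound_of_norm_deriv_right_le (f := fun s => V s - V 0) (f' := V')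
    (δ := 0) (K := 1 / 100) (ε := 1 / 100 * ‖V 0‖) (a := 0) (b := 7)
    (fun s _ => ((hV s).sub_const (V 0)).continuousAt.continuousWithinAt)
    (fun s _ => ((hV s).sub_const (V 0)).hasDerivWithinAt) (by simp)
    (fun s _ => by
      have h1 := hb s
      have h2 : ‖V s‖ ≤ ‖V s - V 0‖ + ‖V 0‖ := by
        calc ‖V s‖ = ‖(V s - V 0) + V 0‖ := by rw [sub_add_cancel]
          _ ≤ _ := norm_add_le _ _
      linarith) θ ⟨h0, h7⟩
  rw [gronwallBound_of_K_ne_0 (by norm_num)] at h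
  have h3 : Real.exp (1 / 100 * (θ - 0)) ≤ 108 / 100 := by
    have h4 : Real.exp (1 / 100 * (θ - 0)) ≤ Real.exp (7 / 100) :=
      Real.exp_le_exp.mpr (by linarith)
    have h5 := Real.add_one_le_exp (-(7 / 100 : ℝ))
    have h6 : Real.exp (7 / 100) * Real.exp (-(7 / 100)) = 1 := by
      rw [← Real.exp_add]; simp
    have h8 : 0 < Real.exp (7 / 100) := Real.exp_pos _
    nlinarith
  have h9 : 0 ≤ ‖V 0‖ := norm_nonneg _
  calc ‖V θ - V 0‖ ≤ _ := h
    _ = ‖V 0‖ * (Real.exp (1 / 100 * (θ - 0)) - 1) := by ring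
    _ ≤ ‖V 0‖ * (8 / 100) := mul_le_mul_of_nonneg_left (by linarith) h9
    _ = _ := by ring

lemma gron' {V V' : ℝ → ℂ} (hV : ∀ θ, HasDerivAt V (V' θ) θ)
    (hb : ∀ θ, ‖V' θ‖ ≤ 1 / 100 * ‖V θ‖) (θ : ℝ) (h7 : |θ| ≤ 7) :
    ‖V θ - V 0‖ ≤ 8 / 100 * ‖V 0‖ := by
  rcases le_total 0 θ with h0 | h0
  · exact gron hV hb θ h0 ((le_abs_self θ).trans h7)
  · have h1 := gron (V := fun s => V (-s)) (V' := fun s => -V' (-s)) (fun s => by
      have h2 := (hV (-s)).scomp s (hasDerivAt_neg s)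
      have h3 : (-1 : ℝ) • V' (-s) = -V' (-s) := by simp
      rw [h3] at h2
      exact h2) (fun s => by
      rw [norm_neg]; exact hb (-s)) (-θ) (by linarith) (by
      rw [abs_le] at h7; linarith [h7.1])
    simpa using h1

/-- solutions of `A' = B`, `B' = I B - A` with small `I` -/
lemma osc {A B I : ℝ → ℝ} (hA : ∀ θ, HasDerivAt A (B θ) θ)
    (hB : ∀ θ, HasDerivAt B (I θ * B θ - A θ) θ) (hI : ∀ θ, |I θ| ≤ 1 / 100) {ρ φ : ℝ}
    (hρ : 0 ≤ ρ) (h0 : A 0 = ρ * Real.cos φ) (h1 : B 0 = ρ * Real.sin φ) (θ : ℝ) (h7 : |θ| ≤ 7) :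
    |A θ - ρ * Real.cos (θ - φ)| ≤ 8 / 100 * ρ ∧ |B θ + ρ * Real.sin (θ - φ)| ≤ 8 / 100 * ρ := by
  set V : ℝ → ℂ := fun s => Complex.exp (s * Complex.I) * ((A s : ℂ) + B s * Complex.I) with hVdef
  set V' : ℝ → ℂ := fun s => Complex.exp (s * Complex.I) * (Complex.I * (I s * B s : ℝ)) with hV'def
  have hV : ∀ s, HasDerivAt V (V' s) s := by
    intro s
    have e1 : HasDerivAt (fun s : ℝ => Complex.exp (s * Complex.I))
        (Complex.exp (s * Complex.I) * (1 * Complex.I)) s := by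
      have := ((hasDerivAt_id s).ofReal_comp.mul_const Complex.I).cexp
      simpa using this
    have e2 : HasDerivAt (fun s : ℝ => ((A s : ℂ) + B s * Complex.I))
        ((B s : ℂ) + ((I s * B s - A s : ℝ) : ℂ) * Complex.I) s :=
      (hA s).ofReal_comp.add ((hB s).ofReal_comp.mul_const Complex.I)
    have e3 := e1.mul e2
    have e4 : V' s = Complex.exp (s * Complex.I) * (1 * Complex.I) * ((A s : ℂ) + B s * Complex.I)
        + Complex.exp (s * Complex.I) * ((B s : ℂ) + ((I s * B s - A s : ℝ) : ℂ) * Complex.I) := by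
      show Complex.exp (s * Complex.I) * (Complex.I * ((I s * B s : ℝ) : ℂ)) = _
      push_cast
      linear_combination (-(Complex.exp (s * Complex.I) * B s)) * Complex.I_sq
    rw [e4]
    exact e3
  have hnorm : ∀ s : ℝ, ‖V s‖ = ‖(A s : ℂ) + B s * Complex.I‖ := by
    intro s
    simp only [hVdef, norm_mul, Complex.norm_exp_ofReal_mul_I, one_mul]
  have hBn : ∀ s : ℝ, |B s| ≤ ‖V s‖ := by
    intro s
    rw [hnorm]
    have := Complex.abs_im_le_norm ((A s : ℂ) + B s * Complex.I)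
    simpa using this
  have hb : ∀ s, ‖V' s‖ ≤ 1 / 100 * ‖V s‖ := by
    intro s
    have e : ‖V' s‖ = |I s| * |B s| := by
      simp only [hV'def, norm_mul, Complex.norm_exp_ofReal_mul_I, Complex.norm_I, one_mul]
      rw [Complex.norm_real, Real.norm_eq_abs, abs_mul]
    rw [e]
    exact mul_le_mul (hI s) (hBn s) (abs_nonneg _) (by norm_num)
  have hmain := gron' hV hb θ h7
  have hV0 : V 0 = ρ * Complex.exp (φ * Complex.I) := by
    have e := Complex.exp_mul_I (φ : ℂ)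
    show Complex.exp ((0 : ℝ) * Complex.I) * ((A 0 : ℂ) + B 0 * Complex.I) = _
    rw [e, h0, h1]
    push_cast
    simp
    ring
  have hV0n : ‖V 0‖ = ρ := by
    rw [hV0, norm_mul, Complex.norm_exp_ofReal_mul_I, Complex.norm_real, Real.norm_eq_abs,
      abs_of_nonneg hρ, mul_one]
  rw [hV0n] at hmain
  have hmul : ‖Complex.exp (-θ * Complex.I) * (V θ - V 0)‖ = ‖V θ - V 0‖ := by
    rw [norm_mul]
    have : ‖Complex.exp (-θ * Complex.I)‖ = 1 := by
      have := Complex.norm_exp_ofReal_mul_I (-θ)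
      push_cast at this
      exact this
    rw [this, one_mul]
  rw [← hmul] at hmain
  have hval : Complex.exp (-θ * Complex.I) * (V θ - V 0)
      = ((A θ - ρ * Real.cos (θ - φ) : ℝ) : ℂ)
        + ((B θ + ρ * Real.sin (θ - φ) : ℝ) : ℂ) * Complex.I := by
    rw [mul_sub, hV0]
    have e1 : Complex.exp (-θ * Complex.I) * V θ = (A θ : ℂ) + B θ * Complex.I := by
      simp only [hVdef]
      rw [← mul_assoc, ← Complex.exp_add]
      have : -(θ:ℂ) * Complex.I + θ * Complex.I = 0 := by ring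
      rw [this, Complex.exp_zero, one_mul]
    have e2 : Complex.exp (-θ * Complex.I) * (ρ * Complex.exp (φ * Complex.I))
        = ρ * Complex.exp (((-(θ - φ) : ℝ) : ℂ) * Complex.I) := by
      rw [mul_left_comm, ← Complex.exp_add]
      congr 2
      push_cast
      ring
    rw [e1, e2, Complex.exp_mul_I, ← Complex.ofReal_cos, ← Complex.ofReal_sin, Real.cos_neg,
      Real.sin_neg]
    push_cast
    ring
  rw [hval] at hmain
  constructor
  · exact (abs_le_norm_pair _ _).1.trans hmain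
  · exact (abs_le_norm_pair _ _).2.trans hmain

/-! ### critical points -/

/-- Abstract version: `A` is `L`-periodic and close to `ρ cos (θ - φ)`. -/
structure Osc (A B I : ℝ → ℝ) (L ρ φ : ℝ) : Prop where
  hA : ∀ θ, HasDerivAt A (B θ) θ
  hB : ∀ θ, HasDerivAt B (I θ * B θ - A θ) θ
  hI : ∀ θ, |I θ| ≤ 1 / 100
  ρ_pos : 0 < ρ
  φ_le : |φ| ≤ Real.pi
  L_near : |L - 2 * Real.pi| ≤ 1 / 100
  per : ∀ θ, A (θ + L) = A θ
  zA : A 0 = ρ * Real.cos φ
  zB : B 0 = ρ * Real.sin φ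

namespace Osc

variable {A B I : ℝ → ℝ} {L ρ φ : ℝ} (h : Osc A B I L ρ φ)

include h

lemma L_pos : 0 < L := by
  have h1 := (abs_le.mp h.L_near).1
  have := Real.pi_gt_three
  linarith

lemma perB (θ : ℝ) : B (θ + L) = B θ := by
  have h1 : HasDerivAt (fun s => A (s + L)) (B (θ + L)) θ := (h.hA (θ + L)).comp_add_const θ L
  have h2 : (fun s => A (s + L)) = A := funext h.per
  rw [h2] at h1
  exact h1.unique (h.hA θ)

lemma near {θ : ℝ} (hθ : |θ - φ| ≤ L / 2) :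
    |A θ - ρ * Real.cos (θ - φ)| ≤ 8 / 100 * ρ ∧ |B θ + ρ * Real.sin (θ - φ)| ≤ 8 / 100 * ρ := by
  apply osc h.hA h.hB h.hI h.ρ_pos.le h.zA h.zB
  have h1 := (abs_le.mp h.L_near).2
  have h2 := Real.pi_lt_d2
  have h3 : |θ| ≤ |θ - φ| + |φ| := by
    have := abs_add_le (θ - φ) φ
    simpa using this
  have := h.φ_le
  linarith

/-- critical points with positive value in the window are near `φ` -/
lemma crit {θ : ℝ} (hθ : |θ - φ| ≤ L / 2) (h1 : B θ = 0) (h2 : 0 < A θ) : |θ - φ| ≤ 1 / 2 := by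
  obtain ⟨h3, h4⟩ := h.near hθ
  have hρ := h.ρ_pos
  rw [h1, zero_add, abs_mul, abs_of_pos hρ] at h4
  have hs : |Real.sin (θ - φ)| ≤ 8 / 100 := by
    have : ρ * |Real.sin (θ - φ)| ≤ ρ * (8 / 100) := by linarith
    exact le_of_mul_le_mul_left this hρ
  have hc : -(8 / 100) < Real.cos (θ - φ) := by
    have h5 := (abs_le.mp h3).2
    have : ρ * (-(8 / 100)) < ρ * Real.cos (θ - φ) := by linarith
    exact lt_of_mul_lt_mul_left this hρ.le
  by_contra hcon
  push Not at hcon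
  set u := |θ - φ| with hu
  have hcu : Real.cos u = Real.cos (θ - φ) := Real.cos_abs _
  have hsq : Real.sin (θ - φ) ^ 2 ≤ (8 / 100) ^ 2 := by
    rw [← sq_abs]
    exact pow_le_pow_left₀ (abs_nonneg _) hs 2
  have hid := Real.sin_sq_add_cos_sq (θ - φ)
  rw [← hcu] at hc hid
  have hLu : u ≤ Real.pi + 1 / 200 := by
    have := (abs_le.mp h.L_near).2
    linarith
  have hcpos : 99 / 100 < Real.cos u := by nlinarith
  rcases le_or_gt u Real.pi with h6 | h6
  · have h7 : Real.cos u ≤ Real.cos (1 / 2) :=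
      Real.cos_le_cos_of_nonneg_of_le_pi (by norm_num) h6 hcon.le
    have h8 : Real.cos (1 / 2) ≤ 1 - (1 / 2) ^ 2 / 2 + (1/2)^4 / 24 := by
      have := Real.cos_bound (x := 1 / 2) (by rw [abs_of_pos] <;> norm_num)
      have h9 := (abs_le.mp this).2
      rw [abs_of_pos (by norm_num : (0:ℝ) < 1 / 2)] at h9
      norm_num at h9 ⊢
      linarith
    norm_num at h8
    linarith
  · have h7 : Real.cos u ≤ 0 := by
      apply Real.cos_nonpos_of_pi_div_two_le_of_le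
      · have := Real.pi_pos
        linarith
      · have := Real.pi_gt_three
        linarith
    linarith

lemma A_near {θ : ℝ} (hθ : |θ - φ| ≤ 1 / 2) : 1 / 2 * ρ < A θ := by
  have hL : |θ - φ| ≤ L / 2 := by
    have := (abs_le.mp h.L_near).1
    have := Real.pi_gt_three
    linarith
  have h3 := (abs_le.mp (h.near hL).1).1
  have hc : 1 - (1 / 2) ^ 2 / 2 ≤ Real.cos (θ - φ) := by
    have h4 := Real.one_sub_sq_div_two_le_cos (x := θ - φ)
    have h5 : (θ - φ) ^ 2 ≤ (1 / 2) ^ 2 := by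
      rw [← sq_abs]
      exact pow_le_pow_left₀ (abs_nonneg _) hθ 2
    linarith
  have hρ := h.ρ_pos
  have : ρ * (1 - (1 / 2) ^ 2 / 2) ≤ ρ * Real.cos (θ - φ) := mul_le_mul_of_nonneg_left hc hρ.le
  norm_num at this
  linarith

/-- uniqueness of the critical point near `φ` -/
lemma uniq {θ₁ θ₂ : ℝ} (h1 : |θ₁ - φ| ≤ 1 / 2) (h2 : |θ₂ - φ| ≤ 1 / 2) (hB1 : B θ₁ = 0)
    (hB2 : B θ₂ = 0) : θ₁ = θ₂ := by
  have hanti : StrictAntiOn B (Icc (φ - 1 / 2) (φ + 1 / 2)) := by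
    apply strictAntiOn_of_deriv_neg (convex_Icc _ _)
    · exact fun s _ => (h.hB s).continuousAt.continuousWithinAt
    · intro s hs
      rw [interior_Icc] at hs
      rw [(h.hB s).deriv]
      have hs' : |s - φ| ≤ 1 / 2 := by
        rw [abs_le]
        constructor <;> linarith [hs.1, hs.2]
      have hL : |s - φ| ≤ L / 2 := by
        have := (abs_le.mp h.L_near).1
        have := Real.pi_gt_three
        linarith
      have e1 := h.A_near hs'
      have e2 := (h.near hL).2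
      have hρ := h.ρ_pos
      have e3 : |B s| ≤ 2 * ρ := by
        have e4 : |B s| ≤ |B s + ρ * Real.sin (s - φ)| + |ρ * Real.sin (s - φ)| := by
          have := abs_sub (B s + ρ * Real.sin (s - φ)) (ρ * Real.sin (s - φ))
          simpa using this
        have e5 : |ρ * Real.sin (s - φ)| ≤ ρ := by
          rw [abs_mul, abs_of_pos hρ]
          exact mul_le_of_le_one_right hρ.le (Real.abs_sin_le_one _)
        linarith
      have e6 : I s * B s ≤ 1 / 100 * (2 * ρ) := by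
        refine (le_abs_self _).trans ?_
        rw [abs_mul]
        exact mul_le_mul (h.hI s) e3 (abs_nonneg _) (by norm_num)
      linarith
  have m1 : θ₁ ∈ Icc (φ - 1 / 2) (φ + 1 / 2) := by
    rw [abs_le] at h1
    constructor <;> linarith [h1.1, h1.2]
  have m2 : θ₂ ∈ Icc (φ - 1 / 2) (φ + 1 / 2) := by
    rw [abs_le] at h2
    constructor <;> linarith [h2.1, h2.2]
  exact hanti.injOn m1 m2 (hB1.trans hB2.symm)

lemma window (θ : ℝ) : ∃ θ', |θ' - φ| ≤ L / 2 ∧ A θ' = A θ ∧ B θ' = B θ := by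
  have hp : Function.Periodic (fun s => (A s, B s)) L := by
    intro s
    simp only [h.per s, h.perB s]
  obtain ⟨y, hy, hy2⟩ := hp.exists_mem_Ico h.L_pos θ (φ - L / 2)
  refine ⟨y, ?_, ?_, ?_⟩
  · rw [abs_le]
    constructor <;> linarith [hy.1, hy.2]
  · exact (congrArg Prod.fst hy2).symm
  · exact (congrArg Prod.snd hy2).symm

/-- the maximum is attained -/
lemma exists_max : ∃ θm, (∀ θ, A θ ≤ A θm) ∧ B θm = 0 ∧ 0 < A θm := by
  have hcont : Continuous A := continuous_iff_continuousAt.mpr fun s => (h.hA s).continuousAt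
  obtain ⟨m, hm, hmax⟩ := (isCompact_Icc (a := φ - L / 2) (b := φ + L / 2)).exists_isMaxOn
    ⟨φ, by constructor <;> linarith [h.L_pos]⟩ hcont.continuousOn
  have hall : ∀ θ, A θ ≤ A m := by
    intro θ
    obtain ⟨θ', h1, h2, _⟩ := h.window θ
    rw [← h2]
    apply hmax
    rw [abs_le] at h1
    constructor <;> linarith [h1.1, h1.2]
  refine ⟨m, hall, ?_, ?_⟩
  · have hloc : IsLocalMax A m := Filter.Eventually.of_forall hall
    exact hloc.hasDerivAt_eq_zero (h.hA m)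
  · have h1 := h.A_near (θ := φ) (by simp)
    have := hall φ
    have := h.ρ_pos
    linarith

/-- every critical point with a positive value is a maximum point -/
lemma crit_max {θ : ℝ} (h1 : B θ = 0) (h2 : 0 < A θ) (s : ℝ) : A s ≤ A θ := by
  obtain ⟨m, hm1, hm2, hm3⟩ := h.exists_max
  obtain ⟨θ', a1, a2, a3⟩ := h.window θ
  obtain ⟨m', b1, b2, b3⟩ := h.window m
  have c1 := h.crit a1 (a3.trans h1) (by rw [a2]; exact h2)
  have c2 := h.crit b1 (b3.trans hm2) (by rw [b2]; exact hm3)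
  have c3 := h.uniq c1 c2 (a3.trans h1) (b3.trans hm2)
  rw [← a2, c3, b2]
  exact hm1 s

end Osc

/-! ### the Finsler function -/

lemma dx_eq {S : (Fin 2 → ℝ) × ℝ → ℝ} (hS : ContDiff ℝ ∞ S) (x y : Fin 2 → ℝ) (θ : ℝ) :
    dx S x θ y = fderiv ℝ (fun x' : Fin 2 → ℝ => S (x', θ)) x y := by
  have h1 : HasFDerivAt S (fderiv ℝ S (x, θ)) (x, θ) :=
    ((hS.differentiable (by simp)) (x, θ)).hasFDerivAt
  have h2 : HasFDerivAt (fun x' : Fin 2 → ℝ => (x', θ))
      (ContinuousLinearMap.inl ℝ (Fin 2 → ℝ) ℝ) x := hasFDerivAt_prodMk_left x θ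
  have h3 := (h1.comp x h2).fderiv
  have h4 : fderiv ℝ (fun x' : Fin 2 → ℝ => S (x', θ)) x
      = (fderiv ℝ S (x, θ)).comp (ContinuousLinearMap.inl ℝ (Fin 2 → ℝ) ℝ) := h3
  rw [h4]
  rfl

lemma dx_per {S : (Fin 2 → ℝ) × ℝ → ℝ} (hS : ContDiff ℝ ∞ S) {U : Set (Fin 2 → ℝ)} (hU : IsOpen U)
    {L : ℝ} (hper : ∀ x ∈ U, ∀ θ, S (x, θ + L) = S (x, θ)) {x : Fin 2 → ℝ} (hx : x ∈ U)
    (y : Fin 2 → ℝ) (θ : ℝ) : dx S x (θ + L) y = dx S x θ y := by
  rw [dx_eq hS, dx_eq hS]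
  have h1 : (fun x' : Fin 2 → ℝ => S (x', θ + L)) =ᶠ[𝓝 x] (fun x' : Fin 2 → ℝ => S (x', θ)) := by
    filter_upwards [hU.mem_nhds hx] with x' hx'
    exact hper x' hx' θ
  rw [h1.fderiv_eq]

lemma dx_zero {S : (Fin 2 → ℝ) × ℝ → ℝ} (hS : ContDiff ℝ ∞ S) (i : Fin 2)
    (h0 : ∀ x, S (x, 0) = x i) (x y : Fin 2 → ℝ) : dx S x 0 y = y i := by
  rw [dx_eq hS]
  have h1 : (fun x' : Fin 2 → ℝ => S (x', 0)) = fun x' => x' i := funext h0
  rw [h1]
  have h2 : HasFDerivAt (fun x' : Fin 2 → ℝ => x' i)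
      (ContinuousLinearMap.proj (R := ℝ) (φ := fun _ : Fin 2 => ℝ) i) x :=
    (ContinuousLinearMap.proj (R := ℝ) (φ := fun _ : Fin 2 => ℝ) i).hasFDerivAt
  rw [h2.fderiv]
  rfl

variable {f Φ : ℝ → ℝ} {L : ℝ} {U : Set (Fin 2 → ℝ)} {S T : (Fin 2 → ℝ) × ℝ → ℝ}

lemma dxT_deriv (h : PerData f Φ L U S T) (x y : Fin 2 → ℝ) (θ : ℝ) :
    HasDerivAt (fun s => dx T x s y) (f (T (x, θ)) * dx T x θ y - dx S x θ y) θ := by
  have h1 : ∀ z, fderiv ℝ T z (0, 1) = (fun z => Φ (T z) - S z) z :=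
    fderiv_zero_one (S := T) (T := fun z => Φ (T z) - S z) h.T_smooth (fun x θ => h.T_der x θ)
  have h2 := hasDerivAt_dx h.T_smooth h1 x y θ
  have h3 : dx (fun z => Φ (T z) - S z) x θ y = f (T (x, θ)) * dx T x θ y - dx S x θ y := by
    unfold dx
    have a1 : HasFDerivAt T (fderiv ℝ T (x, θ)) (x, θ) :=
      ((h.T_smooth.differentiable (by simp)) (x, θ)).hasFDerivAt
    have a2 : HasFDerivAt S (fderiv ℝ S (x, θ)) (x, θ) :=
      ((h.S_smooth.differentiable (by simp)) (x, θ)).hasFDerivAt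
    have a3 := ((h.Φ_der (T (x, θ))).comp_hasFDerivAt (x, θ) a1).sub a2
    have a4 : fderiv ℝ (fun z => Φ (T z) - S z) (x, θ)
        = f (T (x, θ)) • fderiv ℝ T (x, θ) - fderiv ℝ S (x, θ) := a3.fderiv
    rw [a4]
    rfl
  rw [← h3]
  exact h2

lemma dxS_deriv (h : PerData f Φ L U S T) (x y : Fin 2 → ℝ) (θ : ℝ) :
    HasDerivAt (fun s => dx S x s y) (dx T x θ y) θ :=
  hasDerivAt_dx h.S_smooth (fderiv_zero_one h.S_smooth h.S_der) x y θ

lemma exists_osc (h : PerData f Φ L U S T) {x y : Fin 2 → ℝ} (hx : x ∈ U) (hy : y ≠ 0) :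
    ∃ ρ φ : ℝ, Osc (fun θ => dx S x θ y) (fun θ => dx T x θ y) (fun θ => f (T (x, θ))) L ρ φ := by
  refine ⟨‖(⟨y 0, y 1⟩ : ℂ)‖, Complex.arg ⟨y 0, y 1⟩, ?_⟩
  refine ⟨dxS_deriv h x y, dxT_deriv h x y, fun θ => h.f_small _, ?_, Complex.abs_arg_le_pi _,
    h.L_near, dx_per h.S_smooth h.U_open h.per hx y, ?_, ?_⟩
  · rw [norm_pos_iff]
    intro hz
    apply hy
    have h0 : y 0 = 0 := congrArg Complex.re hz
    have h1 : y 1 = 0 := congrArg Complex.im hz
    funext i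
    fin_cases i
    · exact h0
    · exact h1
  · show dx S x 0 y = _
    rw [dx_zero h.S_smooth 0 h.S_zero, Complex.norm_mul_cos_arg]
  · show dx T x 0 y = _
    rw [dx_zero h.T_smooth 1 h.T_zero, Complex.norm_mul_sin_arg]

lemma dx_smul (S : (Fin 2 → ℝ) × ℝ → ℝ) (x y : Fin 2 → ℝ) (θ t : ℝ) :
    dx S x θ (t • y) = t * dx S x θ y := by
  unfold dx
  have : ((t • y, (0:ℝ)) : (Fin 2 → ℝ) × ℝ) = t • (y, 0) := by simp
  rw [this, map_smul, smul_eq_mul]

lemma iSup_eq (h : PerData f Φ L U S T) {x y : Fin 2 → ℝ} (hx : x ∈ U) {θ : ℝ}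
    (h1 : dx T x θ y = 0) (h2 : 0 < dx S x θ y) : (⨆ s, dx S x s y) = dx S x θ y := by
  have hy : y ≠ 0 := by
    rintro rfl
    have : dx S x θ 0 = 0 := by
      unfold dx
      exact map_zero _
    rw [this] at h2
    exact lt_irrefl _ h2
  obtain ⟨ρ, φ, ho⟩ := exists_osc h hx hy
  have h3 := ho.crit_max (θ := θ) h1 h2
  apply le_antisymm
  · exact ciSup_le h3
  · exact le_ciSup (f := fun s => dx S x s y) ⟨dx S x θ y, by rintro _ ⟨s, rfl⟩; exact h3 s⟩ θ

theorem theta : P_theta := by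
  intro f Φ L U S T h
  refine ⟨fun x y => ⨆ s, dx S x s y, ?_, ?_, ?_⟩
  · intro x _ y t ht
    simp only [dx_smul]
    rw [Real.mul_iSup_of_nonneg ht.le]
  · intro x hx θ y h1 h2
    exact iSup_eq h hx h1 h2
  · intro x hx y hy
    obtain ⟨ρ, φ, ho⟩ := exists_osc h hx hy
    obtain ⟨m, _, hm2, hm3⟩ := ho.exists_max
    set g : ((Fin 2 → ℝ) × (Fin 2 → ℝ)) × ℝ → ℝ := fun z => fderiv ℝ T (z.1.1, z.2) (z.1.2, 0)
      with hg
    have hgs : ContDiff ℝ ∞ g := by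
      have h1 : ContDiff ℝ ∞ (fderiv ℝ T) := h.T_smooth.fderiv_right (by simp)
      apply ContDiff.clm_apply
      · exact h1.comp (by fun_prop)
      · fun_prop
    have hder : fderiv ℝ g ((x, y), m) (0, 1) ≠ 0 := by
      have h1 : HasFDerivAt g (fderiv ℝ g ((x, y), m)) ((x, y), m) :=
        ((hgs.differentiable (by simp)) _).hasFDerivAt
      have h2 : HasDerivAt (fun s : ℝ => ((x, y), s))
          ((0 : (Fin 2 → ℝ) × (Fin 2 → ℝ)), (1:ℝ)) m :=
        (hasDerivAt_const m (x, y)).prodMk (hasDerivAt_id m)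
      have h3 := h1.comp_hasDerivAt m h2
      have h4 := dxT_deriv h x y m
      have h5 : fderiv ℝ g ((x, y), m) (0, 1) = f (T (x, m)) * dx T x m y - dx S x m y :=
        h3.unique h4
      rw [h5]
      have h6 : dx T x m y = 0 := hm2
      have h7 : 0 < dx S x m y := hm3
      rw [h6, mul_zero, zero_sub]
      exact (neg_lt_zero.mpr h7).ne
    obtain ⟨W, ϑ, hW, hpW, hϑ, hϑm, hzero⟩ := implicit_scalar g hgs (x, y) m hm2 hder
    have hposc : ContinuousOn (fun q : (Fin 2 → ℝ) × (Fin 2 → ℝ) => dx S q.1 (ϑ q) q.2) W := by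
      unfold dx
      have h1 : Continuous (fderiv ℝ S) := h.S_smooth.continuous_fderiv (by simp)
      apply ContinuousOn.clm_apply
      · exact h1.comp_continuousOn (continuousOn_fst.prodMk hϑ.continuousOn)
      · fun_prop
    have hO := hposc.isOpen_inter_preimage hW (isOpen_Ioi (a := (0:ℝ)))
    refine ⟨(W ∩ (fun q : (Fin 2 → ℝ) × (Fin 2 → ℝ) => dx S q.1 (ϑ q) q.2) ⁻¹' Ioi 0)
      ∩ (Prod.fst ⁻¹' U), ϑ, hO.inter (h.U_open.preimage continuous_fst), ?_, ?_, ?_⟩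
    · refine ⟨⟨hpW, ?_⟩, hx⟩
      show 0 < dx S x (ϑ (x, y)) y
      rw [hϑm]
      exact hm3
    · exact hϑ.mono (fun q hq => hq.1.1)
    · rintro ⟨x', y'⟩ ⟨⟨hq1, hq2⟩, hq3⟩
      have e1 : dx T x' (ϑ (x', y')) y' = 0 := hzero _ hq1
      have e2 : 0 < dx S x' (ϑ (x', y')) y' := hq2
      have e3 := iSup_eq h hq3 e1 e2
      exact ⟨hq3, e3, e1, by show 0 < ⨆ s, dx S x' s y'; rw [e3]; exact e2⟩

end

end Pool.Agent.W87.UniTheta
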